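import Mathlib
import Pool.Agent.H789R2.FR.Sph
set_option autoImplicit false

/-! Plane algebra: complex square and product, the linear Bessel identity on the sphere. -/

namespace Pool.Agent.Run7.h58.MV

open MeasureTheory Set Complex
open scoped ENNReal NNReal RealInnerProductSpace
open Pool.Agent.H789R2.FR (E sg T sg_finite sg_ae sg_inv)

/-- complex square -/
noncomputable def sq (u : E 2) : E 2 := !₂[u 0 ^ 2 - u 1 ^ 2, 2 * u 0 * u 1]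

/-- complex product -/
noncomputable def cm (a b : E 2) : E 2 := !₂[a 0 * b 0 - a 1 * b 1, a 1 * b 0 + a 0 * b 1]

theorem sq_zero (u : E 2) : sq u 0 = u 0 ^ 2 - u 1 ^ 2 := rfl
theorem sq_one (u : E 2) : sq u 1 = 2 * u 0 * u 1 := rfl
theorem cm_zero (a b : E 2) : cm a b 0 = a 0 * b 0 - a 1 * b 1 := rfl
theorem cm_one (a b : E 2) : cm a b 1 = a 1 * b 0 + a 0 * b 1 := rfl

theorem inner_two (a b : E 2) : (⟪a, b⟫ : ℝ) = a 0 * b 0 + a 1 * b 1 := by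
  rw [PiLp.inner_apply, Fin.sum_univ_two]
  simp only [RCLike.inner_apply, conj_trivial]
  ring

theorem norm_two (a : E 2) : ‖a‖ ^ 2 = a 0 ^ 2 + a 1 ^ 2 := by
  rw [EuclideanSpace.norm_sq_eq, Fin.sum_univ_two]
  simp

theorem norm_sq_eq (a : E 2) : ‖sq a‖ = ‖a‖ ^ 2 := by
  have h : ‖sq a‖ ^ 2 = (‖a‖ ^ 2) ^ 2 := by
    rw [norm_two, norm_two, sq_zero, sq_one]
    ring
  exact (sq_eq_sq₀ (norm_nonneg _) (by positivity)).1 h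

theorem sq_meas : Measurable sq := by
  unfold sq
  fun_prop

theorem cm_meas : Measurable fun p : E 2 × E 2 => cm p.1 p.2 := by
  unfold cm
  fun_prop

theorem sq_smul (r : ℝ) (w : E 2) : sq (r • w) = r ^ 2 • sq w := by
  ext i
  fin_cases i
  · simp only [Fin.zero_eta, PiLp.smul_apply, smul_eq_mul, sq_zero]
    ring
  · simp only [Fin.mk_one, PiLp.smul_apply, smul_eq_mul, sq_one]
    ring

/-- the length identity -/
theorem len (x u : E 2) (t B N : ℝ) (hu : ‖u‖ = 1) (hB : 0 < B) (hN : N ^ 2 = ‖x‖ ^ 2 + t ^ 2)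
    (hBN : 2 * B = N - t) :
    ‖(4 * B)⁻¹ • sq x + B • sq u‖ ^ 2 = (⟪x, u⟫ : ℝ) ^ 2 + t ^ 2 := by
  have hu2 : u 0 ^ 2 + u 1 ^ 2 = 1 := by rw [← norm_two, hu]; norm_num
  have hx2 := norm_two x
  rw [hx2] at hN
  rw [norm_two, inner_two]
  simp only [PiLp.add_apply, PiLp.smul_apply, smul_eq_mul, sq_zero, sq_one]
  have hN2 : N = 2 * B + t := by linarith
  rw [hN2] at hN
  have h4 : 4 * B * (B + t) = x 0 ^ 2 + x 1 ^ 2 := by nlinarith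
  have hB' : (4 * B) ≠ 0 := by positivity
  have e1 : (4 * B)⁻¹ * (x 0 ^ 2 - x 1 ^ 2) + B * (u 0 ^ 2 - u 1 ^ 2) =
      (4 * B)⁻¹ * ((x 0 ^ 2 - x 1 ^ 2) + 4 * B ^ 2 * (u 0 ^ 2 - u 1 ^ 2)) := by
    field_simp
  have e2 : (4 * B)⁻¹ * (2 * x 0 * x 1) + B * (2 * u 0 * u 1) =
      (4 * B)⁻¹ * (2 * x 0 * x 1 + 4 * B ^ 2 * (2 * u 0 * u 1)) := by
    field_simp
  rw [e1, e2, mul_pow, mul_pow, ← mul_add, inv_pow, inv_mul_eq_iff_eq_mul₀ (by positivity)]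
  -- everything is polynomial
  have k1 : (x 0 ^ 2 - x 1 ^ 2) ^ 2 + (2 * x 0 * x 1) ^ 2 = (4 * B * (B + t)) ^ 2 := by
    rw [h4]; ring
  have k2 : (u 0 ^ 2 - u 1 ^ 2) ^ 2 + (2 * u 0 * u 1) ^ 2 = 1 := by
    have : (u 0 ^ 2 - u 1 ^ 2) ^ 2 + (2 * u 0 * u 1) ^ 2 = (u 0 ^ 2 + u 1 ^ 2) ^ 2 := by ring
    rw [this, hu2]; norm_num
  have k3 : (x 0 ^ 2 - x 1 ^ 2) * (u 0 ^ 2 - u 1 ^ 2) + (2 * x 0 * x 1) * (2 * u 0 * u 1) =
      2 * (x 0 * u 0 + x 1 * u 1) ^ 2 - 4 * B * (B + t) := by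
    have : (x 0 ^ 2 - x 1 ^ 2) * (u 0 ^ 2 - u 1 ^ 2) + (2 * x 0 * x 1) * (2 * u 0 * u 1) =
      2 * (x 0 * u 0 + x 1 * u 1) ^ 2 - (x 0 ^ 2 + x 1 ^ 2) * (u 0 ^ 2 + u 1 ^ 2) := by ring
    rw [this, hu2, h4]; ring
  have e3 : (x 0 ^ 2 - x 1 ^ 2 + 4 * B ^ 2 * (u 0 ^ 2 - u 1 ^ 2)) ^ 2 +
      (2 * x 0 * x 1 + 4 * B ^ 2 * (2 * u 0 * u 1)) ^ 2 =
      ((x 0 ^ 2 - x 1 ^ 2) ^ 2 + (2 * x 0 * x 1) ^ 2) +
      8 * B ^ 2 * ((x 0 ^ 2 - x 1 ^ 2) * (u 0 ^ 2 - u 1 ^ 2) + (2 * x 0 * x 1) * (2 * u 0 * u 1)) +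
      16 * B ^ 4 * ((u 0 ^ 2 - u 1 ^ 2) ^ 2 + (2 * u 0 * u 1) ^ 2) := by ring
  rw [e3, k1, k2, k3]
  ring

/-- the linear identity -/
theorem lin (x u : E 2) (t B N : ℝ) (hu : ‖u‖ = 1) (hB : 0 < B) (hN0 : 0 < N)
    (hN : N ^ 2 = ‖x‖ ^ 2 + t ^ 2) (hBN : 2 * B = N - t) :
    (⟪N⁻¹ • cm x u, (4 * B)⁻¹ • sq x + B • sq u⟫ : ℝ) = ⟪x, u⟫ := by
  have hu2 : u 0 ^ 2 + u 1 ^ 2 = 1 := by rw [← norm_two, hu]; norm_num
  have hx2 := norm_two x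
  rw [hx2] at hN
  have hN2 : t = N - 2 * B := by linarith
  rw [hN2] at hN
  have h4 : x 0 ^ 2 + x 1 ^ 2 = 4 * B * (N - B) := by nlinarith
  rw [inner_smul_left, inner_add_right, inner_smul_right, inner_smul_right, inner_two, inner_two,
    inner_two]
  simp only [sq_zero, sq_one, cm_zero, cm_one, conj_trivial]
  have k1 : (x 0 * u 0 - x 1 * u 1) * (x 0 ^ 2 - x 1 ^ 2) +
      (x 1 * u 0 + x 0 * u 1) * (2 * x 0 * x 1) =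
      (x 0 ^ 2 + x 1 ^ 2) * (x 0 * u 0 + x 1 * u 1) := by ring
  have k2 : (x 0 * u 0 - x 1 * u 1) * (u 0 ^ 2 - u 1 ^ 2) +
      (x 1 * u 0 + x 0 * u 1) * (2 * u 0 * u 1) =
      (u 0 ^ 2 + u 1 ^ 2) * (x 0 * u 0 + x 1 * u 1) := by ring
  rw [k1, k2, hu2, h4]
  field_simp
  ring

/-- the integral of a linear function against a plane wave depends only on two numbers -/
theorem Kid {n : ℕ} (c Y c' Y' : E n) (h1 : ‖Y‖ = ‖Y'‖) (h2 : (⟪c, Y⟫ : ℝ) = ⟪c', Y'⟫) :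
    ∫ η, ((⟪c, η⟫ : ℝ) : ℂ) * Complex.exp (-((⟪Y, η⟫ : ℝ) : ℂ) * I) ∂(sg n) =
    ∫ η, ((⟪c', η⟫ : ℝ) : ℂ) * Complex.exp (-((⟪Y', η⟫ : ℝ) : ℂ) * I) ∂(sg n) := by
  have hfin := sg_finite n
  -- the integral vanishes for `c ⟂ Y`
  have hzero : ∀ d Z : E n, (⟪d, Z⟫ : ℝ) = 0 →
      ∫ η, ((⟪d, η⟫ : ℝ) : ℂ) * Complex.exp (-((⟪Z, η⟫ : ℝ) : ℂ) * I) ∂(sg n) = 0 := by
    intro d Z hd
    set S : E n ≃ₗᵢ[ℝ] E n := (ℝ ∙ d)ᗮ.reflection with hS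
    have hSd : S d = -d := Submodule.reflection_orthogonalComplement_singleton_eq_neg d
    have hSZ : S Z = Z := by
      apply Submodule.reflection_mem_subspace_eq_self
      rw [Submodule.mem_orthogonal_singleton_iff_inner_right]
      exact hd
    have hemb : MeasurableEmbedding S := S.toHomeomorph.measurableEmbedding
    have e := (sg_inv S).integral_comp hemb
      (fun η => ((⟪d, η⟫ : ℝ) : ℂ) * Complex.exp (-((⟪Z, η⟫ : ℝ) : ℂ) * I))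
    have e2 : ∀ η : E n, ((⟪d, S η⟫ : ℝ) : ℂ) * Complex.exp (-((⟪Z, S η⟫ : ℝ) : ℂ) * I) =
        -(((⟪d, η⟫ : ℝ) : ℂ) * Complex.exp (-((⟪Z, η⟫ : ℝ) : ℂ) * I)) := by
      intro η
      have a1 : (⟪d, S η⟫ : ℝ) = -⟪d, η⟫ := by
        have : (⟪S d, S η⟫ : ℝ) = ⟪d, η⟫ := S.inner_map_map d η
        rw [hSd, inner_neg_left] at this
        linarith
      have a2 : (⟪Z, S η⟫ : ℝ) = ⟪Z, η⟫ := by
        have : (⟪S Z, S η⟫ : ℝ) = ⟪Z, η⟫ := S.inner_map_map Z η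
        rwa [hSZ] at this
      rw [a1, a2]
      push_cast
      ring
    simp only [e2] at e
    rw [integral_neg] at e
    have := self_eq_neg.1 e.symm
    exact this
  -- move `Y` to `Y'`
  set R : E n ≃ₗᵢ[ℝ] E n := (ℝ ∙ (Y - Y'))ᗮ.reflection with hR
  have hRY : R Y = Y' := Submodule.reflection_sub h1
  have hemb : MeasurableEmbedding R := R.toHomeomorph.measurableEmbedding
  have e := (sg_inv R).integral_comp hemb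
    (fun η => ((⟪R c, η⟫ : ℝ) : ℂ) * Complex.exp (-((⟪Y', η⟫ : ℝ) : ℂ) * I))
  have e2 : ∀ η : E n, ((⟪R c, R η⟫ : ℝ) : ℂ) * Complex.exp (-((⟪Y', R η⟫ : ℝ) : ℂ) * I) =
      ((⟪c, η⟫ : ℝ) : ℂ) * Complex.exp (-((⟪Y, η⟫ : ℝ) : ℂ) * I) := by
    intro η
    rw [← hRY, R.inner_map_map, R.inner_map_map]
  simp only [e2] at e
  rw [e]
  have hint : ∀ d : E n, Integrable (fun η : E n => ((⟪d, η⟫ : ℝ) : ℂ) *
      Complex.exp (-((⟪Y', η⟫ : ℝ) : ℂ) * I)) (sg n) := by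
    intro d
    refine Integrable.mono' (integrable_const ‖d‖) ?_ ?_
    · exact (by fun_prop : Continuous _).aestronglyMeasurable
    · filter_upwards [sg_ae n] with η hη
      rw [norm_mul, Complex.norm_real]
      have : ‖Complex.exp (-((⟪Y', η⟫ : ℝ) : ℂ) * I)‖ = 1 := by
        rw [show -((⟪Y', η⟫ : ℝ) : ℂ) * I = ((-⟪Y', η⟫ : ℝ) : ℂ) * I by push_cast; ring]
        exact Complex.norm_exp_ofReal_mul_I _
      rw [this, mul_one]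
      calc ‖(⟪d, η⟫ : ℝ)‖ ≤ ‖d‖ * ‖η‖ := norm_inner_le_norm _ _
        _ = ‖d‖ := by rw [hη, mul_one]
  have h3 : (⟪R c - c', Y'⟫ : ℝ) = 0 := by
    rw [inner_sub_left, ← h2, ← hRY, R.inner_map_map, sub_self]
  have h4 := hzero _ _ h3
  have h5 : ∀ η : E n, ((⟪R c - c', η⟫ : ℝ) : ℂ) * Complex.exp (-((⟪Y', η⟫ : ℝ) : ℂ) * I) =
      ((⟪R c, η⟫ : ℝ) : ℂ) * Complex.exp (-((⟪Y', η⟫ : ℝ) : ℂ) * I) -
      ((⟪c', η⟫ : ℝ) : ℂ) * Complex.exp (-((⟪Y', η⟫ : ℝ) : ℂ) * I) := by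
    intro η
    rw [inner_sub_left]
    push_cast
    ring
  simp only [h5] at h4
  rw [integral_sub (hint _) (hint _)] at h4
  exact sub_eq_zero.1 h4

end Pool.Agent.Run7.h58.MV
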