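import Mathlib
import Pool.Agent.TH554.J1595
import Pool.Agent.Run7.h58.MV.Alg
set_option autoImplicit false

/-! The circle: angles, the squaring map, the plane. -/

namespace Pool.Agent.Run7.h58.MV

open MeasureTheory Set Complex
open scoped ENNReal NNReal RealInnerProductSpace
open Pool.Agent.H789R2.FR (E sg T sg_finite sg_ae sg_inv polar)
open Pool.Agent.TH554.J1595 (pt pt_zero pt_one pt_meas sg_two_lint)
open Pool.Agent.H438R2.BR (Q)

/-- the unit vector with angle `τ` -/
noncomputable def cs (τ : ℝ) : E 2 := !₂[Real.cos τ, Real.sin τ]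

theorem cs_zero (τ : ℝ) : cs τ 0 = Real.cos τ := rfl
theorem cs_one (τ : ℝ) : cs τ 1 = Real.sin τ := rfl

theorem cs_meas : Measurable cs := by
  unfold cs
  have : Measurable fun τ : ℝ => (![Real.cos τ, Real.sin τ] : Fin 2 → ℝ) := by
    refine measurable_pi_lambda _ fun i => ?_
    fin_cases i
    · exact Real.measurable_cos
    · exact Real.measurable_sin
  exact (WithLp.measurable_toLp 2 _).comp this

theorem split (g : ℝ → ℝ≥0∞) (a b c : ℝ) (hab : a ≤ b) (hbc : b ≤ c) :
    ∫⁻ τ in Ioo a c, g τ = (∫⁻ τ in Ioo a b, g τ) + ∫⁻ τ in Ioo b c, g τ := by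
  rw [setLIntegral_congr Ioo_ae_eq_Ioc, setLIntegral_congr (Ioo_ae_eq_Ioc (a := a) (b := b)),
    setLIntegral_congr (Ioo_ae_eq_Ioc (a := b) (b := c)), ← Ioc_union_Ioc_eq_Ioc hab hbc,
    lintegral_union measurableSet_Ioc]
  rw [Set.disjoint_left]
  intro x hx hx'
  exact absurd hx.2 (not_le.2 hx'.1)

theorem shift (g : ℝ → ℝ≥0∞) (a b c : ℝ) :
    ∫⁻ τ in Ioo a b, g (τ + c) = ∫⁻ τ in Ioo (a + c) (b + c), g τ := by
  have h := (measurePreserving_add_right (volume : Measure ℝ) c).setLIntegral_comp_emb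
    (MeasurableEquiv.addRight c).measurableEmbedding g (Ioo a b)
  rw [h]
  congr 2
  simp

theorem flip (g : ℝ → ℝ≥0∞) (a b c : ℝ) :
    ∫⁻ τ in Ioo a b, g (c - τ) = ∫⁻ τ in Ioo (c - b) (c - a), g τ := by
  have h := (Measure.measurePreserving_sub_left (volume : Measure ℝ) c).setLIntegral_comp_emb
    (MeasurableEquiv.subLeft c).measurableEmbedding g (Ioo a b)
  rw [h]
  congr 2
  simp

theorem sg_two_angle (f : E 2 → ℝ≥0∞) (hf : Measurable f) :
    ∫⁻ z, f z ∂(sg 2) = ∫⁻ τ in Ioo (-Real.pi) Real.pi, f (cs τ) := by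
  have hpi := Real.pi_pos
  rw [sg_two_lint f hf, Fintype.sum_prod_type]
  simp only [Fintype.sum_bool]
  rw [split (fun τ => f (cs τ)) (-Real.pi) 0 Real.pi (by linarith) (by linarith),
    split (fun τ => f (cs τ)) (-Real.pi) (-(Real.pi / 2)) 0 (by linarith) (by linarith),
    split (fun τ => f (cs τ)) 0 (Real.pi / 2) Real.pi (by linarith) (by linarith)]
  have e1 : ∫⁻ θ in Q, f (pt (true, true) θ) = ∫⁻ τ in Ioo 0 (Real.pi / 2), f (cs τ) := by
    unfold Q
    refine lintegral_congr fun θ => ?_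
    congr 1
    ext i
    fin_cases i
    · simp [pt_zero, cs_zero, Pool.Agent.TH554.J1595.sgn]
    · simp [pt_one, cs_one, Pool.Agent.TH554.J1595.sgn]
  have e2 : ∫⁻ θ in Q, f (pt (false, true) θ) =
      ∫⁻ τ in Ioo (Real.pi / 2) Real.pi, f (cs τ) := by
    unfold Q
    have h := flip (fun τ => f (cs τ)) 0 (Real.pi / 2) Real.pi
    rw [show Real.pi - Real.pi / 2 = Real.pi / 2 by ring, sub_zero] at h
    rw [← h]
    refine lintegral_congr fun θ => ?_
    congr 1
    ext i
    fin_cases i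
    · simp [pt_zero, cs_zero, Pool.Agent.TH554.J1595.sgn, Real.cos_pi_sub]
    · simp [pt_one, cs_one, Pool.Agent.TH554.J1595.sgn, Real.sin_pi_sub]
  have e3 : ∫⁻ θ in Q, f (pt (true, false) θ) =
      ∫⁻ τ in Ioo (-(Real.pi / 2)) 0, f (cs τ) := by
    unfold Q
    have h := flip (fun τ => f (cs τ)) 0 (Real.pi / 2) 0
    rw [zero_sub, sub_zero] at h
    rw [← h]
    refine lintegral_congr fun θ => ?_
    congr 1
    ext i
    fin_cases i
    · simp [pt_zero, cs_zero, Pool.Agent.TH554.J1595.sgn]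
    · simp [pt_one, cs_one, Pool.Agent.TH554.J1595.sgn]
  have e4 : ∫⁻ θ in Q, f (pt (false, false) θ) =
      ∫⁻ τ in Ioo (-Real.pi) (-(Real.pi / 2)), f (cs τ) := by
    unfold Q
    have h := shift (fun τ => f (cs τ)) 0 (Real.pi / 2) (-Real.pi)
    rw [show Real.pi / 2 + -Real.pi = -(Real.pi / 2) by ring, zero_add] at h
    rw [← h]
    refine lintegral_congr fun θ => ?_
    congr 1
    ext i
    fin_cases i
    · simp only [Fin.zero_eta, pt_zero, cs_zero, Pool.Agent.TH554.J1595.sgn, neg_one_mul]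
      rw [← sub_eq_add_neg, Real.cos_sub_pi]
    · simp only [Fin.mk_one, pt_one, cs_one, Pool.Agent.TH554.J1595.sgn, neg_one_mul]
      rw [← sub_eq_add_neg, Real.sin_sub_pi]
  rw [e1, e2, e3, e4]
  ring

theorem sq_cs (τ : ℝ) : sq (cs τ) = cs (2 * τ) := by
  ext i
  fin_cases i
  · simp only [Fin.zero_eta, sq_zero, cs_zero, cs_one]
    rw [Real.cos_two_mul']
  · simp only [Fin.mk_one, sq_one, cs_zero, cs_one]
    rw [Real.sin_two_mul]
    ring

theorem scale_one (g : ℝ → ℝ≥0∞) (hg : Measurable g) (a b : ℝ) :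
    ∫⁻ τ in Ioo a b, g (2 * τ) = ENNReal.ofReal (1 / 2) * ∫⁻ τ in Ioo (2 * a) (2 * b), g τ := by
  rw [← lintegral_indicator measurableSet_Ioo, ← lintegral_indicator measurableSet_Ioo]
  have h1 := Real.map_volume_mul_left (a := 2) (by norm_num)
  have h2 : ∫⁻ τ, (Ioo (2 * a) (2 * b)).indicator g τ ∂(Measure.map (fun x : ℝ => 2 * x) volume) =
      ∫⁻ τ : ℝ, (Ioo (2 * a) (2 * b)).indicator g (2 * τ) :=
    lintegral_map (hg.indicator measurableSet_Ioo) (measurable_const_mul _)
  rw [h1, lintegral_smul_measure, smul_eq_mul] at h2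
  rw [show |(2 : ℝ)⁻¹| = 1 / 2 by norm_num] at h2
  rw [h2]
  refine lintegral_congr fun τ => ?_
  by_cases h : τ ∈ Ioo a b
  · rw [indicator_of_mem h, indicator_of_mem]
    exact ⟨by linarith [h.1], by linarith [h.2]⟩
  · rw [indicator_of_notMem h, indicator_of_notMem]
    intro h'
    exact h ⟨by linarith [h'.1], by linarith [h'.2]⟩

theorem cs_per (τ : ℝ) : cs (τ + 2 * Real.pi) = cs τ := by
  ext i
  fin_cases i
  · simp [cs_zero]
  · simp [cs_one]

theorem sq_lint (f : E 2 → ℝ≥0∞) (hf : Measurable f) :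
    ∫⁻ z, f (sq z) ∂(sg 2) = ∫⁻ z, f z ∂(sg 2) := by
  have hpi := Real.pi_pos
  rw [sg_two_angle (fun z => f (sq z)) (hf.comp sq_meas), sg_two_angle f hf]
  simp only [sq_cs]
  have hg : Measurable fun τ => f (cs τ) := hf.comp cs_meas
  rw [scale_one (fun τ => f (cs τ)) hg]
  rw [split (fun τ => f (cs τ)) (2 * -Real.pi) (-Real.pi) (2 * Real.pi) (by linarith) (by linarith),
    split (fun τ => f (cs τ)) (-Real.pi) Real.pi (2 * Real.pi) (by linarith) (by linarith)]
  have e1 : ∫⁻ τ in Ioo (2 * -Real.pi) (-Real.pi), f (cs τ) = ∫⁻ τ in Ioo 0 Real.pi, f (cs τ) := by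
    have h := shift (fun τ => f (cs τ)) (2 * -Real.pi) (-Real.pi) (2 * Real.pi)
    rw [show 2 * -Real.pi + 2 * Real.pi = 0 by ring,
      show -Real.pi + 2 * Real.pi = Real.pi by ring] at h
    rw [← h]
    simp only [cs_per]
  have e2 : ∫⁻ τ in Ioo Real.pi (2 * Real.pi), f (cs τ) =
      ∫⁻ τ in Ioo (-Real.pi) 0, f (cs τ) := by
    have h := shift (fun τ => f (cs τ)) (-Real.pi) 0 (2 * Real.pi)
    rw [show -Real.pi + 2 * Real.pi = Real.pi by ring, zero_add] at h
    rw [← h]
    simp only [cs_per]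
  rw [e1, e2]
  have e3 := split (fun τ => f (cs τ)) (-Real.pi) 0 Real.pi (by linarith) (by linarith)
  have e4 : (∫⁻ τ in Ioo 0 Real.pi, f (cs τ)) + ((∫⁻ τ in Ioo (-Real.pi) Real.pi, f (cs τ)) +
      ∫⁻ τ in Ioo (-Real.pi) 0, f (cs τ)) = 2 * ∫⁻ τ in Ioo (-Real.pi) Real.pi, f (cs τ) := by
    rw [e3]
    ring
  rw [e4, ← mul_assoc]
  have e5 : ENNReal.ofReal (1 / 2) * 2 = 1 := by
    rw [show (2 : ℝ≥0∞) = ENNReal.ofReal 2 by norm_num, ← ENNReal.ofReal_mul (by norm_num)]
    norm_num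
  rw [e5, one_mul]

theorem sq_mp : MeasurePreserving sq (sg 2) (sg 2) := by
  refine ⟨sq_meas, ?_⟩
  refine Measure.ext_of_lintegral _ fun f hf => ?_
  rw [lintegral_map hf sq_meas, sq_lint f hf]

/-- sign -/
noncomputable def sg1 (t : ℝ) : ℝ := if 0 ≤ t then 1 else -1

theorem sg1_meas : Measurable sg1 :=
  Measurable.ite measurableSet_Ici measurable_const measurable_const

/-- a square root on the circle -/
noncomputable def root (y : E 2) : E 2 :=
  !₂[Real.sqrt ((1 + y 0) / 2), sg1 (y 1) * Real.sqrt ((1 - y 0) / 2)]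

theorem root_zero (y : E 2) : root y 0 = Real.sqrt ((1 + y 0) / 2) := rfl
theorem root_one (y : E 2) : root y 1 = sg1 (y 1) * Real.sqrt ((1 - y 0) / 2) := rfl

theorem root_meas : Measurable root := by
  unfold root
  have m0 : Measurable fun y : E 2 => y 0 := by fun_prop
  have m1 : Measurable fun y : E 2 => y 1 := by fun_prop
  have : Measurable fun y : E 2 => (![Real.sqrt ((1 + y 0) / 2),
      sg1 (y 1) * Real.sqrt ((1 - y 0) / 2)] : Fin 2 → ℝ) := by
    refine measurable_pi_lambda _ fun i => ?_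
    fin_cases i
    · exact ((measurable_const.add m0).div_const 2).sqrt
    · exact (sg1_meas.comp m1).mul ((measurable_const.sub m0).div_const 2).sqrt
  exact (WithLp.measurable_toLp 2 _).comp this

theorem root_sq (u : E 2) (hu : ‖u‖ = 1) : root (sq u) = u ∨ root (sq u) = -u := by
  have hu2 : u 0 ^ 2 + u 1 ^ 2 = 1 := by rw [← norm_two, hu]; norm_num
  have e0 : root (sq u) 0 = |u 0| := by
    rw [root_zero, sq_zero, ← Real.sqrt_sq_eq_abs]
    congr 1
    linarith
  have e1 : root (sq u) 1 = sg1 (2 * u 0 * u 1) * |u 1| := by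
    rw [root_one, sq_one, sq_zero, ← Real.sqrt_sq_eq_abs (u 1)]
    congr 2
    linarith
  have key : ∀ v : E 2, root (sq u) 0 = v 0 → root (sq u) 1 = v 1 → root (sq u) = v := by
    intro v h0 h1
    ext i
    fin_cases i
    · exact h0
    · exact h1
  rcases lt_trichotomy (u 0) 0 with h | h | h
  · right
    apply key
    · rw [e0, abs_of_neg h]
      rfl
    · rw [e1]
      rcases le_or_gt (u 1) 0 with h1 | h1
      · have : 0 ≤ 2 * u 0 * u 1 := by nlinarith
        rw [sg1, if_pos this, abs_of_nonpos h1, one_mul]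
        rfl
      · have : ¬ 0 ≤ 2 * u 0 * u 1 := by
          rw [not_le]
          nlinarith [mul_pos_of_neg_of_neg h (neg_lt_zero.2 h1)]
        rw [sg1, if_neg this, abs_of_pos h1]
        change -1 * u 1 = -(u 1)
        ring
  · have h2 : sg1 (2 * u 0 * u 1) = 1 := by rw [h]; simp [sg1]
    rw [h2, one_mul] at e1
    rw [h, abs_zero] at e0
    rcases le_or_gt 0 (u 1) with h1 | h1
    · left
      apply key
      · rw [e0, h]
      · rw [e1, abs_of_nonneg h1]
    · right
      apply key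
      · rw [e0]
        change (0 : ℝ) = -(u 0)
        rw [h]; simp
      · rw [e1, abs_of_neg h1]
        rfl
  · left
    apply key
    · rw [e0, abs_of_pos h]
    · rw [e1]
      rcases le_or_gt 0 (u 1) with h1 | h1
      · have : 0 ≤ 2 * u 0 * u 1 := by positivity
        rw [sg1, if_pos this, abs_of_nonneg h1, one_mul]
      · have : ¬ 0 ≤ 2 * u 0 * u 1 := by
          rw [not_le]
          nlinarith [mul_pos h (neg_pos.2 h1)]
        rw [sg1, if_neg this, abs_of_neg h1]
        ring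

/-- the plane under squaring -/
theorem plane_sq (f : E 2 → ℝ≥0∞) (hf : Measurable f) :
    ∫⁻ y : E 2, ENNReal.ofReal (4 * ‖y‖ ^ 2) * f (sq y) = 2 * ∫⁻ x : E 2, f x := by
  have m1 : Measurable fun y : E 2 => ENNReal.ofReal (4 * ‖y‖ ^ 2) * f (sq y) :=
    (Measurable.ennreal_ofReal (by fun_prop)).mul (hf.comp sq_meas)
  rw [polar (by norm_num) _ m1, polar (by norm_num) f hf]
  have m2 : Measurable fun w : E 2 => ∫⁻ r in Ioi (0 : ℝ), ENNReal.ofReal (r ^ (2 - 1)) *
      f (r • w) := by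
    apply Measurable.lintegral_prod_right
    exact ((measurable_snd.pow_const _).ennreal_ofReal).mul
      (hf.comp (measurable_snd.smul measurable_fst))
  rw [← lintegral_const_mul _ m2, ← sq_lint _ (m2.const_mul 2)]
  refine lintegral_congr_ae ?_
  filter_upwards [sg_ae 2] with w hw
  rw [← lintegral_const_mul]
  · have himg : (fun r : ℝ => r ^ 2) '' Ioi 0 = Ioi 0 := by
      ext y
      constructor
      · rintro ⟨r, hr, rfl⟩
        have : (0 : ℝ) < r := hr
        exact (by positivity : (0 : ℝ) < r ^ 2)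
      · intro hy
        exact ⟨Real.sqrt y, Real.sqrt_pos.2 hy, Real.sq_sqrt (le_of_lt hy)⟩
    have hsub := lintegral_image_eq_lintegral_abs_deriv_mul (s := Ioi (0 : ℝ))
      (f := fun r : ℝ => r ^ 2) (f' := fun r => 2 * r) measurableSet_Ioi
      (fun r _ => by simpa using ((hasDerivAt_pow 2 r).hasDerivWithinAt))
      (fun a ha b hb hab => by
        have ha' : (0 : ℝ) < a := ha
        have hb' : (0 : ℝ) < b := hb
        exact (pow_left_inj₀ ha'.le hb'.le (by norm_num)).1 hab)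
      (fun ρ => 2 * (ENNReal.ofReal (ρ ^ (2 - 1)) * f (ρ • sq w)))
    rw [himg] at hsub
    rw [hsub]
    refine setLIntegral_congr_fun measurableSet_Ioi fun r hr => ?_
    have hr0 : (0 : ℝ) < r := hr
    rw [sq_smul, norm_smul, hw, mul_one, Real.norm_eq_abs, sq_abs, abs_of_pos (by positivity)]
    generalize f (r ^ 2 • sq w) = F
    rw [show (2 : ℝ≥0∞) = ENNReal.ofReal 2 by norm_num, ← mul_assoc, ← mul_assoc, ← mul_assoc,
      ← ENNReal.ofReal_mul (by positivity), ← ENNReal.ofReal_mul (by positivity),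
      ← ENNReal.ofReal_mul (by positivity)]
    congr 2
    ring
  · exact (Measurable.ennreal_ofReal (by fun_prop)).mul
      (hf.comp (measurable_id.smul_const (sq w)))

end Pool.Agent.Run7.h58.MV
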