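import Mathlib
import Pool.Agent.Run7.h58.MV.Circ
set_option autoImplicit false

/-! Functions of bounded variation: the modulus of continuity in `L^1`. -/

namespace Pool.Agent.Run7.h58.MV

open MeasureTheory Set Filter Topology
open scoped ENNReal NNReal

theorem var_sum (f : ℝ → ℂ) (V : ℝ≥0∞) (hs : ∀ z, z ∉ Ioo (-1 : ℝ) 1 → f z = 0)
    (hb : ∀ z, ‖f z‖ₑ ≤ V) (hv : eVariationOn f (Ioo (-1 : ℝ) 1) ≤ V) (u : ℕ → ℝ)
    (hu : Monotone u) (K : ℕ) : ∑ i ∈ Finset.range K, ‖f (u (i + 1)) - f (u i)‖ₑ ≤ 3 * V := by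
  set I : Set ℝ := Ioo (-1 : ℝ) 1 with hI
  have out1 : ∀ z, z ≤ -1 → f z = 0 := fun z hz => hs z fun h => absurd h.1 (not_lt.2 hz)
  have out2 : ∀ z, 1 ≤ z → f z = 0 := fun z hz => hs z fun h => absurd h.2 (not_lt.2 hz)
  have key : ∀ K : ℕ, (u K ≤ -1 → ∑ i ∈ Finset.range K, ‖f (u (i + 1)) - f (u i)‖ₑ = 0) ∧
      (u K ∈ I → ∑ i ∈ Finset.range K, ‖f (u (i + 1)) - f (u i)‖ₑ ≤
        eVariationOn f (I ∩ Iic (u K)) + V) ∧
      (1 ≤ u K → ∑ i ∈ Finset.range K, ‖f (u (i + 1)) - f (u i)‖ₑ ≤ eVariationOn f I + 2 * V) := by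
    intro K
    induction K with
    | zero =>
      refine ⟨fun _ => by simp, fun _ => by simp, fun _ => by simp⟩
    | succ K ih =>
      obtain ⟨ih1, ih2, ih3⟩ := ih
      have hK : u K ≤ u (K + 1) := hu (Nat.le_succ K)
      rw [Finset.sum_range_succ]
      refine ⟨fun h => ?_, fun h => ?_, fun h => ?_⟩
      · rw [ih1 (hK.trans h), out1 _ h, out1 _ (hK.trans h)]
        simp
      · rcases le_or_gt (u K) (-1) with h1 | h1
        · rw [ih1 h1, zero_add, out1 _ h1, sub_zero]
          exact (hb _).trans le_add_self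
        · have h2 : u K ∈ I := ⟨h1, lt_of_le_of_lt hK h.2⟩
          have h3 : eVariationOn f (I ∩ Iic (u K)) + ‖f (u (K + 1)) - f (u K)‖ₑ ≤
              eVariationOn f (I ∩ Iic (u (K + 1))) := by
            have h4 : ‖f (u (K + 1)) - f (u K)‖ₑ ≤ eVariationOn f {u K, u (K + 1)} := by
              rw [← edist_eq_enorm_sub]
              exact eVariationOn.edist_le f (by simp) (by simp)
            calc _ ≤ eVariationOn f (I ∩ Iic (u K)) + eVariationOn f {u K, u (K + 1)} := by gcongr
              _ ≤ eVariationOn f ((I ∩ Iic (u K)) ∪ {u K, u (K + 1)}) := by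
                  apply eVariationOn.add_le_union
                  intro x hx y hy
                  rcases hy with rfl | rfl
                  · exact hx.2
                  · exact le_trans hx.2 hK
              _ ≤ _ := by
                  apply eVariationOn.mono
                  rintro x (hx | hx)
                  · exact ⟨hx.1, le_trans hx.2 hK⟩
                  · rcases hx with rfl | rfl
                    · exact ⟨h2, hK⟩
                    · exact ⟨h, le_refl (u (K + 1))⟩
          calc _ ≤ (eVariationOn f (I ∩ Iic (u K)) + V) + ‖f (u (K + 1)) - f (u K)‖ₑ := by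
                gcongr
                exact ih2 h2
            _ = (eVariationOn f (I ∩ Iic (u K)) + ‖f (u (K + 1)) - f (u K)‖ₑ) + V := by ring
            _ ≤ _ := by gcongr
      · rcases le_or_gt (u K) (-1) with h1 | h1
        · rw [ih1 h1, zero_add, out1 _ h1, out2 _ h]
          simp
        · rcases lt_or_ge (u K) 1 with h2 | h2
          · rw [out2 _ h, zero_sub, enorm_neg]
            calc _ ≤ (eVariationOn f (I ∩ Iic (u K)) + V) + V := by
                  gcongr
                  · exact ih2 ⟨h1, h2⟩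
                  · exact hb _
              _ ≤ (eVariationOn f I + V) + V := by
                  gcongr
                  exact eVariationOn.mono f inter_subset_left
              _ = _ := by ring
          · rw [out2 _ h, out2 _ h2, sub_zero, enorm_zero, add_zero]
            exact ih3 h2
  obtain ⟨k1, k2, k3⟩ := key K
  rcases le_or_gt (u K) (-1) with h1 | h1
  · rw [k1 h1]; exact zero_le
  · rcases lt_or_ge (u K) 1 with h2 | h2
    · calc _ ≤ eVariationOn f (I ∩ Iic (u K)) + V := k2 ⟨h1, h2⟩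
        _ ≤ V + V := by
            gcongr
            exact (eVariationOn.mono f inter_subset_left).trans hv
        _ = 2 * V := by ring
        _ ≤ 3 * V := by gcongr; norm_num
    · calc _ ≤ eVariationOn f I + 2 * V := k3 h2
        _ ≤ V + 2 * V := by gcongr
        _ = _ := by ring

theorem tile (g : ℝ → ℝ≥0∞) (a h : ℝ) (hh : 0 ≤ h) (K : ℕ) : ∫⁻ z in Ioo a (a + K * h), g z =
    ∑ k ∈ Finset.range K, ∫⁻ t in Ioo (0 : ℝ) h, g (t + (a + k * h)) := by
  induction K with
  | zero => simp
  | succ K ih =>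
    have h1 : (0 : ℝ) ≤ K * h := by positivity
    rw [Finset.sum_range_succ, ← ih, split g a (a + K * h) (a + (K + 1 : ℕ) * h) (by linarith)
      (by push_cast; linarith), shift g 0 h (a + K * h)]
    have e1 : 0 + (a + K * h) = a + K * h := zero_add _
    have e2 : h + (a + K * h) = a + (K + 1 : ℕ) * h := by push_cast; ring
    rw [e1, e2]

theorem modPos (f : ℝ → ℂ) (hf : Measurable f) (V : ℝ≥0∞)
    (hs : ∀ z, z ∉ Ioo (-1 : ℝ) 1 → f z = 0)
    (hb : ∀ z, ‖f z‖ₑ ≤ V) (hv : eVariationOn f (Ioo (-1 : ℝ) 1) ≤ V) (h : ℝ) (hh : 0 < h) :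
    ∫⁻ z, ‖f (z + h) - f z‖ₑ ≤ ENNReal.ofReal h * (3 * V) := by
  set g : ℝ → ℝ≥0∞ := fun z => ‖f (z + h) - f z‖ₑ with hg
  have hgm : Measurable g := ((hf.comp (measurable_id.add_const h)).sub hf).enorm
  obtain ⟨K, hK⟩ := exists_nat_ge ((2 + h) / h)
  rw [div_le_iff₀ hh] at hK
  have h1 : ∫⁻ z, g z = ∫⁻ z in Ioo (-1 - h) (-1 - h + K * h), g z := by
    symm
    apply setLIntegral_eq_of_support_subset
    intro z hz
    by_contra hz'
    apply hz
    rw [mem_Ioo, not_and_or, not_lt, not_lt] at hz'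
    simp only [hg]
    rcases hz' with h2 | h2
    · rw [hs (z + h) (fun h3 => by linarith [h3.1]), hs z (fun h3 => by linarith [h3.1])]
      simp
    · rw [hs (z + h) (fun h3 => by linarith [h3.2]), hs z (fun h3 => by linarith [h3.2])]
      simp
  rw [h1, tile g _ h hh.le K, ← lintegral_finsetSum]
  · calc ∫⁻ t in Ioo (0 : ℝ) h, ∑ k ∈ Finset.range K, g (t + (-1 - h + k * h))
        ≤ ∫⁻ _t in Ioo (0 : ℝ) h, 3 * V := by
          refine lintegral_mono fun t => ?_
          have h3 := var_sum f V hs hb hv (fun k => t + (-1 - h + k * h)) (fun i j hij => by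
            have : (i : ℝ) ≤ j := by exact_mod_cast hij
            simp only
            nlinarith) K
          refine le_trans (Finset.sum_le_sum fun k _ => ?_) h3
          simp only [hg]
          have e1 : t + (-1 - h + k * h) + h = t + (-1 - h + (k + 1 : ℕ) * h) := by
            push_cast; ring
          rw [e1]
      _ = _ := by
          rw [setLIntegral_const, Real.volume_Ioo, sub_zero, mul_comm]
  · intro k _
    exact hgm.comp (measurable_id.add_const _)

theorem modVar (f : ℝ → ℂ) (hf : Measurable f) (V : ℝ≥0∞)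
    (hs : ∀ z, z ∉ Ioo (-1 : ℝ) 1 → f z = 0)
    (hb : ∀ z, ‖f z‖ₑ ≤ V) (hv : eVariationOn f (Ioo (-1 : ℝ) 1) ≤ V) (h : ℝ) :
    ∫⁻ z, ‖f (z + h) - f z‖ₑ ≤ ENNReal.ofReal |h| * (3 * V) := by
  rcases lt_trichotomy h 0 with h0 | h0 | h0
  · have h1 := modPos f hf V hs hb hv (-h) (by linarith)
    rw [abs_of_neg h0]
    refine le_trans (le_of_eq ?_) h1
    have h2 := lintegral_add_right_eq_self (μ := (volume : Measure ℝ))
      (fun z => ‖f (z + h) - f z‖ₑ) (-h)
    rw [← h2]
    refine lintegral_congr fun z => ?_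
    rw [neg_add_cancel_right, ← enorm_neg, neg_sub]
  · subst h0
    simp
  · rw [abs_of_pos h0]
    exact modPos f hf V hs hb hv h h0

end Pool.Agent.Run7.h58.MV
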