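import Mathlib
import Pool.Agent.H438R2.PD.Core
import Pool.Agent.H789R2.FR.L2
import Pool.Agent.Run7.h58.MV.Circ
set_option autoImplicit false

/-! The Fourier transform of an odd function of the longitude, in parabolic coordinates. -/

namespace Pool.Agent.Run7.h58.MV

open MeasureTheory Set Complex
open scoped ENNReal NNReal RealInnerProductSpace
open Pool.Agent.H789R2.FR (E sg T sg_finite sg_ae sg_inv polar)
open Pool.Agent.TH554.J1595 (pt pt_zero pt_one pt_meas sg_two_lint)
open Pool.Agent.H438R2.BR (Q J J_mp J_inner)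
open Pool.Agent.H438R2.BR.T10 (e0 e0_norm sg_one)
open Pool.Agent.H438R2.PD (P1 P1_J P1_meas T_meas')

/-- point with planar part `x` and height `t` -/
noncomputable def jj (x : E 2) (t : ℝ) : E 3 := J x (t • e0)

theorem jj_inner (x y : E 2) (t s : ℝ) : (⟪jj x t, jj y s⟫ : ℝ) = ⟪x, y⟫ + t * s := by
  unfold jj
  have h := J_inner x y (t • e0) (s • e0)
  rw [real_inner_smul_left, real_inner_smul_right, real_inner_self_eq_norm_sq, e0_norm] at h
  have h2 : (⟪J x (t • e0), J y (s • e0)⟫ : ℝ) = ⟪x, y⟫ + t * s := by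
    rw [h]; ring
  exact h2

theorem jj_meas : Measurable fun p : E 2 × ℝ => jj p.1 p.2 := by
  unfold jj
  exact (J_mp 2 1).measurable.comp (measurable_fst.prodMk (measurable_snd.smul_const e0))

theorem sphere_lint (f : E 3 → ℝ≥0∞) (hf : Measurable f) :
    ∫⁻ z, f z ∂(sg 3) = ∫⁻ η : E 2, ENNReal.ofReal (η 0) *
      ∫⁻ u, f (jj (η 0 • u) (η 1)) ∂(sg 2) ∂(sg 2) := by
  have hfin := sg_finite 2
  have c0 : Measurable fun η : E 2 => η 0 := by fun_prop
  have c1 : Measurable fun η : E 2 => η 1 := by fun_prop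
  have mi : Measurable fun η : E 2 => ∫⁻ u, f (jj (η 0 • u) (η 1)) ∂(sg 2) := by
    apply Measurable.lintegral_prod_right'
      (f := fun q : E 2 × E 2 => f (jj (q.1 0 • q.2) (q.1 1)))
    exact hf.comp (jj_meas.comp (((c0.comp measurable_fst).smul measurable_snd).prodMk
      (c1.comp measurable_fst)))
  rw [sg_two_lint (fun η : E 2 => ENNReal.ofReal (η 0) *
      ∫⁻ u, f (jj (η 0 • u) (η 1)) ∂(sg 2)) (c0.ennreal_ofReal.mul mi), Fintype.sum_prod_type]
  simp only [Fintype.sum_bool]
  have hb := Pool.Agent.H438R2.BR.bipolar 2 1 (by norm_num) le_rfl f hf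
  have hb2 : ∫⁻ z, f z ∂(sg 3) = ∫⁻ θ in Q, ENNReal.ofReal ((Real.cos θ) ^ (2 - 1) *
      (Real.sin θ) ^ (1 - 1)) * ∫⁻ u, ∫⁻ v, f (J (Real.cos θ • u) (Real.sin θ • v))
        ∂(sg 1) ∂(sg 2) := hb
  rw [hb2]
  have z1 : ∀ b : Bool, ∫⁻ θ in Q, ENNReal.ofReal ((pt (false, b) θ) 0) *
      ∫⁻ u, f (jj ((pt (false, b) θ) 0 • u) ((pt (false, b) θ) 1)) ∂(sg 2) = 0 := by
    intro b
    rw [show (0 : ℝ≥0∞) = ∫⁻ θ in Q, (0 : ℝ≥0∞) by simp]
    refine setLIntegral_congr_fun measurableSet_Ioo fun θ hθ => ?_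
    have hc : 0 < Real.cos θ := Pool.Agent.H438R2.BR.T7.cos_pos_Q hθ
    rw [pt_zero]
    simp only [Pool.Agent.TH554.J1595.sgn]
    rw [ENNReal.ofReal_of_nonpos (by linarith), zero_mul]
  rw [z1, z1, add_zero, add_zero]
  have m2 : ∀ i : Bool × Bool, Measurable fun θ : ℝ => ENNReal.ofReal ((pt i θ) 0) *
      ∫⁻ u, f (jj ((pt i θ) 0 • u) ((pt i θ) 1)) ∂(sg 2) := fun i =>
    (c0.ennreal_ofReal.mul mi).comp (pt_meas i)
  rw [← lintegral_add_left (m2 (true, true))]
  refine lintegral_congr fun θ => ?_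
  rw [pt_zero, pt_zero, pt_one, pt_one]
  simp only [Pool.Agent.TH554.J1595.sgn, one_mul, neg_one_mul]
  rw [← mul_add, ← lintegral_add_left]
  · simp only [show 2 - 1 = 1 from rfl, pow_one, Nat.sub_self, pow_zero, mul_one]
    congr 1
    refine lintegral_congr fun u => ?_
    rw [sg_one]
    unfold jj
    simp only [neg_smul, smul_neg]
  · have m5 : Measurable fun u : E 2 => ((Real.cos θ • u, Real.sin θ) : E 2 × ℝ) :=
      (measurable_const_smul _).prodMk measurable_const
    exact hf.comp (jj_meas.comp m5)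

theorem sg_three : sg 3 = Measure.map (fun p : E 2 × E 2 => jj (p.1 0 • p.2) (p.1 1))
    (((sg 2).withDensity fun η : E 2 => ENNReal.ofReal (η 0)).prod (sg 2)) := by
  have hfin := sg_finite 2
  have c0 : Measurable fun η : E 2 => η 0 := by fun_prop
  have c1 : Measurable fun η : E 2 => η 1 := by fun_prop
  have mΨ : Measurable fun p : E 2 × E 2 => jj (p.1 0 • p.2) (p.1 1) :=
    jj_meas.comp (((c0.comp measurable_fst).smul measurable_snd).prodMk (c1.comp measurable_fst))
  refine Measure.ext_of_lintegral _ fun f hf => ?_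
  rw [lintegral_map hf mΨ, lintegral_prod (fun p : E 2 × E 2 => f (jj (p.1 0 • p.2) (p.1 1)))
    (hf.comp mΨ).aemeasurable, sphere_lint f hf]
  have mi : Measurable fun η : E 2 => ∫⁻ u, f (jj (η 0 • u) (η 1)) ∂(sg 2) :=
    (hf.comp mΨ).lintegral_prod_right'
  rw [lintegral_withDensity_eq_lintegral_mul _ c0.ennreal_ofReal mi]
  rfl

theorem dens_finite : IsFiniteMeasure ((sg 2).withDensity fun η : E 2 => ENNReal.ofReal (η 0)) := by
  have hfin := sg_finite 2
  refine isFiniteMeasure_withDensity ?_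
  apply ne_of_lt
  calc ∫⁻ η : E 2, ENNReal.ofReal (η 0) ∂(sg 2) ≤ ∫⁻ _η : E 2, 1 ∂(sg 2) := by
        refine lintegral_mono_ae ?_
        filter_upwards [sg_ae 2] with η hη
        rw [ENNReal.ofReal_le_one]
        have h1 := norm_two η
        rw [hη] at h1
        nlinarith [sq_nonneg (η 1), sq_nonneg (η 0 - 1)]
    _ < ⊤ := by
        rw [lintegral_one]
        exact measure_lt_top _ _

/-- integration over the sphere in coordinates -/
theorem sphere_int (G : E 3 → ℂ) (hG : Measurable G) (M : ℝ) (hM : ∀ z, ‖G z‖ ≤ M) :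
    ∫ z, G z ∂(sg 3) = ∫ η : E 2, ((max (η 0) 0 : ℝ) : ℂ) *
      ∫ u, G (jj (η 0 • u) (η 1)) ∂(sg 2) ∂(sg 2) := by
  have hfin := sg_finite 2
  have hfin2 := dens_finite
  have c0 : Measurable fun η : E 2 => η 0 := by fun_prop
  have c1 : Measurable fun η : E 2 => η 1 := by fun_prop
  have mΨ : Measurable fun p : E 2 × E 2 => jj (p.1 0 • p.2) (p.1 1) :=
    jj_meas.comp (((c0.comp measurable_fst).smul measurable_snd).prodMk (c1.comp measurable_fst))
  rw [sg_three, integral_map mΨ.aemeasurable hG.aestronglyMeasurable, integral_prod]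
  · rw [integral_withDensity_eq_integral_toReal_smul c0.ennreal_ofReal
      (Filter.Eventually.of_forall fun _ => ENNReal.ofReal_lt_top)]
    refine integral_congr_ae (Filter.Eventually.of_forall fun η => ?_)
    simp only [ENNReal.toReal_ofReal']
    rw [Complex.real_smul]
  · exact Integrable.of_bound (hG.comp mΨ).aestronglyMeasurable M
      (Filter.Eventually.of_forall fun p => hM _)

/-- density depending on the longitude only -/
noncomputable def lon (h : E 2 → ℂ) (z : E 3) : ℂ := h (‖P1 2 1 z‖⁻¹ • P1 2 1 z)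

theorem lon_meas (h : E 2 → ℂ) (hh : Measurable h) : Measurable (lon h) := by
  unfold lon
  exact hh.comp ((P1_meas 2 1).norm.inv.smul (P1_meas 2 1))

theorem lon_jj (h : E 2 → ℂ) (r t : ℝ) (hr : 0 < r) (u : E 2) (hu : ‖u‖ = 1) :
    lon h (jj (r • u) t) = h u := by
  have e : P1 2 1 (jj (r • u) t) = r • u := P1_J _ _
  unfold lon
  rw [e, norm_smul, hu, mul_one, Real.norm_eq_abs, abs_of_pos hr, smul_smul,
    inv_mul_cancel₀ hr.ne', one_smul]

/-- the phase -/
noncomputable def ee (s : ℝ) : ℂ := Complex.exp (-(s : ℂ) * I)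

theorem norm_ee (s : ℝ) : ‖ee s‖ = 1 := by
  unfold ee
  rw [show -(s : ℂ) * I = ((-s : ℝ) : ℂ) * I by push_cast; ring]
  exact Complex.norm_exp_ofReal_mul_I _

theorem ee_add (s t : ℝ) : ee (s + t) = ee s * ee t := by
  unfold ee
  rw [← Complex.exp_add]
  congr 1
  push_cast
  ring

theorem ee_cont : Continuous ee := by
  unfold ee
  fun_prop

/-- odd functions of the longitude: first formula -/
theorem T_lon_odd (h : E 2 → ℂ) (hh : Measurable h) (hb : ∀ u, ‖h u‖ ≤ 1)
    (hodd : ∀ u, h (-u) = -h u) (x : E 2) (t : ℝ) :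
    T (lon h) (jj x t) = (1 / 2 : ℂ) * ∫ u, h u * ∫ η : E 2, ((η 0 : ℝ) : ℂ) *
      ee (η 0 * ⟪x, u⟫ + η 1 * t) ∂(sg 2) ∂(sg 2) := by
  have hfin := sg_finite 2
  have c0 : Measurable fun η : E 2 => η 0 := by fun_prop
  have c1 : Measurable fun η : E 2 => η 1 := by fun_prop
  set Φ : E 2 → ℂ := fun η => ∫ u, h u * ee (η 0 * ⟪x, u⟫ + η 1 * t) ∂(sg 2) with hΦ
  have mF : Measurable fun p : E 2 × E 2 => h p.2 * ee (p.1 0 * ⟪x, p.2⟫ + p.1 1 * t) := by
    refine (hh.comp measurable_snd).mul (ee_cont.measurable.comp ?_)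
    have : Measurable fun p : E 2 × E 2 => (⟪x, p.2⟫ : ℝ) := by fun_prop
    exact ((c0.comp measurable_fst).mul this).add ((c1.comp measurable_fst).mul_const t)
  have mΦ : Measurable Φ := by
    have h1 : StronglyMeasurable (fun p : E 2 × E 2 => h p.2 *
      ee (p.1 0 * ⟪x, p.2⟫ + p.1 1 * t)) := mF.stronglyMeasurable
    exact h1.integral_prod_right'.measurable
  have bΦ : ∀ η, ‖Φ η‖ ≤ (sg 2).real univ := by
    intro η
    have := norm_integral_le_of_norm_le_const (μ := sg 2)
      (f := fun u => h u * ee (η 0 * ⟪x, u⟫ + η 1 * t)) (C := 1)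
      (Filter.Eventually.of_forall fun u => by
        rw [norm_mul, norm_ee, mul_one]; exact hb u)
    simpa using this
  -- step 1
  have s1 : T (lon h) (jj x t) = ∫ η : E 2, ((max (η 0) 0 : ℝ) : ℂ) * Φ η ∂(sg 2) := by
    unfold T
    have mG : Measurable fun w : E 3 => Complex.exp (-((⟪jj x t, w⟫ : ℝ) : ℂ) * I) * lon h w := by
      refine Measurable.mul ?_ (lon_meas h hh)
      have : Measurable fun w : E 3 => (⟪jj x t, w⟫ : ℝ) := by fun_prop
      exact Complex.measurable_exp.comp ((Complex.measurable_ofReal.comp this).neg.mul_const I)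
    rw [sphere_int _ mG 1 (fun w => ?_)]
    · refine integral_congr_ae (Filter.Eventually.of_forall fun η => ?_)
      simp only
      rcases le_or_gt (η 0) 0 with h0 | h0
      · rw [max_eq_right h0]
        simp
      · congr 1
        simp only [hΦ]
        refine integral_congr_ae ?_
        filter_upwards [sg_ae 2] with u hu
        rw [lon_jj h _ _ h0 u hu, jj_inner, inner_smul_right, mul_comm]
        unfold ee
        congr 2
        ring_nf
    · rw [norm_mul]
      have := norm_ee (⟪jj x t, w⟫ : ℝ)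
      unfold ee at this
      rw [this, one_mul]
      exact hb _
  -- the reflection
  set R : E 2 ≃ₗᵢ[ℝ] E 2 := (ℝ ∙ (EuclideanSpace.single (0 : Fin 2) (1 : ℝ)))ᗮ.reflection with hR
  have hR0 : ∀ η : E 2, (R η) 0 = -(η 0) ∧ (R η) 1 = η 1 := by
    intro η
    have hRe : R (EuclideanSpace.single (0 : Fin 2) (1 : ℝ)) =
        -(EuclideanSpace.single (0 : Fin 2) (1 : ℝ)) :=
      Submodule.reflection_orthogonalComplement_singleton_eq_neg _
    have hRf : R (EuclideanSpace.single (1 : Fin 2) (1 : ℝ)) =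
        (EuclideanSpace.single (1 : Fin 2) (1 : ℝ)) := by
      apply Submodule.reflection_mem_subspace_eq_self
      rw [Submodule.mem_orthogonal_singleton_iff_inner_right]
      rw [inner_two]
      simp
    have hη : η = η 0 • EuclideanSpace.single (0 : Fin 2) (1 : ℝ) +
        η 1 • EuclideanSpace.single (1 : Fin 2) (1 : ℝ) := by
      ext i
      fin_cases i <;> simp
    have h1 : R η = η 0 • -(EuclideanSpace.single (0 : Fin 2) (1 : ℝ)) +
        η 1 • EuclideanSpace.single (1 : Fin 2) (1 : ℝ) := by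
      conv_lhs => rw [hη]
      rw [map_add, map_smul, map_smul, hRe, hRf]
    rw [h1]
    constructor <;> simp
  have hΦR : ∀ η, Φ (R η) = -Φ η := by
    intro η
    simp only [hΦ]
    have hemb : MeasurableEmbedding (LinearIsometryEquiv.neg ℝ (E := E 2)) :=
      (LinearIsometryEquiv.neg ℝ (E := E 2)).toHomeomorph.measurableEmbedding
    have e := (sg_inv (LinearIsometryEquiv.neg ℝ (E := E 2))).integral_comp hemb
      (fun u => h u * ee ((R η) 0 * ⟪x, u⟫ + (R η) 1 * t))
    rw [← e, ← integral_neg]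
    refine integral_congr_ae (Filter.Eventually.of_forall fun u => ?_)
    simp only [LinearIsometryEquiv.coe_neg]
    rw [hodd, (hR0 η).1, (hR0 η).2, inner_neg_right]
    rw [show -η 0 * -(⟪x, u⟫ : ℝ) = η 0 * ⟪x, u⟫ by ring]
    ring
  have hint : ∀ a : E 2 → ℝ, Measurable a → (∀ η, |a η| ≤ |η 0|) →
      Integrable (fun η => ((a η : ℝ) : ℂ) * Φ η) (sg 2) := by
    intro a ha hab
    refine Integrable.of_bound (ha.complex_ofReal.mul mΦ).aestronglyMeasurable
      (1 * (sg 2).real univ) ?_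
    filter_upwards [sg_ae 2] with η hη
    rw [norm_mul, Complex.norm_real]
    refine mul_le_mul ?_ (bΦ η) (norm_nonneg _) zero_le_one
    refine (hab η).trans ?_
    have h1 := norm_two η
    rw [hη] at h1
    rw [← sq_le_one_iff_abs_le_one]
    nlinarith [sq_nonneg (η 1)]
  have s2 : ∫ η : E 2, ((max (η 0) 0 : ℝ) : ℂ) * Φ η ∂(sg 2) =
      ∫ η : E 2, ((-max (-(η 0)) 0 : ℝ) : ℂ) * Φ η ∂(sg 2) := by
    have hemb : MeasurableEmbedding R := R.toHomeomorph.measurableEmbedding
    have e := (sg_inv R).integral_comp hemb (fun η => ((max (η 0) 0 : ℝ) : ℂ) * Φ η)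
    rw [← e]
    refine integral_congr_ae (Filter.Eventually.of_forall fun η => ?_)
    simp only
    rw [hΦR, (hR0 η).1]
    push_cast
    ring
  have s3 : ∫ η : E 2, ((max (η 0) 0 : ℝ) : ℂ) * Φ η ∂(sg 2) =
      (1 / 2 : ℂ) * ∫ η : E 2, ((η 0 : ℝ) : ℂ) * Φ η ∂(sg 2) := by
    have e : ∫ η : E 2, ((η 0 : ℝ) : ℂ) * Φ η ∂(sg 2) =
        ∫ η : E 2, ((max (η 0) 0 : ℝ) : ℂ) * Φ η ∂(sg 2) +
        ∫ η : E 2, ((-max (-(η 0)) 0 : ℝ) : ℂ) * Φ η ∂(sg 2) := by
      rw [← integral_add]
      · refine integral_congr_ae (Filter.Eventually.of_forall fun η => ?_)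
        simp only
        rw [← add_mul, ← Complex.ofReal_add]
        congr 2
        rcases le_total (η 0) 0 with h0 | h0
        · rw [max_eq_right h0, max_eq_left (by linarith)]
          ring
        · rw [max_eq_left h0, max_eq_right (by linarith)]
          ring
      · refine hint (fun η => max (η 0) 0) (c0.max measurable_const) fun η => ?_
        rcases le_total (η 0) 0 with h0 | h0
        · rw [max_eq_right h0, abs_zero]; exact abs_nonneg _
        · rw [max_eq_left h0]
      · refine hint (fun η => -max (-(η 0)) 0) (c0.neg.max measurable_const).neg fun η => ?_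
        rcases le_total (η 0) 0 with h0 | h0
        · rw [max_eq_left (by linarith), neg_neg]
        · rw [max_eq_right (by linarith), neg_zero, abs_zero]; exact abs_nonneg _
    rw [e, ← s2]
    ring
  rw [s1, s3]
  congr 1
  -- Fubini
  have s4 : ∀ η : E 2, ((η 0 : ℝ) : ℂ) * Φ η =
      ∫ u, ((η 0 : ℝ) : ℂ) * (h u * ee (η 0 * ⟪x, u⟫ + η 1 * t)) ∂(sg 2) := by
    intro η
    simp only [hΦ]
    rw [integral_const_mul]
  simp only [s4]
  rw [integral_integral_swap]
  · refine integral_congr_ae (Filter.Eventually.of_forall fun u => ?_)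
    simp only
    rw [← integral_const_mul]
    refine integral_congr_ae (Filter.Eventually.of_forall fun η => ?_)
    simp only
    ring
  · refine Integrable.of_bound (C := 1) ?_ ?_
    · exact ((c0.comp measurable_fst).complex_ofReal.mul mF).aestronglyMeasurable
    · have ha : ∀ᵐ p : E 2 × E 2 ∂((sg 2).prod (sg 2)), ‖p.1‖ = 1 :=
        Measure.quasiMeasurePreserving_fst.ae (sg_ae 2)
      filter_upwards [ha] with p hp
      simp only [Function.uncurry]
      rw [norm_mul, norm_mul, norm_ee, mul_one, Complex.norm_real]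
      have h1 := norm_two p.1
      rw [hp] at h1
      have h2 : ‖p.1 0‖ ≤ 1 := by
        rw [Real.norm_eq_abs, ← sq_le_one_iff_abs_le_one]
        nlinarith [sq_nonneg (p.1 1)]
      calc ‖p.1 0‖ * ‖h p.2‖ ≤ 1 * 1 := mul_le_mul h2 (hb _) (norm_nonneg _) zero_le_one
        _ = 1 := one_mul _

end Pool.Agent.Run7.h58.MV
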