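import Mathlib
import Pool.Agent.Run7.h58.MV.Hform
set_option autoImplicit false

/-! Parseval's formula in the form used for the expansion in the height. -/

namespace Pool.Agent.Run7.h58.MV

open MeasureTheory Set Complex Filter Topology
open scoped ENNReal NNReal RealInnerProductSpace ComplexConjugate

theorem parseval {T : ℝ} [hT : Fact (0 < T)] (f e : AddCircle T → ℂ)
    (hf : MemLp f 2 (@AddCircle.haarAddCircle T hT))
    (he : MemLp e 2 (@AddCircle.haarAddCircle T hT)) :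
    HasSum (fun b : ℤ => fourierCoeff f b * fourierCoeff e (-b))
      (∫ x, f x * e x ∂(@AddCircle.haarAddCircle T hT)) ∧
    ∀ s : Finset ℤ, ‖∑ b ∈ s, fourierCoeff f b * fourierCoeff e (-b)‖ ≤
      (eLpNorm f 2 (@AddCircle.haarAddCircle T hT)).toReal *
      (eLpNorm e 2 (@AddCircle.haarAddCircle T hT)).toReal := by
  set fc : AddCircle T → ℂ := fun x => conj (f x) with hfc
  have hfcm : MemLp fc 2 (@AddCircle.haarAddCircle T hT) := hf.star
  set X := hfcm.toLp with hX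
  set Y := he.toLp with hY
  have k1 : ∀ i : ℤ, inner ℂ (fourierBasis (T := T) i) Y = fourierCoeff e i := by
    intro i
    rw [← fourierBasis.repr_apply_apply, fourierBasis_repr]
    exact congrFun (fourierCoeff_congr_ae he.coeFn_toLp) i
  have k2 : ∀ i : ℤ, inner ℂ X (fourierBasis (T := T) i) = fourierCoeff f (-i) := by
    intro i
    rw [← inner_conj_symm, ← fourierBasis.repr_apply_apply, fourierBasis_repr]
    have h1 : fourierCoeff X i = fourierCoeff fc i :=
      congrFun (fourierCoeff_congr_ae hfcm.coeFn_toLp) i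
    rw [h1]
    unfold fourierCoeff
    rw [← integral_conj]
    refine integral_congr_ae (Eventually.of_forall fun x => ?_)
    simp only [hfc, smul_eq_mul, map_mul, Complex.conj_conj, neg_neg]
    rw [← fourier_neg, neg_neg]
  have k3 : inner ℂ X Y = ∫ x, f x * e x ∂(@AddCircle.haarAddCircle T hT) := by
    rw [MeasureTheory.L2.inner_def]
    refine integral_congr_ae ?_
    filter_upwards [hfcm.coeFn_toLp, he.coeFn_toLp] with x hx1 hx2
    rw [hx1, hx2, RCLike.inner_apply']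
    simp only [hfc, Complex.conj_conj]
  have s1 := fourierBasis.hasSum_inner_mul_inner X Y
  simp only [k1, k2, k3] at s1
  have s2 : HasSum (fun b : ℤ => fourierCoeff f b * fourierCoeff e (-b))
      (∫ x, f x * e x ∂(@AddCircle.haarAddCircle T hT)) := by
    rw [← (Equiv.neg ℤ).hasSum_iff]
    refine s1.congr_fun ?_
    intro i
    simp
  refine ⟨s2, fun s => ?_⟩
  have hB := (fourierBasis (T := T)).orthonormal
  have b1 : ∑ b ∈ s, ‖fourierCoeff f b‖ ^ 2 ≤ ‖X‖ ^ 2 := by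
    have h1 := hB.sum_inner_products_le (s := s.map (Equiv.neg ℤ).toEmbedding) X
    rw [Finset.sum_map] at h1
    refine le_trans (le_of_eq ?_) h1
    refine Finset.sum_congr rfl fun b _ => ?_
    have h2 := k2 (-b)
    rw [neg_neg] at h2
    rw [← h2, ← norm_inner_symm]
    rfl
  have b2 : ∑ b ∈ s, ‖fourierCoeff e (-b)‖ ^ 2 ≤ ‖Y‖ ^ 2 := by
    have h1 := hB.sum_inner_products_le (s := s.map (Equiv.neg ℤ).toEmbedding) Y
    rw [Finset.sum_map] at h1
    refine le_trans (le_of_eq ?_) h1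
    refine Finset.sum_congr rfl fun b _ => ?_
    rw [← k1 (-b)]
    rfl
  have nX : ‖X‖ = (eLpNorm f 2 (@AddCircle.haarAddCircle T hT)).toReal := by
    rw [hX, Lp.norm_toLp]
    congr 1
    refine eLpNorm_congr_norm_ae (Eventually.of_forall fun x => ?_)
    simp [hfc]
  have nY : ‖Y‖ = (eLpNorm e 2 (@AddCircle.haarAddCircle T hT)).toReal := by
    rw [hY, Lp.norm_toLp]
  rw [← nX, ← nY]
  calc ‖∑ b ∈ s, fourierCoeff f b * fourierCoeff e (-b)‖
      ≤ ∑ b ∈ s, ‖fourierCoeff f b‖ * ‖fourierCoeff e (-b)‖ := by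
        refine (norm_sum_le _ _).trans (le_of_eq ?_)
        exact Finset.sum_congr rfl fun b _ => norm_mul _ _
    _ ≤ √(∑ b ∈ s, ‖fourierCoeff f b‖ ^ 2) * √(∑ b ∈ s, ‖fourierCoeff e (-b)‖ ^ 2) :=
        Real.sum_mul_le_sqrt_mul_sqrt _ _ _
    _ ≤ √(‖X‖ ^ 2) * √(‖Y‖ ^ 2) := by gcongr
    _ = ‖X‖ * ‖Y‖ := by rw [Real.sqrt_sq (norm_nonneg _), Real.sqrt_sq (norm_nonneg _)]

/-- Fourier coefficient on `(-2, 2]` -/
noncomputable def cF (g : ℝ → ℂ) (b : ℤ) : ℂ :=
  (1 / 4 : ℂ) * ∫ z in Ioc (-2 : ℝ) 2, ee (Real.pi / 2 * b * z) * g z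

theorem fact4 : Fact ((0 : ℝ) < 4) := ⟨by norm_num⟩

theorem coeff_lift (g : ℝ → ℂ) (b : ℤ) :
    haveI := fact4
    fourierCoeff (AddCircle.liftIoc 4 (-2) g) b = cF g b := by
  have := fact4
  rw [fourierCoeff_eq_intervalIntegral _ _ (-2), cF]
  rw [show (-2 : ℝ) + 4 = 2 by norm_num, intervalIntegral.integral_of_le (by norm_num),
    Complex.real_smul]
  congr 1
  · norm_num
  · refine setIntegral_congr_fun measurableSet_Ioc fun z hz => ?_
    simp only [smul_eq_mul]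
    rw [AddCircle.liftIoc_coe_apply (by rw [show (-2 : ℝ) + 4 = 2 by norm_num]; exact hz),
      fourier_coe_apply]
    congr 1
    unfold ee
    congr 1
    push_cast
    ring

theorem int_lift (g : ℝ → ℂ) :
    haveI := fact4
    ∫ x, AddCircle.liftIoc 4 (-2) g x ∂(@AddCircle.haarAddCircle 4 fact4) =
      (1 / 4 : ℂ) * ∫ z in Ioc (-2 : ℝ) 2, g z := by
  have := fact4
  rw [AddCircle.integral_haarAddCircle, AddCircle.integral_liftIoc_eq_intervalIntegral,
    show (-2 : ℝ) + 4 = 2 by norm_num, intervalIntegral.integral_of_le (by norm_num),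
    Complex.real_smul]
  congr 1
  norm_num

theorem lift_le (g : ℝ → ℂ) (M : ℝ) (hM : ∀ z, ‖g z‖ ≤ M) :
    haveI := fact4
    ∀ x : AddCircle (4 : ℝ), ‖AddCircle.liftIoc 4 (-2) g x‖ ≤ M := by
  have := fact4
  intro x
  exact hM _

theorem lift_memLp (g : ℝ → ℂ) (hg : Measurable g) (M : ℝ) (hM : ∀ z, ‖g z‖ ≤ M) :
    haveI := fact4
    MemLp (AddCircle.liftIoc 4 (-2) g) 2 (@AddCircle.haarAddCircle 4 fact4) ∧
    (eLpNorm (AddCircle.liftIoc 4 (-2) g) 2 (@AddCircle.haarAddCircle 4 fact4)).toReal ≤ M := by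
  have := fact4
  have hM0 : 0 ≤ M := (norm_nonneg _).trans (hM 0)
  constructor
  · have h1 : MemLp g 2 (volume.restrict (Ioc (-2 : ℝ) (-2 + 4))) := by
      refine MemLp.of_bound hg.aestronglyMeasurable M (Eventually.of_forall hM)
    exact h1.memLp_liftIoc.haarAddCircle
  · have h2 := eLpNorm_le_of_ae_bound (p := 2) (μ := @AddCircle.haarAddCircle 4 fact4)
      (Eventually.of_forall (lift_le g M hM))
    rw [measure_univ, ENNReal.one_rpow, one_mul] at h2
    exact ENNReal.toReal_le_of_le_ofReal hM0 h2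

theorem lift_mul (f e : ℝ → ℂ) :
    haveI := fact4
    ∀ x : AddCircle (4 : ℝ), AddCircle.liftIoc 4 (-2) f x * AddCircle.liftIoc 4 (-2) e x =
      AddCircle.liftIoc 4 (-2) (fun z => f z * e z) x := by
  have := fact4
  intro x
  rfl

theorem fs (f e : ℝ → ℂ) (hf : Measurable f) (he : Measurable e) (M M' : ℝ)
    (hM : ∀ z, ‖f z‖ ≤ M) (hM' : ∀ z, ‖e z‖ ≤ M') :
    Tendsto (fun N : ℕ => ∑ b ∈ Finset.Icc (-(N : ℤ)) N, cF f b *
      ∫ z in Ioc (-2 : ℝ) 2, ee (-(Real.pi / 2 * b * z)) * e z) atTop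
      (𝓝 (∫ z in Ioc (-2 : ℝ) 2, f z * e z)) ∧
    ∀ N : ℕ, ‖∑ b ∈ Finset.Icc (-(N : ℤ)) N, cF f b *
      ∫ z in Ioc (-2 : ℝ) 2, ee (-(Real.pi / 2 * b * z)) * e z‖ ≤ 4 * (M * M') := by
  have := fact4
  obtain ⟨h1, h2⟩ := parseval (AddCircle.liftIoc 4 (-2) f) (AddCircle.liftIoc 4 (-2) e)
    (lift_memLp f hf M hM).1 (lift_memLp e he M' hM').1
  simp only [coeff_lift, lift_mul] at h1 h2
  rw [int_lift] at h1
  have e1 : ∀ b : ℤ, cF f b * ∫ z in Ioc (-2 : ℝ) 2, ee (-(Real.pi / 2 * b * z)) * e z =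
      4 * (cF f b * cF e (-b)) := by
    intro b
    have : cF e (-b) = (1 / 4 : ℂ) *
        ∫ z in Ioc (-2 : ℝ) 2, ee (-(Real.pi / 2 * b * z)) * e z := by
      unfold cF
      congr 1
      refine setIntegral_congr_fun measurableSet_Ioc fun z _ => ?_
      congr 2
      push_cast
      ring
    rw [this]
    ring
  simp only [e1, ← Finset.mul_sum]
  constructor
  · have h3 := (h1.comp (Finset.tendsto_Icc_neg (R := ℤ))).const_mul (4 : ℂ)
    have h4 : (4 : ℂ) * ((1 / 4 : ℂ) * ∫ z in Ioc (-2 : ℝ) 2, f z * e z) =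
        ∫ z in Ioc (-2 : ℝ) 2, f z * e z := by ring
    rw [h4] at h3
    exact h3
  · intro N
    rw [norm_mul]
    have h5 : ‖(4 : ℂ)‖ = 4 := by norm_num
    rw [h5]
    refine mul_le_mul_of_nonneg_left ((h2 _).trans ?_) (by norm_num)
    exact mul_le_mul (lift_memLp f hf M hM).2 (lift_memLp e he M' hM').2
      ENNReal.toReal_nonneg ((norm_nonneg _).trans (hM 0))

end Pool.Agent.Run7.h58.MV
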