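import Mathlib
import Pool.Agent.Run7.h58.MV.Hform
set_option autoImplicit false

/-! The Fourier transform of an odd function of the longitude as a double circle extension. -/

namespace Pool.Agent.Run7.h58.MV

open MeasureTheory Set Complex
open scoped ENNReal NNReal RealInnerProductSpace
open Pool.Agent.H789R2.FR (E sg T sg_finite sg_ae sg_inv polar)
open Pool.Agent.H438R2.PD (P1 P1_J P1_meas T_meas')

/-- truncated coordinate -/
noncomputable def al (l : Fin 2) : E 2 → ℂ :=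
  (Metric.closedBall (0 : E 2) 1).indicator fun η => ((η l : ℝ) : ℂ)

/-- the double extension -/
noncomputable def Dd (l : Fin 2) (k : E 2 → ℂ) (B : ℝ) (X : E 2) : ℂ :=
  T (fun η => al l η * T k (B • η)) X

/-- the density on the doubled circle -/
noncomputable def kk (j : Fin 2) (h : E 2 → ℂ) : E 2 → ℂ :=
  (Metric.closedBall (0 : E 2) 1).indicator fun ζ => h (root ζ) * ((root ζ j : ℝ) : ℂ)

theorem coord_le (u : E 2) (hu : ‖u‖ ≤ 1) (j : Fin 2) : |u j| ≤ 1 := by
  have h1 := norm_two u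
  have h2 : ‖u‖ ^ 2 ≤ 1 := pow_le_one₀ (norm_nonneg _) hu
  rw [← sq_le_one_iff_abs_le_one]
  fin_cases j
  · simp only [Fin.zero_eta]
    nlinarith [sq_nonneg (u 1)]
  · simp only [Fin.mk_one]
    nlinarith [sq_nonneg (u 0)]

theorem al_meas (l : Fin 2) : Measurable (al l) := by
  unfold al
  refine Measurable.indicator ?_ Metric.isClosed_closedBall.measurableSet
  exact Measurable.complex_ofReal (by fun_prop)

theorem al_le (l : Fin 2) (η : E 2) : ‖al l η‖ ≤ 1 := by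
  unfold al
  by_cases h : η ∈ Metric.closedBall (0 : E 2) 1
  · rw [indicator_of_mem h, Complex.norm_real]
    exact coord_le η (by simpa using h) l
  · rw [indicator_of_notMem h, norm_zero]
    exact zero_le_one

theorem al_eq (l : Fin 2) (η : E 2) (hη : ‖η‖ = 1) : al l η = ((η l : ℝ) : ℂ) := by
  unfold al
  rw [indicator_of_mem]
  simp [hη]

theorem kk_meas (j : Fin 2) (h : E 2 → ℂ) (hh : Measurable h) : Measurable (kk j h) := by
  unfold kk
  refine Measurable.indicator ?_ Metric.isClosed_closedBall.measurableSet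
  refine (hh.comp root_meas).mul ?_
  have : Measurable fun ζ : E 2 => (root ζ) j := by
    have h1 : Measurable fun v : E 2 => v j := by fun_prop
    exact h1.comp root_meas
  exact this.complex_ofReal

theorem kk_le (j : Fin 2) (h : E 2 → ℂ) (hb : ∀ u, ‖h u‖ ≤ 1) (ζ : E 2) : ‖kk j h ζ‖ ≤ 1 := by
  unfold kk
  by_cases hm : ζ ∈ Metric.closedBall (0 : E 2) 1
  · rw [indicator_of_mem hm, norm_mul, Complex.norm_real]
    have h1 : |ζ 0| ≤ 1 := coord_le ζ (by simpa using hm) 0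
    rw [abs_le] at h1
    have h2 : ‖root ζ j‖ ≤ 1 := by
      rw [Real.norm_eq_abs]
      fin_cases j
      · simp only [Fin.zero_eta]
        rw [root_zero, abs_of_nonneg (Real.sqrt_nonneg _), Real.sqrt_le_one]
        linarith
      · simp only [Fin.mk_one]
        rw [root_one, abs_mul]
        have h3 : |sg1 (ζ 1)| = 1 := by
          unfold sg1
          split_ifs <;> simp
        rw [h3, one_mul, abs_of_nonneg (Real.sqrt_nonneg _), Real.sqrt_le_one]
        linarith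
    calc ‖h (root ζ)‖ * ‖root ζ j‖ ≤ 1 * 1 :=
          mul_le_mul (hb _) h2 (norm_nonneg _) zero_le_one
      _ = 1 := one_mul _
  · rw [indicator_of_notMem hm, norm_zero]
    exact zero_le_one

theorem kk_sq (j : Fin 2) (h : E 2 → ℂ) (hodd : ∀ u, h (-u) = -h u) (u : E 2) (hu : ‖u‖ = 1) :
    kk j h (sq u) = h u * ((u j : ℝ) : ℂ) := by
  unfold kk
  rw [indicator_of_mem (by simp [norm_sq_eq, hu])]
  rcases root_sq u hu with e | e
  · rw [e]
  · rw [e, hodd]
    simp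

theorem T_kk (j : Fin 2) (h : E 2 → ℂ) (hh : Measurable h)
    (hodd : ∀ u, h (-u) = -h u) (y : E 2) :
    T (kk j h) y = ∫ u, h u * ((u j : ℝ) : ℂ) * ee ⟪y, sq u⟫ ∂(sg 2) := by
  unfold T
  have mk := kk_meas j h hh
  have m1 : Measurable fun w : E 2 => Complex.exp (-((⟪y, w⟫ : ℝ) : ℂ) * I) * kk j h w := by
    have : Measurable fun w : E 2 => (⟪y, w⟫ : ℝ) := by fun_prop
    exact (Complex.measurable_exp.comp
      ((Complex.measurable_ofReal.comp this).neg.mul_const I)).mul mk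
  rw [← sq_mp.map_eq, integral_map sq_meas.aemeasurable (by rw [sq_mp.map_eq]; exact m1.aestronglyMeasurable)]
  rw [sq_mp.map_eq]
  refine integral_congr_ae ?_
  filter_upwards [sg_ae 2] with u hu
  rw [kk_sq j h hodd u hu]
  unfold ee
  ring

/-- the double extension as an integral over the torus -/
theorem Dd_eq (l j : Fin 2) (h : E 2 → ℂ) (hh : Measurable h) (hb : ∀ u, ‖h u‖ ≤ 1)
    (hodd : ∀ u, h (-u) = -h u) (B : ℝ) (X : E 2) :
    Dd l (kk j h) B X = ∫ p : E 2 × E 2, h p.1 * (((p.1 j : ℝ) : ℂ) * ((p.2 l : ℝ) : ℂ) *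
      ee ⟪X + B • sq p.1, p.2⟫) ∂((sg 2).prod (sg 2)) := by
  have hfin := sg_finite 2
  have cj : Measurable fun η : E 2 => η j := by fun_prop
  have cl : Measurable fun η : E 2 => η l := by fun_prop
  have mi : Measurable fun p : E 2 × E 2 => (⟪X + B • sq p.1, p.2⟫ : ℝ) :=
    (measurable_const.add ((sq_meas.comp measurable_fst).const_smul B)).inner measurable_snd
  have mF : Measurable fun p : E 2 × E 2 => h p.1 * (((p.1 j : ℝ) : ℂ) * ((p.2 l : ℝ) : ℂ) *
      ee ⟪X + B • sq p.1, p.2⟫) :=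
    (hh.comp measurable_fst).mul ((((cj.comp measurable_fst).complex_ofReal).mul
      (cl.comp measurable_snd).complex_ofReal).mul (ee_cont.measurable.comp mi))
  have hint : Integrable (fun p : E 2 × E 2 => h p.1 * (((p.1 j : ℝ) : ℂ) * ((p.2 l : ℝ) : ℂ) *
      ee ⟪X + B • sq p.1, p.2⟫)) ((sg 2).prod (sg 2)) := by
    refine Integrable.of_bound mF.aestronglyMeasurable 1 ?_
    have h1 : ∀ᵐ p : E 2 × E 2 ∂((sg 2).prod (sg 2)), ‖p.1‖ = 1 :=
      Measure.quasiMeasurePreserving_fst.ae (sg_ae 2)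
    have h2 : ∀ᵐ p : E 2 × E 2 ∂((sg 2).prod (sg 2)), ‖p.2‖ = 1 :=
      Measure.quasiMeasurePreserving_snd.ae (sg_ae 2)
    filter_upwards [h1, h2] with p hp1 hp2
    rw [norm_mul, norm_mul, norm_mul, norm_ee, mul_one, Complex.norm_real, Complex.norm_real]
    have a1 := coord_le p.1 hp1.le j
    have a2 := coord_le p.2 hp2.le l
    calc ‖h p.1‖ * (‖p.1 j‖ * ‖p.2 l‖) ≤ 1 * (1 * 1) := by
          refine mul_le_mul (hb _) (mul_le_mul a1 a2 (norm_nonneg _) zero_le_one) (by positivity)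
            zero_le_one
      _ = 1 := by norm_num
  rw [integral_prod_symm _ hint]
  unfold Dd
  rw [T]
  refine integral_congr_ae ?_
  filter_upwards [sg_ae 2] with η hη
  rw [al_eq l η hη, T_kk j h hh hodd, ← integral_const_mul, ← integral_const_mul]
  refine integral_congr_ae (Filter.Eventually.of_forall fun u => ?_)
  simp only
  rw [inner_add_left, ee_add, real_inner_smul_left, real_inner_smul_left,
    real_inner_comm (sq u) η]
  unfold ee
  ring

theorem four {α : Type*} [MeasurableSpace α] (μ : Measure α) (f1 f2 f3 f4 : α → ℂ)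
    (c1 c2 c3 c4 : ℂ) (h1 : Integrable f1 μ) (h2 : Integrable f2 μ) (h3 : Integrable f3 μ)
    (h4 : Integrable f4 μ) :
    c1 * ∫ a, f1 a ∂μ - c2 * ∫ a, f2 a ∂μ + c3 * ∫ a, f3 a ∂μ + c4 * ∫ a, f4 a ∂μ =
      ∫ a, (c1 * f1 a - c2 * f2 a + c3 * f3 a + c4 * f4 a) ∂μ := by
  have e1 : ∫ a, (c1 * f1 a - c2 * f2 a + c3 * f3 a + c4 * f4 a) ∂μ =
      ∫ a, (c1 * f1 a - c2 * f2 a + c3 * f3 a) ∂μ + ∫ a, c4 * f4 a ∂μ :=
    integral_add (((h1.const_mul c1).sub (h2.const_mul c2)).add (h3.const_mul c3))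
      (h4.const_mul c4)
  have e2 : ∫ a, (c1 * f1 a - c2 * f2 a + c3 * f3 a) ∂μ =
      ∫ a, (c1 * f1 a - c2 * f2 a) ∂μ + ∫ a, c3 * f3 a ∂μ :=
    integral_add ((h1.const_mul c1).sub (h2.const_mul c2)) (h3.const_mul c3)
  have e3 : ∫ a, (c1 * f1 a - c2 * f2 a) ∂μ = ∫ a, c1 * f1 a ∂μ - ∫ a, c2 * f2 a ∂μ :=
    integral_sub (h1.const_mul c1) (h2.const_mul c2)
  rw [e1, e2, e3, integral_const_mul, integral_const_mul, integral_const_mul, integral_const_mul]

/-- second formula -/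
theorem T_lon (h : E 2 → ℂ) (hh : Measurable h) (hb : ∀ u, ‖h u‖ ≤ 1)
    (hodd : ∀ u, h (-u) = -h u) (x : E 2) (t B N : ℝ) (hB : 0 < B) (hN0 : 0 < N)
    (hN : N ^ 2 = ‖x‖ ^ 2 + t ^ 2) (hBN : 2 * B = N - t) :
    T (lon h) (jj x t) = (1 / 2 : ℂ) * ((N⁻¹ : ℝ) : ℂ) *
      (((x 0 : ℝ) : ℂ) * Dd 0 (kk 0 h) B ((4 * B)⁻¹ • sq x)
      - ((x 1 : ℝ) : ℂ) * Dd 0 (kk 1 h) B ((4 * B)⁻¹ • sq x)
      + ((x 1 : ℝ) : ℂ) * Dd 1 (kk 0 h) B ((4 * B)⁻¹ • sq x)
      + ((x 0 : ℝ) : ℂ) * Dd 1 (kk 1 h) B ((4 * B)⁻¹ • sq x)) := by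
  have hfin := sg_finite 2
  set X : E 2 := (4 * B)⁻¹ • sq x with hX
  rw [T_lon_odd h hh hb hodd x t, mul_assoc]
  congr 1
  -- change of the inner integral
  have s1 : ∫ u, h u * ∫ η : E 2, ((η 0 : ℝ) : ℂ) * ee (η 0 * ⟪x, u⟫ + η 1 * t) ∂(sg 2) ∂(sg 2) =
      ∫ u, h u * ∫ η : E 2, ((⟪N⁻¹ • cm x u, η⟫ : ℝ) : ℂ) * ee ⟪X + B • sq u, η⟫ ∂(sg 2)
        ∂(sg 2) := by
    refine integral_congr_ae ?_
    filter_upwards [sg_ae 2] with u hu
    congr 1
    have hlen := len x u t B N hu hB hN hBN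
    have hlin := lin x u t B N hu hB hN0 hN hBN
    set Y₀ : E 2 := !₂[(⟪x, u⟫ : ℝ), t] with hY₀
    set c₀ : E 2 := !₂[(1 : ℝ), 0] with hc₀
    have hY0 : Y₀ 0 = ⟪x, u⟫ := rfl
    have hY1 : Y₀ 1 = t := rfl
    have hc0 : c₀ 0 = 1 := rfl
    have hc1 : c₀ 1 = 0 := rfl
    have hk := Kid c₀ Y₀ (N⁻¹ • cm x u) (X + B • sq u) ?_ ?_
    · have e1 : ∀ η : E 2, ((η 0 : ℝ) : ℂ) * ee (η 0 * ⟪x, u⟫ + η 1 * t) =
          ((⟪c₀, η⟫ : ℝ) : ℂ) * Complex.exp (-((⟪Y₀, η⟫ : ℝ) : ℂ) * I) := by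
        intro η
        rw [inner_two c₀, inner_two Y₀, hY0, hY1, hc0, hc1]
        unfold ee
        congr 2
        · push_cast; ring
        · push_cast; ring
      simp only [e1]
      rw [hk]
      rfl
    · have h1 : ‖Y₀‖ ^ 2 = ‖X + B • sq u‖ ^ 2 := by
        rw [hlen, norm_two, hY0, hY1]
      exact (sq_eq_sq₀ (norm_nonneg _) (norm_nonneg _)).1 h1
    · rw [hlin, inner_two c₀, hY0, hY1, hc0, hc1]
      ring
  rw [s1]
  -- to the torus
  have s2 : ∫ u, h u * ∫ η : E 2, ((⟪N⁻¹ • cm x u, η⟫ : ℝ) : ℂ) * ee ⟪X + B • sq u, η⟫ ∂(sg 2)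
        ∂(sg 2) = ∫ p : E 2 × E 2, h p.1 * (((⟪N⁻¹ • cm x p.1, p.2⟫ : ℝ) : ℂ) *
        ee ⟪X + B • sq p.1, p.2⟫) ∂((sg 2).prod (sg 2)) := by
    rw [integral_prod]
    · refine integral_congr_ae (Filter.Eventually.of_forall fun u => ?_)
      simp only
      rw [integral_const_mul]
    · refine Integrable.of_bound (C := ‖N⁻¹‖ * ‖x‖ * 2) ?_ ?_
      · refine Measurable.aestronglyMeasurable ?_
        have m1 : Measurable fun p : E 2 × E 2 => (⟪N⁻¹ • cm x p.1, p.2⟫ : ℝ) := by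
          refine Measurable.inner ?_ measurable_snd
          have m0 : Measurable fun p : E 2 × E 2 => cm x p.1 :=
            cm_meas.comp (measurable_const.prodMk measurable_fst)
          exact m0.const_smul N⁻¹
        have m2 : Measurable fun p : E 2 × E 2 => (⟪X + B • sq p.1, p.2⟫ : ℝ) :=
          (measurable_const.add ((sq_meas.comp measurable_fst).const_smul B)).inner measurable_snd
        exact (hh.comp measurable_fst).mul (m1.complex_ofReal.mul (ee_cont.measurable.comp m2))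
      · have h1 : ∀ᵐ p : E 2 × E 2 ∂((sg 2).prod (sg 2)), ‖p.1‖ = 1 :=
          Measure.quasiMeasurePreserving_fst.ae (sg_ae 2)
        have h2 : ∀ᵐ p : E 2 × E 2 ∂((sg 2).prod (sg 2)), ‖p.2‖ = 1 :=
          Measure.quasiMeasurePreserving_snd.ae (sg_ae 2)
        filter_upwards [h1, h2] with p hp1 hp2
        rw [norm_mul, norm_mul, norm_ee, mul_one, Complex.norm_real]
        have h3 : ‖cm x p.1‖ ^ 2 = ‖x‖ ^ 2 * ‖p.1‖ ^ 2 := by
          rw [norm_two, norm_two, norm_two, cm_zero, cm_one]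
          ring
        rw [hp1] at h3
        have h4 : ‖cm x p.1‖ ≤ ‖x‖ := by
          apply le_of_eq
          apply (sq_eq_sq₀ (norm_nonneg _) (norm_nonneg _)).1
          rw [h3]; ring
        calc ‖h p.1‖ * ‖(⟪N⁻¹ • cm x p.1, p.2⟫ : ℝ)‖
            ≤ 1 * (‖N⁻¹‖ * ‖x‖) := by
              refine mul_le_mul (hb _) ?_ (norm_nonneg _) zero_le_one
              refine (norm_inner_le_norm _ _).trans ?_
              rw [hp2, mul_one, norm_smul]
              exact mul_le_mul_of_nonneg_left h4 (norm_nonneg _)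
          _ ≤ _ := by
              have : 0 ≤ ‖N⁻¹‖ * ‖x‖ := by positivity
              linarith
  rw [s2, Dd_eq 0 0 h hh hb hodd, Dd_eq 0 1 h hh hb hodd, Dd_eq 1 0 h hh hb hodd,
    Dd_eq 1 1 h hh hb hodd]
  have hint : ∀ l j : Fin 2, Integrable (fun p : E 2 × E 2 => h p.1 *
      (((p.1 j : ℝ) : ℂ) * ((p.2 l : ℝ) : ℂ) * ee ⟪X + B • sq p.1, p.2⟫))
      ((sg 2).prod (sg 2)) := by
    intro l j
    have cj : Measurable fun η : E 2 => η j := by fun_prop
    have cl : Measurable fun η : E 2 => η l := by fun_prop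
    have mi : Measurable fun p : E 2 × E 2 => (⟪X + B • sq p.1, p.2⟫ : ℝ) :=
      (measurable_const.add ((sq_meas.comp measurable_fst).const_smul B)).inner measurable_snd
    refine Integrable.of_bound (C := 1) ?_ ?_
    · exact ((hh.comp measurable_fst).mul ((((cj.comp measurable_fst).complex_ofReal).mul
        (cl.comp measurable_snd).complex_ofReal).mul
          (ee_cont.measurable.comp mi))).aestronglyMeasurable
    · have h1 : ∀ᵐ p : E 2 × E 2 ∂((sg 2).prod (sg 2)), ‖p.1‖ = 1 :=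
        Measure.quasiMeasurePreserving_fst.ae (sg_ae 2)
      have h2 : ∀ᵐ p : E 2 × E 2 ∂((sg 2).prod (sg 2)), ‖p.2‖ = 1 :=
        Measure.quasiMeasurePreserving_snd.ae (sg_ae 2)
      filter_upwards [h1, h2] with p hp1 hp2
      rw [norm_mul, norm_mul, norm_mul, norm_ee, mul_one, Complex.norm_real, Complex.norm_real]
      have a1 := coord_le p.1 hp1.le j
      have a2 := coord_le p.2 hp2.le l
      calc ‖h p.1‖ * (‖p.1 j‖ * ‖p.2 l‖) ≤ 1 * (1 * 1) := by
            refine mul_le_mul (hb _) (mul_le_mul a1 a2 (norm_nonneg _) zero_le_one) (by positivity)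
              zero_le_one
        _ = 1 := by norm_num
  rw [four _ _ _ _ _ _ _ _ _ (hint 0 0) (hint 0 1) (hint 1 0) (hint 1 1), ← integral_const_mul]
  refine integral_congr_ae (Filter.Eventually.of_forall fun p => ?_)
  simp only
  rw [inner_two (N⁻¹ • cm x p.1) p.2]
  simp only [PiLp.smul_apply, smul_eq_mul, cm_zero, cm_one]
  push_cast
  ring

end Pool.Agent.Run7.h58.MV
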