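import Mathlib
import Pool.Agent.TH335.RF.P9
import Pool.Agent.Run7.h58.MV.Hform
set_option autoImplicit false

/-! Parabolic coordinates in space. -/

namespace Pool.Agent.Run7.h58.MV

open MeasureTheory Set Complex
open scoped ENNReal NNReal RealInnerProductSpace
open Pool.Agent.H789R2.FR (E sg T sg_finite sg_ae sg_inv polar)
open Pool.Agent.H438R2.BR (Q J J_mp J_inner)
open Pool.Agent.H438R2.BR.T10 (e0 e0_norm sg_one)
open Pool.Agent.TH335.RF (line_mp)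

theorem space_lint (f : E 3 → ℝ≥0∞) (hf : Measurable f) :
    ∫⁻ ξ, f ξ = ∫⁻ x : E 2, ∫⁻ t : ℝ, f (jj x t) := by
  have h1 := (J_mp 2 1).lintegral_comp hf
  have h2 : ∫⁻ p : E 2 × E 1, f (J p.1 p.2) = ∫⁻ ξ, f ξ := h1
  rw [← h2]
  have hm : Measurable fun p : E 2 × E 1 => f (J p.1 p.2) := hf.comp (J_mp 2 1).measurable
  have h3 : ∫⁻ p : E 2 × E 1, f (J p.1 p.2) = ∫⁻ x : E 2, ∫⁻ y : E 1, f (J x y) := by
    have h3 := lintegral_prod (μ := (volume : Measure (E 2))) (ν := (volume : Measure (E 1)))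
      (fun p : E 2 × E 1 => f (J p.1 p.2)) hm.aemeasurable
    exact h3
  rw [h3]
  refine lintegral_congr fun x => ?_
  have hm2 : Measurable fun y : E 1 => f (J x y) := hm.comp measurable_prodMk_left
  rw [← line_mp.lintegral_comp hm2]
  rfl

theorem plane_scale (c : ℝ) (hc : 0 < c) (g : E 2 → ℝ≥0∞) (hg : Measurable g) :
    ∫⁻ x, g x = ENNReal.ofReal (c ^ 2) * ∫⁻ y, g (c • y) := by
  have h3 := Measure.map_addHaar_smul (volume : Measure (E 2)) hc.ne'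
  have h4 : ∫⁻ x : E 2, g x ∂(Measure.map (c • · : E 2 → E 2) volume) =
      ∫⁻ y : E 2, g (c • y) := lintegral_map hg (measurable_const_smul _)
  rw [← h4, h3, lintegral_smul_measure, smul_eq_mul, finrank_euclideanSpace_fin,
    abs_of_nonneg (by positivity), ← mul_assoc, ← ENNReal.ofReal_mul (by positivity),
    mul_inv_cancel₀ (by positivity), ENNReal.ofReal_one, one_mul]

theorem line_sub (r : ℝ) (hr : 0 < r) (g : ℝ → ℝ≥0∞) :
    ∫⁻ t : ℝ, g t = ∫⁻ B in Ioi (0 : ℝ), ENNReal.ofReal (1 + r ^ 2 / (4 * B ^ 2)) *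
      g (r ^ 2 / (4 * B) - B) := by
  have himg : (fun B : ℝ => r ^ 2 / (4 * B) - B) '' Ioi 0 = univ := by
    rw [eq_univ_iff_forall]
    intro t
    have hs : |t| < Real.sqrt (r ^ 2 + t ^ 2) := by
      rw [← Real.sqrt_sq_eq_abs]
      exact Real.sqrt_lt_sqrt (sq_nonneg _) (by nlinarith)
    have hs2 : Real.sqrt (r ^ 2 + t ^ 2) ^ 2 = r ^ 2 + t ^ 2 := Real.sq_sqrt (by positivity)
    set N : ℝ := Real.sqrt (r ^ 2 + t ^ 2) with hN
    have h1 : t < N := (le_abs_self t).trans_lt hs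
    refine ⟨(N - t) / 2, by simp only [mem_Ioi]; linarith, ?_⟩
    simp only
    have h2 : N - t ≠ 0 := by linarith
    rw [show (4 : ℝ) * ((N - t) / 2) = 2 * (N - t) by ring]
    rw [div_sub' (by positivity : (2 : ℝ) * (N - t) ≠ 0 )]
    rw [div_eq_iff (by positivity : (2 : ℝ) * (N - t) ≠ 0)]
    nlinarith
  have hsub := lintegral_image_eq_lintegral_abs_deriv_mul (s := Ioi (0 : ℝ))
      (f := fun B : ℝ => r ^ 2 / (4 * B) - B) (f' := fun B => -(1 + r ^ 2 / (4 * B ^ 2)))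
      measurableSet_Ioi ?_ ?_ g
  · rw [himg, setLIntegral_univ] at hsub
    rw [hsub]
    refine setLIntegral_congr_fun measurableSet_Ioi fun B hB => ?_
    have hB0 : (0 : ℝ) < B := hB
    rw [abs_neg, abs_of_pos (by positivity)]
  · intro B hB
    have hB0 : (0 : ℝ) < B := hB
    have h1 : HasDerivAt (fun B : ℝ => r ^ 2 / (4 * B)) (-(r ^ 2 / (4 * B ^ 2))) B := by
      have h2 := ((hasDerivAt_id B).const_mul 4).fun_inv (by simpa using hB0.ne')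
      have h3 := h2.const_mul (r ^ 2)
      refine (h3.congr_deriv ?_).congr_of_eventuallyEq ?_
      · simp only [id]
        field_simp
      · refine Filter.Eventually.of_forall fun y => ?_
        simp only [id, div_eq_mul_inv]
    have h4 := h1.sub (hasDerivAt_id B)
    refine (h4.congr_deriv ?_).hasDerivWithinAt
    ring
  · intro a ha b hb hab
    have ha0 : (0 : ℝ) < a := ha
    have hb0 : (0 : ℝ) < b := hb
    simp only at hab
    by_contra hne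
    rcases lt_or_gt_of_ne hne with h | h
    · have : r ^ 2 / (4 * b) ≤ r ^ 2 / (4 * a) := by gcongr
      linarith
    · have : r ^ 2 / (4 * a) ≤ r ^ 2 / (4 * b) := by gcongr
      linarith

theorem par_inner (Φ : E 2 → ℝ≥0∞) (hΦ : Measurable Φ) (B : ℝ) (hB0 : 0 < B) :
    ∫⁻ x : E 2, ENNReal.ofReal (1 + ‖x‖ ^ 2 / (4 * B ^ 2)) * Φ ((4 * B)⁻¹ • sq x) =
      2 * ∫⁻ X : E 2, ENNReal.ofReal (1 + B / ‖X‖) * Φ X := by
  have hsB : 0 < 2 * Real.sqrt B := by positivity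
  have m0 : Measurable fun x : E 2 => ENNReal.ofReal (1 + ‖x‖ ^ 2 / (4 * B ^ 2)) :=
    Measurable.ennreal_ofReal (by fun_prop)
  have m1 : Measurable fun x : E 2 => (4 * B)⁻¹ • sq x := sq_meas.const_smul (4 * B)⁻¹
  have mB : Measurable fun x : E 2 => ENNReal.ofReal (1 + ‖x‖ ^ 2 / (4 * B ^ 2)) *
      Φ ((4 * B)⁻¹ • sq x) := m0.mul (hΦ.comp m1)
  have m2 : Measurable fun X : E 2 => ENNReal.ofReal (1 + B / ‖X‖) :=
    Measurable.ennreal_ofReal (by fun_prop)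
  have mX : Measurable fun X : E 2 => ENNReal.ofReal (1 + B / ‖X‖) * Φ X := m2.mul hΦ
  rw [plane_scale (2 * Real.sqrt B) hsB _ mB, ← plane_sq _ mX]
  have m3 : Measurable fun y : E 2 => ENNReal.ofReal (1 + ‖(2 * Real.sqrt B) • y‖ ^ 2 /
      (4 * B ^ 2)) * Φ ((4 * B)⁻¹ • sq ((2 * Real.sqrt B) • y)) :=
    mB.comp (measurable_const_smul (2 * Real.sqrt B))
  rw [← lintegral_const_mul _ m3]
  have hne : ∀ᵐ x : E 2, x ≠ 0 := by
    rw [ae_iff]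
    simp
  refine lintegral_congr_ae ?_
  filter_upwards [hne] with y hy
  have hy0 : 0 < ‖y‖ := norm_pos_iff.2 hy
  have e1 : (2 * Real.sqrt B) ^ 2 = 4 * B := by
    rw [mul_pow, Real.sq_sqrt hB0.le]; ring
  have e2 : (4 * B)⁻¹ • sq ((2 * Real.sqrt B) • y) = sq y := by
    rw [sq_smul, e1, smul_smul, inv_mul_cancel₀ (by positivity), one_smul]
  have e3 : ‖(2 * Real.sqrt B) • y‖ ^ 2 = 4 * B * ‖y‖ ^ 2 := by
    rw [norm_smul, mul_pow, Real.norm_eq_abs, sq_abs, e1]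
  rw [e2, e3, e1, norm_sq_eq, ← mul_assoc, ← mul_assoc, ← ENNReal.ofReal_mul (by positivity),
    ← ENNReal.ofReal_mul (by positivity)]
  congr 2
  field_simp
  ring

theorem par (f : E 3 → ℝ≥0∞) (hf : Measurable f) (Φ : ℝ → E 2 → ℝ≥0∞)
    (hΦ : Measurable (Function.uncurry Φ))
    (h : ∀ x : E 2, x ≠ 0 → ∀ B : ℝ, 0 < B →
      f (jj x (‖x‖ ^ 2 / (4 * B) - B)) ≤ Φ B ((4 * B)⁻¹ • sq x)) :
    ∫⁻ ξ, f ξ ≤ 2 * ∫⁻ B in Ioi (0 : ℝ), ∫⁻ X : E 2, ENNReal.ofReal (1 + B / ‖X‖) * Φ B X := by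
  rw [space_lint f hf]
  have m0 : Measurable fun p : E 2 × ℝ => ENNReal.ofReal (1 + ‖p.1‖ ^ 2 / (4 * p.2 ^ 2)) :=
    Measurable.ennreal_ofReal (by fun_prop)
  have m1 : Measurable fun p : E 2 × ℝ => (4 * p.2)⁻¹ • sq p.1 :=
    (by fun_prop : Measurable fun p : E 2 × ℝ => (4 * p.2)⁻¹).smul (sq_meas.comp measurable_fst)
  have mG : Measurable fun p : E 2 × ℝ => ENNReal.ofReal (1 + ‖p.1‖ ^ 2 / (4 * p.2 ^ 2)) *
      Φ p.2 ((4 * p.2)⁻¹ • sq p.1) := m0.mul (hΦ.comp (measurable_snd.prodMk m1))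
  have hne : ∀ᵐ x : E 2, x ≠ 0 := by
    rw [ae_iff]
    simp
  have s1 : ∫⁻ x : E 2, ∫⁻ t : ℝ, f (jj x t) ≤ ∫⁻ x : E 2, ∫⁻ B in Ioi (0 : ℝ),
      ENNReal.ofReal (1 + ‖x‖ ^ 2 / (4 * B ^ 2)) * Φ B ((4 * B)⁻¹ • sq x) := by
    refine lintegral_mono_ae ?_
    filter_upwards [hne] with x hx
    rw [line_sub ‖x‖ (norm_pos_iff.2 hx)]
    refine setLIntegral_mono' measurableSet_Ioi fun B hB => ?_
    gcongr
    exact h x hx B hB
  have s2 : ∫⁻ x : E 2, ∫⁻ B in Ioi (0 : ℝ), ENNReal.ofReal (1 + ‖x‖ ^ 2 / (4 * B ^ 2)) *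
      Φ B ((4 * B)⁻¹ • sq x) = ∫⁻ B in Ioi (0 : ℝ), ∫⁻ x : E 2,
      ENNReal.ofReal (1 + ‖x‖ ^ 2 / (4 * B ^ 2)) * Φ B ((4 * B)⁻¹ • sq x) :=
    lintegral_lintegral_swap (f := fun (x : E 2) (B : ℝ) =>
      ENNReal.ofReal (1 + ‖x‖ ^ 2 / (4 * B ^ 2)) * Φ B ((4 * B)⁻¹ • sq x)) mG.aemeasurable
  have s3 : ∫⁻ B in Ioi (0 : ℝ), ∫⁻ x : E 2,
      ENNReal.ofReal (1 + ‖x‖ ^ 2 / (4 * B ^ 2)) * Φ B ((4 * B)⁻¹ • sq x) =
      ∫⁻ B in Ioi (0 : ℝ), 2 * ∫⁻ X : E 2, ENNReal.ofReal (1 + B / ‖X‖) * Φ B X := by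
    refine setLIntegral_congr_fun measurableSet_Ioi fun B hB => ?_
    have mΦB : Measurable (Φ B) := hΦ.comp (measurable_const.prodMk measurable_id)
    exact par_inner (Φ B) mΦB B hB
  have m5 : Measurable fun p : ℝ × E 2 => ENNReal.ofReal (1 + p.1 / ‖p.2‖) :=
    Measurable.ennreal_ofReal (by fun_prop)
  have m6 : Measurable fun B : ℝ => ∫⁻ X : E 2, ENNReal.ofReal (1 + B / ‖X‖) * Φ B X :=
    (m5.mul hΦ).lintegral_prod_right'
  refine s1.trans ?_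
  rw [s2, s3, lintegral_const_mul _ m6]

end Pool.Agent.Run7.h58.MV
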