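import Mathlib
import Pool.Agent.TH335.RF.Q2
import Pool.Agent.Run7.h58.MV.Hform2
import Pool.Agent.Run7.h58.MV.Par
set_option autoImplicit false

/-! Estimates for the double circle extension. -/

namespace Pool.Agent.Run7.h58.MV

open MeasureTheory Set Complex
open scoped ENNReal NNReal RealInnerProductSpace
open Pool.Agent.H789R2.FR (E sg T sg_finite sg_ae sg_inv polar L2_bound)
open Pool.Agent.H438R2.PD (P1 P1_J P1_meas T_meas' T_le)
open Pool.Agent.TH335.RF (geo enorm_sq)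

theorem pw (ε : ℝ) (hε : 0 < ε) (y : ℝ) (hy : 0 ≤ y) : ∃ j : ℕ, (1 + y) ^ (-(1 + ε)) ≤
    Real.exp 1 * 2 ^ (1 + ε) * ((2 : ℝ) ^ j) ^ (-(1 + ε)) * Real.exp (-y ^ 2 / ((2 : ℝ) ^ j) ^ 2) := by
  obtain ⟨n, hn1, hn2⟩ := exists_nat_pow_near (x := 1 + y) (y := 2) (by linarith) (by norm_num)
  refine ⟨n + 1, ?_⟩
  set a : ℝ := (2 : ℝ) ^ (n + 1) with ha
  have ha0 : 0 < a := by positivity
  have ha1 : a ≤ 2 * (1 + y) := by rw [ha, pow_succ]; linarith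
  have hya : y < a := by linarith
  have e1 : Real.exp (-1) ≤ Real.exp (-y ^ 2 / a ^ 2) := by
    apply Real.exp_le_exp.2
    rw [neg_div, neg_le_neg_iff, div_le_one (by positivity)]
    exact pow_le_pow_left₀ hy hya.le 2
  have e2 : (2 * (1 + y)) ^ (-(1 + ε)) ≤ a ^ (-(1 + ε)) :=
    Real.rpow_le_rpow_of_nonpos ha0 ha1 (by linarith)
  have e3 : (2 * (1 + y)) ^ (-(1 + ε)) = 2 ^ (-(1 + ε)) * (1 + y) ^ (-(1 + ε)) :=
    Real.mul_rpow (by norm_num) (by linarith)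
  have e4 : (2 : ℝ) ^ (1 + ε) * 2 ^ (-(1 + ε)) = 1 := by
    rw [← Real.rpow_add (by norm_num), add_neg_cancel, Real.rpow_zero]
  have e5 : Real.exp 1 * Real.exp (-1) = 1 := by
    rw [← Real.exp_add, add_neg_cancel, Real.exp_zero]
  calc (1 + y) ^ (-(1 + ε)) = (Real.exp 1 * Real.exp (-1)) * (2 ^ (1 + ε) * 2 ^ (-(1 + ε))) *
        (1 + y) ^ (-(1 + ε)) := by rw [e4, e5]; ring
    _ = Real.exp 1 * 2 ^ (1 + ε) * (2 * (1 + y)) ^ (-(1 + ε)) * Real.exp (-1) := by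
        rw [e3]; ring
    _ ≤ Real.exp 1 * 2 ^ (1 + ε) * a ^ (-(1 + ε)) * Real.exp (-y ^ 2 / a ^ 2) := by
        gcongr

/-- weighted `L^2` estimate -/
theorem L2w (ε : ℝ) (hε : 0 < ε) : ∃ C : ℝ, 0 < C ∧ ∀ g : E 2 → ℂ, Measurable g →
    (∃ M : ℝ, ∀ x, ‖g x‖ ≤ M) →
    ∫⁻ x : E 2, ENNReal.ofReal ((1 + ‖x‖) ^ (-(1 + ε))) * ‖T g x‖ₑ ^ (2 : ℝ) ≤
      ENNReal.ofReal C * ∫⁻ z, ‖g z‖ₑ ^ (2 : ℝ) ∂(sg 2) := by
  obtain ⟨C, hC, h⟩ := L2_bound 2 le_rfl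
  have hfin := sg_finite 2
  set K : ℝ := Real.exp 1 * 2 ^ (1 + ε) with hK
  have hK0 : 0 < K := by positivity
  set ρ : ℝ := (2 : ℝ) ^ (-ε) with hρ
  have hρ0 : 0 < ρ := by positivity
  have hρ1 : ρ < 1 := Real.rpow_lt_one_of_one_lt_of_neg (by norm_num) (by linarith)
  refine ⟨K * C / (1 - ρ), div_pos (by positivity) (by linarith), fun g hg hM => ?_⟩
  obtain ⟨M, hM⟩ := hM
  set G : ℝ≥0∞ := ∫⁻ z, ‖g z‖ₑ ^ (2 : ℝ) ∂(sg 2) with hG
  have hTm : Measurable (T g) := T_meas' g hg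
  have hTb : ∀ x, ‖T g x‖ ≤ M * (sg 2).real univ := T_le g M hM
  -- one scale
  have stepA : ∀ j : ℕ, ∫⁻ x : E 2, ENNReal.ofReal (Real.exp (-‖x‖ ^ 2 / ((2 : ℝ) ^ j) ^ 2)) *
      ‖T g x‖ₑ ^ (2 : ℝ) ≤ ENNReal.ofReal (C * 2 ^ j) * G := by
    intro j
    have h1 := h g hg ⟨M, hM⟩ (2 ^ j) (by positivity) 0
    simp only [sub_zero] at h1
    have hWi : Integrable (fun x : E 2 => Real.exp (-‖x‖ ^ 2 / ((2 : ℝ) ^ j) ^ 2)) :=
      Pool.Agent.H789R2.FR.L2.integrable_W (n := 2) (l := 2 ^ j) (by positivity)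
    have hi : Integrable (fun x : E 2 => Real.exp (-‖x‖ ^ 2 / ((2 : ℝ) ^ j) ^ 2) *
        ‖T g x‖ ^ 2) := by
      refine Integrable.mono' (hWi.mul_const ((M * (sg 2).real univ) ^ 2)) ?_
        (Filter.Eventually.of_forall fun x => ?_)
      · exact ((by fun_prop : Measurable fun x : E 2 =>
          Real.exp (-‖x‖ ^ 2 / ((2 : ℝ) ^ j) ^ 2)).mul (hTm.norm.pow_const 2)).aestronglyMeasurable
      · rw [Real.norm_eq_abs, abs_of_nonneg (by positivity)]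
        gcongr
        exact hTb x
    have hgi : Integrable (fun z : E 2 => ‖g z‖ ^ 2) (sg 2) := by
      refine Integrable.of_bound (hg.norm.pow_const 2).aestronglyMeasurable (M ^ 2)
        (Filter.Eventually.of_forall fun z => ?_)
      rw [Real.norm_eq_abs, abs_of_nonneg (by positivity)]
      gcongr
      exact hM z
    have h2 : ∫⁻ x : E 2, ENNReal.ofReal (Real.exp (-‖x‖ ^ 2 / ((2 : ℝ) ^ j) ^ 2)) *
        ‖T g x‖ₑ ^ (2 : ℝ) = ENNReal.ofReal (∫ x : E 2,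
          Real.exp (-‖x‖ ^ 2 / ((2 : ℝ) ^ j) ^ 2) * ‖T g x‖ ^ 2) := by
      rw [ofReal_integral_eq_lintegral_ofReal hi (Filter.Eventually.of_forall fun x => by positivity)]
      refine lintegral_congr fun x => ?_
      rw [enorm_sq, ENNReal.ofReal_mul (Real.exp_pos _).le]
    have h3 : G = ENNReal.ofReal (∫ z, ‖g z‖ ^ 2 ∂(sg 2)) := by
      rw [ofReal_integral_eq_lintegral_ofReal hgi (Filter.Eventually.of_forall fun x => by positivity),
        hG]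
      refine lintegral_congr fun x => ?_
      rw [enorm_sq]
    rw [h2, h3, ← ENNReal.ofReal_mul (by positivity)]
    exact ENNReal.ofReal_le_ofReal h1
  -- summation
  have mW : ∀ j : ℕ, Measurable fun x : E 2 => ENNReal.ofReal (K * ((2 : ℝ) ^ j) ^ (-(1 + ε))) *
      (ENNReal.ofReal (Real.exp (-‖x‖ ^ 2 / ((2 : ℝ) ^ j) ^ 2)) * ‖T g x‖ₑ ^ (2 : ℝ)) := by
    intro j
    refine Measurable.const_mul (Measurable.mul (Measurable.ennreal_ofReal (by fun_prop)) ?_) _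
    exact hTm.enorm.pow_const _
  calc ∫⁻ x : E 2, ENNReal.ofReal ((1 + ‖x‖) ^ (-(1 + ε))) * ‖T g x‖ₑ ^ (2 : ℝ)
      ≤ ∫⁻ x : E 2, ∑' j : ℕ, ENNReal.ofReal (K * ((2 : ℝ) ^ j) ^ (-(1 + ε))) *
        (ENNReal.ofReal (Real.exp (-‖x‖ ^ 2 / ((2 : ℝ) ^ j) ^ 2)) * ‖T g x‖ₑ ^ (2 : ℝ)) := by
        refine lintegral_mono fun x => ?_
        obtain ⟨j, hj⟩ := pw ε hε ‖x‖ (norm_nonneg x)
        refine le_trans ?_ (ENNReal.le_tsum j)
        rw [← mul_assoc, ← ENNReal.ofReal_mul (by positivity)]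
        gcongr
    _ = ∑' j : ℕ, ENNReal.ofReal (K * ((2 : ℝ) ^ j) ^ (-(1 + ε))) *
        ∫⁻ x : E 2, ENNReal.ofReal (Real.exp (-‖x‖ ^ 2 / ((2 : ℝ) ^ j) ^ 2)) *
          ‖T g x‖ₑ ^ (2 : ℝ) := by
        rw [lintegral_tsum fun j => (mW j).aemeasurable]
        congr 1
        ext j
        rw [lintegral_const_mul]
        exact Measurable.mul (Measurable.ennreal_ofReal (by fun_prop)) (hTm.enorm.pow_const _)
    _ ≤ ∑' j : ℕ, ENNReal.ofReal (K * C * ρ ^ j) * G := by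
        refine ENNReal.tsum_le_tsum fun j => ?_
        calc _ ≤ ENNReal.ofReal (K * ((2 : ℝ) ^ j) ^ (-(1 + ε))) *
              (ENNReal.ofReal (C * 2 ^ j) * G) := by gcongr; exact stepA j
          _ = ENNReal.ofReal (K * C * ρ ^ j) * G := by
              rw [← mul_assoc, ← ENNReal.ofReal_mul (by positivity)]
              congr 2
              have h2j : (0 : ℝ) < 2 ^ j := by positivity
              have e1 : ((2 : ℝ) ^ j) ^ (-(1 + ε)) * 2 ^ j = ρ ^ j := by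
                rw [show -(1 + ε) = -ε - 1 by ring, Real.rpow_sub_one h2j.ne',
                  div_mul_cancel₀ _ h2j.ne', hρ, ← Real.rpow_natCast, ← Real.rpow_natCast,
                  ← Real.rpow_mul (by norm_num), ← Real.rpow_mul (by norm_num), mul_comm]
              calc K * ((2 : ℝ) ^ j) ^ (-(1 + ε)) * (C * 2 ^ j)
                  = K * C * (((2 : ℝ) ^ j) ^ (-(1 + ε)) * 2 ^ j) := by ring
                _ = _ := by rw [e1]
    _ = _ := by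
        rw [ENNReal.tsum_mul_right, geo (K * C) ρ (by positivity) hρ0.le hρ1]

theorem T_mass {n : ℕ} (k : E n → ℂ) (x : E n) : ‖T k x‖ₑ ≤ ∫⁻ z, ‖k z‖ₑ ∂(sg n) := by
  unfold T
  refine (enorm_integral_le_lintegral_enorm _).trans (le_of_eq ?_)
  refine lintegral_congr fun z => ?_
  rw [enorm_mul]
  have h : ‖Complex.exp (-((⟪x, z⟫ : ℝ) : ℂ) * I)‖ₑ = 1 := by
    have := norm_ee (⟪x, z⟫ : ℝ)
    unfold ee at this
    rw [← ofReal_norm, this, ENNReal.ofReal_one]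
  rw [h, one_mul]

/-- powers of the mass -/
theorem mass_pow (s : ℝ) (hs : 1 ≤ s) : ∃ C : ℝ≥0, ∀ m : ℝ≥0∞, m ≤ sg 2 univ → m ^ s ≤ C * m := by
  have hfin := sg_finite 2
  have hne : (sg 2 univ) ^ (s - 1) ≠ ⊤ :=
    ENNReal.rpow_ne_top_of_nonneg (by linarith) (measure_lt_top _ _).ne
  refine ⟨((sg 2 univ) ^ (s - 1)).toNNReal, fun m hm => ?_⟩
  rw [ENNReal.coe_toNNReal hne]
  calc m ^ s = m ^ (s - 1) * m ^ (1 : ℝ) := by
        rw [← ENNReal.rpow_add_of_nonneg _ _ (by linarith) zero_le_one]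
        congr 1
        ring
    _ ≤ (sg 2 univ) ^ (s - 1) * m := by
        rw [ENNReal.rpow_one]
        gcongr

theorem mass_le (k : E 2 → ℂ) (hb : ∀ z, ‖k z‖ ≤ 1) : ∫⁻ z, ‖k z‖ₑ ∂(sg 2) ≤ sg 2 univ := by
  calc ∫⁻ z, ‖k z‖ₑ ∂(sg 2) ≤ ∫⁻ _z : E 2, 1 ∂(sg 2) := by
        refine lintegral_mono fun z => ?_
        rw [← ofReal_norm, ENNReal.ofReal_le_one]
        exact hb z
    _ = sg 2 univ := by rw [lintegral_one]

/-- radial integration of the inner extension -/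
theorem polB (s : ℝ) (hs : 0 < s) (w v : ℝ → ℝ≥0∞) (hv : Measurable v)
    (K : ℝ≥0∞) (h1 : ∀ B, 0 < B → B ≤ 1 → w B ≤ K)
    (h2 : ∀ B, 1 < B → w B ≤ 2 * (ENNReal.ofReal B * v B)) (k : E 2 → ℂ) (hk : Measurable k) :
    ∫⁻ B in Ioi (0 : ℝ), w B * ∫⁻ η, ‖T k (B • η)‖ₑ ^ s ∂(sg 2) ≤
      K * ((∫⁻ z, ‖k z‖ₑ ∂(sg 2)) ^ s * sg 2 univ) +
        2 * ∫⁻ y : E 2, v ‖y‖ * ‖T k y‖ₑ ^ s := by
  have hfin := sg_finite 2
  have hTm : Measurable (T k) := T_meas' k hk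
  set S : ℝ≥0∞ := ∫⁻ z, ‖k z‖ₑ ∂(sg 2) with hS
  have hTb : ∀ x, ‖T k x‖ₑ ≤ S := fun x => T_mass k x
  have mTr : Measurable fun p : ℝ × E 2 => ‖T k (p.1 • p.2)‖ₑ ^ s :=
    (hTm.comp (measurable_fst.smul measurable_snd)).enorm.pow_const s
  have mI : Measurable fun B : ℝ => ∫⁻ η, ‖T k (B • η)‖ₑ ^ s ∂(sg 2) := mTr.lintegral_prod_right'
  rw [← Ioc_union_Ioi_eq_Ioi (zero_le_one (α := ℝ)), lintegral_union measurableSet_Ioi
    (by
      rw [Set.disjoint_left]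
      intro x hx hx'
      exact absurd hx.2 (not_le.2 hx'))]
  refine add_le_add ?_ ?_
  · calc ∫⁻ B in Ioc (0 : ℝ) 1, w B * ∫⁻ η, ‖T k (B • η)‖ₑ ^ s ∂(sg 2)
        ≤ ∫⁻ B in Ioc (0 : ℝ) 1, K * (S ^ s * sg 2 univ) := by
          refine setLIntegral_mono' measurableSet_Ioc fun B hB => ?_
          refine mul_le_mul' (h1 B hB.1 hB.2) ?_
          calc ∫⁻ η, ‖T k (B • η)‖ₑ ^ s ∂(sg 2) ≤ ∫⁻ _η : E 2, S ^ s ∂(sg 2) :=
                lintegral_mono fun η => ENNReal.rpow_le_rpow (hTb _) hs.le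
            _ = _ := lintegral_const _
      _ = _ := by rw [setLIntegral_const, Real.volume_Ioc]; simp
  · have mv : Measurable fun y : E 2 => v ‖y‖ * ‖T k y‖ₑ ^ s :=
      (hv.comp measurable_norm).mul (hTm.enorm.pow_const s)
    have mvr : Measurable fun p : ℝ × E 2 => ENNReal.ofReal (p.1 ^ (2 - 1)) *
        (v ‖p.1 • p.2‖ * ‖T k (p.1 • p.2)‖ₑ ^ s) := by
      refine Measurable.mul (Measurable.ennreal_ofReal (by fun_prop)) ?_
      exact mv.comp (measurable_fst.smul measurable_snd)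
    calc ∫⁻ B in Ioi (1 : ℝ), w B * ∫⁻ η, ‖T k (B • η)‖ₑ ^ s ∂(sg 2)
        ≤ ∫⁻ B in Ioi (1 : ℝ), 2 * ∫⁻ η, ENNReal.ofReal (B ^ (2 - 1)) *
            (v ‖B • η‖ * ‖T k (B • η)‖ₑ ^ s) ∂(sg 2) := by
          refine setLIntegral_mono' measurableSet_Ioi fun B hB => ?_
          have hB1 : (1 : ℝ) < B := hB
          have hB0 : 0 < B := by linarith
          calc w B * ∫⁻ η, ‖T k (B • η)‖ₑ ^ s ∂(sg 2)
              ≤ (2 * (ENNReal.ofReal B * v B)) * ∫⁻ η, ‖T k (B • η)‖ₑ ^ s ∂(sg 2) := by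
                gcongr; exact h2 B hB1
            _ = 2 * ∫⁻ η, (ENNReal.ofReal B * v B) * ‖T k (B • η)‖ₑ ^ s ∂(sg 2) := by
                have m9 : Measurable fun η : E 2 => ‖T k (B • η)‖ₑ ^ s :=
                  (hTm.comp (measurable_const_smul B)).enorm.pow_const s
                rw [lintegral_const_mul _ m9, mul_assoc]
            _ = _ := by
                congr 1
                refine lintegral_congr_ae ?_
                filter_upwards [sg_ae 2] with η hη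
                rw [norm_smul, hη, mul_one, Real.norm_eq_abs, abs_of_pos hB0, mul_assoc]
                simp
      _ ≤ ∫⁻ B in Ioi (0 : ℝ), 2 * ∫⁻ η, ENNReal.ofReal (B ^ (2 - 1)) *
            (v ‖B • η‖ * ‖T k (B • η)‖ₑ ^ s) ∂(sg 2) :=
          lintegral_mono_set (Ioi_subset_Ioi zero_le_one)
      _ = 2 * ∫⁻ y : E 2, v ‖y‖ * ‖T k y‖ₑ ^ s := by
          rw [lintegral_const_mul _ mvr.lintegral_prod_right', polar (by norm_num) _ mv]
          congr 1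
          rw [lintegral_lintegral_swap]
          exact mvr.aemeasurable

/-- power means on the circle -/
theorem jens (r : ℝ) (hr : 4 < r) : ∃ C : ℝ≥0, ∀ f : E 2 → ℝ≥0∞, Measurable f →
    (∫⁻ z, f z ^ 4 ∂(sg 2)) ^ (r / 4) ≤ C * ∫⁻ z, f z ^ r ∂(sg 2) := by
  have hfin := sg_finite 2
  have hr0 : 0 < r := by linarith
  have hpq : (r / 4).HolderConjugate (Real.conjExponent (r / 4)) :=
    Real.HolderConjugate.conjExponent (by linarith)
  set p' : ℝ := Real.conjExponent (r / 4) with hp'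
  have hne : (sg 2 univ) ^ (1 / p' * (r / 4)) ≠ ⊤ := by
    apply ENNReal.rpow_ne_top_of_nonneg
    · have := hpq.symm.pos
      positivity
    · exact (measure_lt_top _ _).ne
  refine ⟨((sg 2 univ) ^ (1 / p' * (r / 4))).toNNReal, fun f hf => ?_⟩
  rw [ENNReal.coe_toNNReal hne]
  have h1 := ENNReal.lintegral_mul_le_Lp_mul_Lq (sg 2) hpq (f := fun z => f z ^ 4)
    (g := fun _ => 1) (hf.pow_const 4).aemeasurable measurable_const.aemeasurable
  simp only [Pi.mul_apply, mul_one, ENNReal.one_rpow, lintegral_const, one_mul] at h1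
  have h2 := ENNReal.rpow_le_rpow h1 (by positivity : (0 : ℝ) ≤ r / 4)
  rw [ENNReal.mul_rpow_of_nonneg _ _ (by positivity), ← ENNReal.rpow_mul, ← ENNReal.rpow_mul,
    one_div_mul_cancel (by positivity), ENNReal.rpow_one, mul_comm] at h2
  refine h2.trans (mul_le_mul' le_rfl (le_of_eq ?_))
  refine lintegral_congr fun z => ?_
  rw [← ENNReal.rpow_natCast, ← ENNReal.rpow_mul]
  congr 1
  push_cast
  ring

theorem gB_meas (l : Fin 2) (k : E 2 → ℂ) (hk : Measurable k) (B : ℝ) :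
    Measurable fun η : E 2 => al l η * T k (B • η) :=
  (al_meas l).mul ((T_meas' k hk).comp (measurable_const_smul B))

theorem gB_bd (l : Fin 2) (k : E 2 → ℂ) (hb : ∀ z, ‖k z‖ ≤ 1) (B : ℝ) :
    ∃ M : ℝ, ∀ η : E 2, ‖al l η * T k (B • η)‖ ≤ M := by
  refine ⟨1 * (1 * (sg 2).real univ), fun η => ?_⟩
  rw [norm_mul]
  exact mul_le_mul (al_le l η) (T_le k 1 hb _) (norm_nonneg _) zero_le_one

theorem gB_le (l : Fin 2) (k : E 2 → ℂ) (B : ℝ) (η : E 2) :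
    ‖al l η * T k (B • η)‖ₑ ≤ ‖T k (B • η)‖ₑ := by
  rw [enorm_mul]
  calc ‖al l η‖ₑ * ‖T k (B • η)‖ₑ ≤ 1 * ‖T k (B • η)‖ₑ := by
        gcongr
        rw [← ofReal_norm, ENNReal.ofReal_le_one]
        exact al_le l η
    _ = _ := one_mul _

/-- the `L^2` estimate for the double extension -/
theorem D2 (ε : ℝ) (hε : 0 < ε) : ∃ C : ℝ≥0, ∀ (l : Fin 2) (k : E 2 → ℂ), Measurable k →
    (∀ z, ‖k z‖ ≤ 1) →
    ∫⁻ B in Ioi (0 : ℝ), ENNReal.ofReal ((1 + B) ^ (-ε)) *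
      ∫⁻ X : E 2, ENNReal.ofReal ((1 + ‖X‖) ^ (-(1 + ε))) * ‖Dd l k B X‖ₑ ^ (2 : ℝ) ≤
      C * ∫⁻ z, ‖k z‖ₑ ∂(sg 2) := by
  obtain ⟨C, hC, h⟩ := L2w ε hε
  obtain ⟨C0, hC0⟩ := mass_pow 2 (by norm_num)
  have hfin := sg_finite 2
  have h1 : sg 2 univ ≠ ⊤ := (measure_lt_top _ _).ne
  set D : ℝ≥0∞ := ENNReal.ofReal C * (C0 * sg 2 univ + 2 * ENNReal.ofReal C) with hD
  have hD' : D ≠ ⊤ := by
    rw [hD]
    exact ENNReal.mul_ne_top ENNReal.ofReal_ne_top (ENNReal.add_ne_top.2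
      ⟨ENNReal.mul_ne_top ENNReal.coe_ne_top h1,
        ENNReal.mul_ne_top (by norm_num) ENNReal.ofReal_ne_top⟩)
  refine ⟨D.toNNReal, fun l k hk hb => ?_⟩
  rw [ENNReal.coe_toNNReal hD']
  have hTm : Measurable (T k) := T_meas' k hk
  set m : ℝ≥0∞ := ∫⁻ z, ‖k z‖ₑ ∂(sg 2) with hm
  have hmS : m ≤ sg 2 univ := mass_le k hb
  have s1 : ∫⁻ B in Ioi (0 : ℝ), ENNReal.ofReal ((1 + B) ^ (-ε)) *
      ∫⁻ X : E 2, ENNReal.ofReal ((1 + ‖X‖) ^ (-(1 + ε))) * ‖Dd l k B X‖ₑ ^ (2 : ℝ) ≤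
      ∫⁻ B in Ioi (0 : ℝ), ENNReal.ofReal C * (ENNReal.ofReal ((1 + B) ^ (-ε)) *
        ∫⁻ η, ‖T k (B • η)‖ₑ ^ (2 : ℝ) ∂(sg 2)) := by
    refine lintegral_mono fun B => ?_
    calc _ ≤ ENNReal.ofReal ((1 + B) ^ (-ε)) * (ENNReal.ofReal C *
          ∫⁻ η, ‖al l η * T k (B • η)‖ₑ ^ (2 : ℝ) ∂(sg 2)) := by
          gcongr
          exact h _ (gB_meas l k hk B) (gB_bd l k hb B)
      _ ≤ ENNReal.ofReal ((1 + B) ^ (-ε)) * (ENNReal.ofReal C *
          ∫⁻ η, ‖T k (B • η)‖ₑ ^ (2 : ℝ) ∂(sg 2)) := by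
          gcongr with η
          exact gB_le l k B η
      _ = _ := by ring
  refine s1.trans ?_
  have mI : Measurable fun B : ℝ => ENNReal.ofReal ((1 + B) ^ (-ε)) *
      ∫⁻ η, ‖T k (B • η)‖ₑ ^ (2 : ℝ) ∂(sg 2) := by
    refine Measurable.mul (Measurable.ennreal_ofReal (by fun_prop)) ?_
    have mTr : Measurable fun p : ℝ × E 2 => ‖T k (p.1 • p.2)‖ₑ ^ (2 : ℝ) :=
      (hTm.comp (measurable_fst.smul measurable_snd)).enorm.pow_const _
    exact mTr.lintegral_prod_right'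
  rw [lintegral_const_mul _ mI, hD]
  refine (mul_le_mul' le_rfl ?_).trans (le_of_eq (mul_assoc _ _ _).symm)
  refine (polB 2 (by norm_num) (fun B => ENNReal.ofReal ((1 + B) ^ (-ε)))
    (fun B => ENNReal.ofReal ((1 + B) ^ (-(1 + ε)))) (Measurable.ennreal_ofReal (by fun_prop)) 1
    ?_ ?_ k hk).trans ?_
  · intro B hB _
    rw [ENNReal.ofReal_le_one]
    exact Real.rpow_le_one_of_one_le_of_nonpos (by linarith) (by linarith)
  · intro B hB
    rw [← ENNReal.ofReal_mul (by linarith), show (2 : ℝ≥0∞) = ENNReal.ofReal 2 by norm_num,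
      ← ENNReal.ofReal_mul (by norm_num)]
    apply ENNReal.ofReal_le_ofReal
    have hB1 : 0 < 1 + B := by linarith
    have e1 : (1 + B) ^ (-ε) = (1 + B) ^ (-(1 + ε)) * (1 + B) := by
      nth_rewrite 3 [← Real.rpow_one (1 + B)]
      rw [← Real.rpow_add hB1]
      congr 1
      ring
    rw [e1]
    have : 0 < (1 + B) ^ (-(1 + ε)) := by positivity
    nlinarith
  · rw [one_mul, add_mul]
    refine add_le_add ?_ ?_
    · calc m ^ (2 : ℝ) * sg 2 univ ≤ (C0 * m) * sg 2 univ := by gcongr; exact hC0 m hmS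
        _ = _ := by ring
    · rw [mul_assoc]
      gcongr
      refine (h k hk ⟨1, hb⟩).trans ?_
      gcongr
      refine lintegral_mono fun z => ?_
      have h1 : ‖k z‖ₑ ≤ 1 := by
        rw [← ofReal_norm, ENNReal.ofReal_le_one]
        exact hb z
      calc ‖k z‖ₑ ^ (2 : ℝ) ≤ ‖k z‖ₑ ^ (1 : ℝ) :=
            ENNReal.rpow_le_rpow_of_exponent_ge h1 (by norm_num)
        _ = ‖k z‖ₑ := ENNReal.rpow_one _

/-- the `L^r` estimate for the double extension -/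
theorem Dr (r : ℝ) (hr : 4 < r) : ∃ C : ℝ≥0, ∀ (l : Fin 2) (k : E 2 → ℂ), Measurable k →
    (∀ z, ‖k z‖ ≤ 1) →
    ∫⁻ B in Ioi (0 : ℝ), ENNReal.ofReal (1 + B) * ∫⁻ X : E 2, ‖Dd l k B X‖ₑ ^ r ≤
      C * ∫⁻ z, ‖k z‖ₑ ∂(sg 2) := by
  obtain ⟨C1, h1⟩ := Pool.Agent.TH554.J1595.circle r hr
  obtain ⟨C2, h2⟩ := jens r hr
  obtain ⟨C3, h3⟩ := mass_pow r (by linarith)
  obtain ⟨C4, h4⟩ := mass_pow (r / 4) (by linarith)
  have hfin := sg_finite 2
  have hr0 : 0 < r := by linarith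
  have hS : sg 2 univ ≠ ⊤ := (measure_lt_top _ _).ne
  set D : ℝ≥0∞ := (C1 * C2 : ℝ≥0∞) * (2 * (C3 * sg 2 univ) + 2 * (C1 * C4)) with hD
  have hD' : D ≠ ⊤ := by
    rw [hD]
    exact ENNReal.mul_ne_top (ENNReal.mul_ne_top ENNReal.coe_ne_top ENNReal.coe_ne_top)
      (ENNReal.add_ne_top.2 ⟨ENNReal.mul_ne_top (by norm_num)
        (ENNReal.mul_ne_top ENNReal.coe_ne_top hS),
        ENNReal.mul_ne_top (by norm_num) (ENNReal.mul_ne_top ENNReal.coe_ne_top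
          ENNReal.coe_ne_top)⟩)
  refine ⟨D.toNNReal, fun l k hk hb => ?_⟩
  rw [ENNReal.coe_toNNReal hD']
  have hTm : Measurable (T k) := T_meas' k hk
  set m : ℝ≥0∞ := ∫⁻ z, ‖k z‖ₑ ∂(sg 2) with hm
  have hmS : m ≤ sg 2 univ := mass_le k hb
  have s1 : ∫⁻ B in Ioi (0 : ℝ), ENNReal.ofReal (1 + B) * ∫⁻ X : E 2, ‖Dd l k B X‖ₑ ^ r ≤
      ∫⁻ B in Ioi (0 : ℝ), (C1 * C2 : ℝ≥0∞) * (ENNReal.ofReal (1 + B) *
        ∫⁻ η, ‖T k (B • η)‖ₑ ^ r ∂(sg 2)) := by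
    refine lintegral_mono fun B => ?_
    calc _ ≤ ENNReal.ofReal (1 + B) * (C1 *
          (∫⁻ η, ‖al l η * T k (B • η)‖ₑ ^ 4 ∂(sg 2)) ^ (r / 4)) := by
          gcongr
          exact h1 _ (gB_meas l k hk B) (gB_bd l k hb B)
      _ ≤ ENNReal.ofReal (1 + B) * (C1 * (C2 * ∫⁻ η, ‖al l η * T k (B • η)‖ₑ ^ r ∂(sg 2))) := by
          gcongr
          exact h2 _ (gB_meas l k hk B).enorm
      _ ≤ ENNReal.ofReal (1 + B) * (C1 * (C2 * ∫⁻ η, ‖T k (B • η)‖ₑ ^ r ∂(sg 2))) := by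
          gcongr with η
          exact gB_le l k B η
      _ = _ := by ring
  refine s1.trans ?_
  have mI : Measurable fun B : ℝ => ENNReal.ofReal (1 + B) *
      ∫⁻ η, ‖T k (B • η)‖ₑ ^ r ∂(sg 2) := by
    refine Measurable.mul (Measurable.ennreal_ofReal (by fun_prop)) ?_
    have mTr : Measurable fun p : ℝ × E 2 => ‖T k (p.1 • p.2)‖ₑ ^ r :=
      (hTm.comp (measurable_fst.smul measurable_snd)).enorm.pow_const _
    exact mTr.lintegral_prod_right'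
  rw [lintegral_const_mul _ mI, hD]
  refine (mul_le_mul' le_rfl ?_).trans (le_of_eq (mul_assoc _ _ _).symm)
  refine (polB r hr0 (fun B => ENNReal.ofReal (1 + B)) (fun _ => 1) measurable_const 2
    ?_ ?_ k hk).trans ?_
  · intro B hB hB1
    rw [show (2 : ℝ≥0∞) = ENNReal.ofReal 2 by norm_num]
    exact ENNReal.ofReal_le_ofReal (by linarith)
  · intro B hB
    rw [mul_one, show (2 : ℝ≥0∞) = ENNReal.ofReal 2 by norm_num,
      ← ENNReal.ofReal_mul (by norm_num)]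
    exact ENNReal.ofReal_le_ofReal (by linarith)
  · rw [add_mul]
    refine add_le_add ?_ ?_
    · calc 2 * (m ^ r * sg 2 univ) ≤ 2 * ((C3 * m) * sg 2 univ) := by gcongr; exact h3 m hmS
        _ = _ := by ring
    · simp only [one_mul]
      calc 2 * ∫⁻ y : E 2, ‖T k y‖ₑ ^ r ≤ 2 * (C1 * (∫⁻ z, ‖k z‖ₑ ^ 4 ∂(sg 2)) ^ (r / 4)) := by
            gcongr
            exact h1 k hk ⟨1, hb⟩
        _ ≤ 2 * (C1 * m ^ (r / 4)) := by
            gcongr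
            refine lintegral_mono fun z => ?_
            have h1 : ‖k z‖ₑ ≤ 1 := by
              rw [← ofReal_norm, ENNReal.ofReal_le_one]
              exact hb z
            exact pow_le_of_le_one zero_le h1 (by norm_num)
        _ ≤ 2 * (C1 * (C4 * m)) := by gcongr; exact h4 m hmS
        _ = _ := by ring

end Pool.Agent.Run7.h58.MV
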