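import Mathlib
import Pool.Agent.Run7.h58.MV.Est
set_option autoImplicit false

/-! The weighted `L^q` estimate for odd functions of the longitude. -/

namespace Pool.Agent.Run7.h58.MV

open MeasureTheory Set Complex
open scoped ENNReal NNReal RealInnerProductSpace
open Pool.Agent.H789R2.FR (E sg T sg_finite sg_ae sg_inv polar L2_bound)
open Pool.Agent.H438R2.PD (P1 P1_J P1_meas T_meas' T_le T_comp)
open Pool.Agent.TH554.J1595 (sum_rpow)

theorem Dd_meas (l : Fin 2) (k : E 2 → ℂ) (hk : Measurable k) :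
    Measurable fun p : ℝ × E 2 => Dd l k p.1 p.2 := by
  have hfin := sg_finite 2
  unfold Dd T
  have hTm : Measurable (T k) := T_meas' k hk
  have m1 : Measurable fun q : (ℝ × E 2) × E 2 => (⟪q.1.2, q.2⟫ : ℝ) :=
    (measurable_snd.comp measurable_fst).inner measurable_snd
  have m2 : Measurable fun q : (ℝ × E 2) × E 2 => T k (q.1.1 • q.2) :=
    hTm.comp ((measurable_fst.comp measurable_fst).smul measurable_snd)
  have m3 : Measurable fun q : (ℝ × E 2) × E 2 =>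
      Complex.exp (-((⟪q.1.2, q.2⟫ : ℝ) : ℂ) * I) * (al l q.2 * T k (q.1.1 • q.2)) :=
    (Complex.measurable_exp.comp ((Complex.measurable_ofReal.comp m1).neg.mul_const I)).mul
      (((al_meas l).comp measurable_snd).mul m2)
  have m4 : StronglyMeasurable fun q : (ℝ × E 2) × E 2 =>
      Complex.exp (-((⟪q.1.2, q.2⟫ : ℝ) : ℂ) * I) * (al l q.2 * T k (q.1.1 • q.2)) :=
    m3.stronglyMeasurable
  exact m4.integral_prod_right'.measurable

/-- the weight in parabolic coordinates -/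
noncomputable def ww (q τ B a : ℝ) : ℝ≥0∞ :=
  if B ≤ a then ENNReal.ofReal ((1 + a) ^ (τ - q / 2) * (1 + B) ^ (q / 2)) else 0

theorem ww_meas (q τ : ℝ) : Measurable fun p : ℝ × E 2 => ww q τ p.1 ‖p.2‖ := by
  unfold ww
  refine Measurable.ite ?_ ?_ measurable_const
  · exact measurableSet_le measurable_fst measurable_snd.norm
  · exact Measurable.ennreal_ofReal (by fun_prop)

theorem main2 (q τ : ℝ) (hq3 : 3 < q) (hq4 : q < 4) (hτ0 : 0 ≤ τ) (hτ : τ < q - 3) :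
    ∃ C : ℝ≥0, ∀ (l : Fin 2) (k : E 2 → ℂ), Measurable k → (∀ z, ‖k z‖ ≤ 1) →
    ∫⁻ B in Ioi (0 : ℝ), ∫⁻ X : E 2, ww q τ B ‖X‖ * ‖Dd l k B X‖ₑ ^ q ≤
      C * ∫⁻ z, ‖k z‖ₑ ∂(sg 2) := by
  set s : ℝ := (q - 1 + τ) / 4 with hs
  have hs0 : 0 < s := by rw [hs]; linarith
  have hs1 : s < 1 := by rw [hs]; linarith
  have hsq : s < (q - 2) / 2 := by rw [hs]; linarith
  have hsτ : 0 < 2 * s - 1 - τ := by rw [hs]; linarith
  set ε : ℝ := (2 * s - 1 - τ) / 2 with hε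
  have hε0 : 0 < ε := by rw [hε]; linarith
  set r : ℝ := 2 + (q - 2) / s with hr
  have hr4 : 4 < r := by
    rw [hr]
    have : 2 < (q - 2) / s := by rw [lt_div_iff₀ hs0]; linarith
    linarith
  have hqs : q = 2 * (1 - s) + r * s := by
    rw [hr, add_mul, div_mul_cancel₀ _ hs0.ne']
    ring
  obtain ⟨C2, h2⟩ := D2 ε hε0
  obtain ⟨Cr, h3⟩ := Dr r hr4
  refine ⟨C2 ^ (1 - s) * Cr ^ s, fun l k hk hb => ?_⟩
  have mD : Measurable fun p : ℝ × E 2 => ‖Dd l k p.1 p.2‖ₑ := (Dd_meas l k hk).enorm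
  set μ : Measure (ℝ × E 2) := ((volume : Measure ℝ).restrict (Ioi 0)).prod volume with hμ
  have mw2 : Measurable fun p : ℝ × E 2 => ENNReal.ofReal ((1 + p.1) ^ (-ε)) *
      (ENNReal.ofReal ((1 + ‖p.2‖) ^ (-(1 + ε))) * ‖Dd l k p.1 p.2‖ₑ ^ (2 : ℝ)) := by
    refine Measurable.mul (Measurable.ennreal_ofReal (by fun_prop)) ?_
    exact Measurable.mul (Measurable.ennreal_ofReal (by fun_prop)) (mD.pow_const _)
  have mwr : Measurable fun p : ℝ × E 2 => ENNReal.ofReal (1 + p.1) *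
      ‖Dd l k p.1 p.2‖ₑ ^ r := by
    refine Measurable.mul (Measurable.ennreal_ofReal (by fun_prop)) (mD.pow_const _)
  have mwq : Measurable fun p : ℝ × E 2 => ww q τ p.1 ‖p.2‖ * ‖Dd l k p.1 p.2‖ₑ ^ q :=
    (ww_meas q τ).mul (mD.pow_const _)
  set m : ℝ≥0∞ := ∫⁻ z, ‖k z‖ₑ ∂(sg 2) with hm
  have e2 : ∫⁻ p, ENNReal.ofReal ((1 + p.1) ^ (-ε)) *
      (ENNReal.ofReal ((1 + ‖p.2‖) ^ (-(1 + ε))) * ‖Dd l k p.1 p.2‖ₑ ^ (2 : ℝ)) ∂μ ≤
      C2 * m := by
    rw [hμ, lintegral_prod _ mw2.aemeasurable]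
    refine le_trans (le_of_eq ?_) (h2 l k hk hb)
    refine lintegral_congr fun B => ?_
    rw [← lintegral_const_mul' _ _ ENNReal.ofReal_ne_top]
  have er : ∫⁻ p, ENNReal.ofReal (1 + p.1) * ‖Dd l k p.1 p.2‖ₑ ^ r ∂μ ≤ Cr * m := by
    rw [hμ, lintegral_prod _ mwr.aemeasurable]
    refine le_trans (le_of_eq ?_) (h3 l k hk hb)
    refine lintegral_congr fun B => ?_
    rw [← lintegral_const_mul' _ _ ENNReal.ofReal_ne_top]
  have eq : ∫⁻ B in Ioi (0 : ℝ), ∫⁻ X : E 2, ww q τ B ‖X‖ * ‖Dd l k B X‖ₑ ^ q =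
      ∫⁻ p, ww q τ p.1 ‖p.2‖ * ‖Dd l k p.1 p.2‖ₑ ^ q ∂μ := by
    rw [hμ, lintegral_prod _ mwq.aemeasurable]
  rw [eq]
  have hpos : ∀ᵐ p ∂μ, (0 : ℝ) < p.1 := by
    apply Measure.quasiMeasurePreserving_fst.ae
    exact ae_restrict_mem measurableSet_Ioi
  have hpt : ∫⁻ p, ww q τ p.1 ‖p.2‖ * ‖Dd l k p.1 p.2‖ₑ ^ q ∂μ ≤
      ∫⁻ p, (ENNReal.ofReal ((1 + p.1) ^ (-ε)) *
        (ENNReal.ofReal ((1 + ‖p.2‖) ^ (-(1 + ε))) * ‖Dd l k p.1 p.2‖ₑ ^ (2 : ℝ))) ^ (1 - s) *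
        (ENNReal.ofReal (1 + p.1) * ‖Dd l k p.1 p.2‖ₑ ^ r) ^ s ∂μ := by
    refine lintegral_mono_ae ?_
    filter_upwards [hpos] with p hp
    unfold ww
    split_ifs with hle
    · set B : ℝ := p.1 with hB
      set a : ℝ := ‖p.2‖ with ha
      set D : ℝ≥0∞ := ‖Dd l k B p.2‖ₑ with hD
      have hB1 : 0 < 1 + B := by linarith
      have ha1 : 0 < 1 + a := by linarith
      have hs1' : (0 : ℝ) ≤ 1 - s := by linarith
      rw [ENNReal.mul_rpow_of_nonneg _ _ hs1', ENNReal.mul_rpow_of_nonneg _ _ hs1',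
        ENNReal.mul_rpow_of_nonneg _ _ hs0.le,
        ENNReal.ofReal_rpow_of_nonneg (by positivity) hs1',
        ENNReal.ofReal_rpow_of_nonneg (by positivity) hs1',
        ENNReal.ofReal_rpow_of_nonneg (by positivity) hs0.le,
        ← ENNReal.rpow_mul, ← ENNReal.rpow_mul, ← Real.rpow_mul hB1.le, ← Real.rpow_mul ha1.le]
      have e1 : D ^ q = D ^ (2 * (1 - s)) * D ^ (r * s) := by
        rw [← ENNReal.rpow_add_of_nonneg _ _ (by positivity) (by positivity), ← hqs]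
      have key : (1 + a) ^ (τ - q / 2) * (1 + B) ^ (q / 2) ≤
          (1 + B) ^ (-ε * (1 - s)) * ((1 + a) ^ (-(1 + ε) * (1 - s)) * (1 + B) ^ s) := by
        have k1 : (1 + B) ^ (q / 2 + ε * (1 - s) - s) ≤ (1 + a) ^ (q / 2 + ε * (1 - s) - s) := by
          apply Real.rpow_le_rpow hB1.le (by linarith)
          have : 0 ≤ ε * (1 - s) := by positivity
          linarith
        have k2 : (1 + a) ^ (q / 2 + ε * (1 - s) - s) ≤
            (1 + a) ^ (q / 2 - τ - (1 + ε) * (1 - s)) := by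
          apply Real.rpow_le_rpow_of_exponent_le (by linarith)
          have h5 : ε * (1 - s) ≤ ε := by nlinarith
          have h6 : 2 * ε = 2 * s - 1 - τ := by rw [hε]; ring
          nlinarith
        have k3 := k1.trans k2
        have l1 : (1 + B) ^ (q / 2) = (1 + B) ^ (q / 2 + ε * (1 - s) - s) *
            ((1 + B) ^ (-ε * (1 - s)) * (1 + B) ^ s) := by
          rw [← Real.rpow_add hB1, ← Real.rpow_add hB1]
          congr 1
          ring
        have l2 : (1 + a) ^ (τ - q / 2) * (1 + a) ^ (q / 2 - τ - (1 + ε) * (1 - s)) =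
            (1 + a) ^ (-(1 + ε) * (1 - s)) := by
          rw [← Real.rpow_add ha1]
          congr 1
          ring
        rw [l1]
        calc (1 + a) ^ (τ - q / 2) * ((1 + B) ^ (q / 2 + ε * (1 - s) - s) *
              ((1 + B) ^ (-ε * (1 - s)) * (1 + B) ^ s))
            ≤ (1 + a) ^ (τ - q / 2) * ((1 + a) ^ (q / 2 - τ - (1 + ε) * (1 - s)) *
              ((1 + B) ^ (-ε * (1 - s)) * (1 + B) ^ s)) := by gcongr
          _ = _ := by rw [← mul_assoc, l2]; ring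
      calc ENNReal.ofReal ((1 + a) ^ (τ - q / 2) * (1 + B) ^ (q / 2)) * D ^ q
          ≤ ENNReal.ofReal ((1 + B) ^ (-ε * (1 - s)) * ((1 + a) ^ (-(1 + ε) * (1 - s)) *
            (1 + B) ^ s)) * D ^ q := by gcongr
        _ = _ := by
            rw [e1, ENNReal.ofReal_mul (by positivity), ENNReal.ofReal_mul (by positivity)]
            ring
    · rw [zero_mul]
      exact zero_le
  refine hpt.trans ((ENNReal.lintegral_mul_norm_pow_le mw2.aemeasurable mwr.aemeasurable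
    (by linarith : (0 : ℝ) ≤ 1 - s) hs0.le (by ring)).trans ?_)
  rw [ENNReal.coe_mul, ENNReal.coe_rpow_of_nonneg _ (by linarith : (0 : ℝ) ≤ 1 - s),
    ENNReal.coe_rpow_of_nonneg _ hs0.le]
  refine (mul_le_mul' (ENNReal.rpow_le_rpow e2 (by linarith))
    (ENNReal.rpow_le_rpow er hs0.le)).trans (le_of_eq ?_)
  rw [ENNReal.mul_rpow_of_nonneg _ _ (by linarith : (0 : ℝ) ≤ 1 - s),
    ENNReal.mul_rpow_of_nonneg _ _ hs0.le]
  have hmm : m ^ (1 - s) * m ^ s = m := by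
    rw [← ENNReal.rpow_add_of_nonneg _ _ (by linarith) hs0.le]
    rw [show 1 - s + s = 1 by ring, ENNReal.rpow_one]
  calc _ = (C2 : ℝ≥0∞) ^ (1 - s) * (Cr : ℝ≥0∞) ^ s * (m ^ (1 - s) * m ^ s) := by ring
    _ = _ := by rw [hmm]

end Pool.Agent.Run7.h58.MV
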