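import Mathlib
import Pool.Agent.Run7.h58.MV.Odd
set_option autoImplicit false

/-! The weighted `L^q` estimate for odd functions of the longitude: conclusion. -/

namespace Pool.Agent.Run7.h58.MV

open MeasureTheory Set Complex
open scoped ENNReal NNReal RealInnerProductSpace
open Pool.Agent.H789R2.FR (E sg T sg_finite sg_ae sg_inv polar L2_bound)
open Pool.Agent.H438R2.PD (P1 P1_J P1_meas T_meas' T_le T_comp)
open Pool.Agent.TH554.J1595 (sum_rpow)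
open Pool.Agent.H438R2.BR (J)
open Pool.Agent.H438R2.BR.T10 (e0)

theorem wineq (A B N ρ q τ : ℝ) (hB : 0 < B) (hBA : B ≤ A) (hN : N = A + B) (hρ0 : 0 ≤ ρ)
    (hρ : ρ ^ 2 = 4 * A * B / N ^ 2) (hq : 0 < q) (hτ : 0 ≤ τ) :
    (1 + N) ^ τ * ρ ^ q ≤ 2 ^ τ * 8 ^ (q / 2) * ((1 + A) ^ (τ - q / 2) * (1 + B) ^ (q / 2)) := by
  have hA : 0 < A := by linarith
  have hN0 : 0 < N := by linarith
  have hA1 : 0 < 1 + A := by linarith
  have h1 : ρ ^ 2 ≤ 8 * ((1 + B) / (1 + A)) := by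
    rw [hρ, div_le_iff₀ (by positivity), ← mul_div_assoc, div_mul_eq_mul_div,
      le_div_iff₀ hA1, hN]
    have a1 : A * B ≤ (A + B) ^ 2 := by nlinarith
    have a2 : A ^ 2 ≤ (A + B) ^ 2 := by nlinarith
    have a3 : 0 ≤ B * (A + B) ^ 2 := by positivity
    have a4 : 0 ≤ (A + B) ^ 2 := by positivity
    calc 4 * A * B * (1 + A) = 4 * (A * B) + 4 * (B * A ^ 2) := by ring
      _ ≤ 4 * (A + B) ^ 2 + 4 * (B * (A + B) ^ 2) := by gcongr
      _ ≤ 8 * (1 + B) * (A + B) ^ 2 := by nlinarith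
  have h2 : ρ ^ q = (ρ ^ 2) ^ (q / 2) := by
    rw [← Real.rpow_natCast, ← Real.rpow_mul hρ0]
    congr 1
    push_cast
    ring
  have h3 : (ρ ^ 2) ^ (q / 2) ≤ (8 * ((1 + B) / (1 + A))) ^ (q / 2) :=
    Real.rpow_le_rpow (by positivity) h1 (by positivity)
  have h4 : (8 * ((1 + B) / (1 + A))) ^ (q / 2) = 8 ^ (q / 2) * (1 + B) ^ (q / 2) *
      (1 + A) ^ (-(q / 2)) := by
    rw [Real.mul_rpow (by norm_num) (by positivity), Real.div_rpow (by positivity) (by positivity),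
      Real.rpow_neg hA1.le]
    ring
  have h5 : (1 + N) ^ τ ≤ 2 ^ τ * (1 + A) ^ τ := by
    rw [← Real.mul_rpow (by norm_num) (by positivity)]
    exact Real.rpow_le_rpow (by positivity) (by linarith) hτ
  have h6 : (1 + A) ^ (τ - q / 2) = (1 + A) ^ τ * (1 + A) ^ (-(q / 2)) := by
    rw [← Real.rpow_add hA1]
    congr 1
  calc (1 + N) ^ τ * ρ ^ q ≤ (2 ^ τ * (1 + A) ^ τ) * (8 ^ (q / 2) * (1 + B) ^ (q / 2) *
      (1 + A) ^ (-(q / 2))) := by
        rw [h2]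
        exact mul_le_mul h5 (h3.trans (le_of_eq h4)) (by positivity) (by positivity)
    _ = _ := by rw [h6]; ring

theorem jj_two (x : E 2) (t : ℝ) : jj x t 2 = t := by
  unfold jj J
  have h : (Fin.append (fun i => x i) (fun i => (t • e0) i) : Fin (2 + 1) → ℝ) (Fin.natAdd 2 0) =
      (t • e0) 0 := Fin.append_right _ _ _
  have h2 : (t • e0) 0 = t := by simp [e0]
  rw [h2] at h
  exact h

theorem jj_norm (x : E 2) (t : ℝ) : ‖jj x t‖ ^ 2 = ‖x‖ ^ 2 + t ^ 2 := by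
  rw [← real_inner_self_eq_norm_sq, jj_inner, real_inner_self_eq_norm_sq]
  ring

/-- reflection in the equatorial plane -/
noncomputable def R3 : E 3 ≃ₗᵢ[ℝ] E 3 :=
  LinearIsometryEquiv.piLpCongrRight 2 fun j : Fin 3 =>
    if j = 2 then LinearIsometryEquiv.neg ℝ else LinearIsometryEquiv.refl ℝ ℝ

theorem R3_apply (z : E 3) (i : Fin 3) : R3 z i = if i = 2 then -z i else z i := by
  unfold R3
  rw [LinearIsometryEquiv.piLpCongrRight_apply]
  fin_cases i <;> simp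

theorem lon_R3 (h : E 2 → ℂ) (z : E 3) : lon h (R3 z) = lon h z := by
  have e : P1 2 1 (R3 z) = P1 2 1 z := by
    ext i
    have h1 : P1 2 1 (R3 z) i = R3 z (Fin.castAdd 1 i) := rfl
    have h2 : P1 2 1 z i = z (Fin.castAdd 1 i) := rfl
    rw [h1, h2, R3_apply, if_neg]
    fin_cases i <;> decide
  unfold lon
  rw [e]

theorem T_lon_R3 (h : E 2 → ℂ) (ξ : E 3) : T (lon h) (R3 ξ) = T (lon h) ξ := by
  rw [← T_comp R3 (lon h) ξ]
  congr 1
  funext z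
  exact lon_R3 h z

theorem T_lon_le (h : E 2 → ℂ) (hh : Measurable h) (hb : ∀ u, ‖h u‖ ≤ 1)
    (hodd : ∀ u, h (-u) = -h u) (x : E 2) (t B N : ℝ) (hB : 0 < B) (hN0 : 0 < N)
    (hN : N ^ 2 = ‖x‖ ^ 2 + t ^ 2) (hBN : 2 * B = N - t) :
    ‖T (lon h) (jj x t)‖ₑ ≤ ENNReal.ofReal (‖x‖ / N) *
      ∑ i : Fin 2 × Fin 2, ‖Dd i.1 (kk i.2 h) B ((4 * B)⁻¹ • sq x)‖ₑ := by
  rw [T_lon h hh hb hodd x t B N hB hN0 hN hBN]
  set X := (4 * B)⁻¹ • sq x
  have hx0 : |x 0| ≤ ‖x‖ := by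
    rw [← abs_norm x, ← sq_le_sq, norm_two]
    nlinarith [sq_nonneg (x 1)]
  have hx1 : |x 1| ≤ ‖x‖ := by
    rw [← abs_norm x, ← sq_le_sq, norm_two]
    nlinarith [sq_nonneg (x 0)]
  have key : ‖(1 / 2 : ℂ) * ((N⁻¹ : ℝ) : ℂ) * (((x 0 : ℝ) : ℂ) * Dd 0 (kk 0 h) B X
      - ((x 1 : ℝ) : ℂ) * Dd 0 (kk 1 h) B X + ((x 1 : ℝ) : ℂ) * Dd 1 (kk 0 h) B X
      + ((x 0 : ℝ) : ℂ) * Dd 1 (kk 1 h) B X)‖ ≤ (‖x‖ / N) *
      ∑ i : Fin 2 × Fin 2, ‖Dd i.1 (kk i.2 h) B X‖ := by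
    rw [norm_mul, norm_mul, Complex.norm_real, Fintype.sum_prod_type]
    simp only [Fin.sum_univ_two]
    set a := Dd 0 (kk 0 h) B X
    set b := Dd 0 (kk 1 h) B X
    set c := Dd 1 (kk 0 h) B X
    set d := Dd 1 (kk 1 h) B X
    have n1 : ‖((x 0 : ℝ) : ℂ) * a - ((x 1 : ℝ) : ℂ) * b + ((x 1 : ℝ) : ℂ) * c
      + ((x 0 : ℝ) : ℂ) * d‖ ≤ ‖x‖ * (‖a‖ + ‖b‖ + (‖c‖ + ‖d‖)) := by
      refine (norm_add_le _ _).trans ?_
      have t1 := norm_add_le (((x 0 : ℝ) : ℂ) * a - ((x 1 : ℝ) : ℂ) * b) (((x 1 : ℝ) : ℂ) * c)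
      have t2 := norm_sub_le (((x 0 : ℝ) : ℂ) * a) (((x 1 : ℝ) : ℂ) * b)
      have q1 : ∀ (y : ℝ) (w : ℂ), |y| ≤ ‖x‖ → ‖(y : ℂ) * w‖ ≤ ‖x‖ * ‖w‖ := by
        intro y w hy
        rw [norm_mul, Complex.norm_real, Real.norm_eq_abs]
        exact mul_le_mul_of_nonneg_right hy (norm_nonneg _)
      have a1 := q1 _ a hx0
      have a2 := q1 _ b hx1
      have a3 := q1 _ c hx1
      have a4 := q1 _ d hx0
      linarith
    have hNi : ‖N⁻¹‖ = N⁻¹ := by rw [Real.norm_eq_abs, abs_of_pos (by positivity)]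
    rw [hNi]
    have h12 : ‖(1 / 2 : ℂ)‖ ≤ 1 := by norm_num
    calc ‖(1 / 2 : ℂ)‖ * N⁻¹ * _ ≤ 1 * N⁻¹ * (‖x‖ * (‖a‖ + ‖b‖ + (‖c‖ + ‖d‖))) := by
          gcongr
      _ = _ := by ring
  rw [← ofReal_norm]
  refine (ENNReal.ofReal_le_ofReal key).trans ?_
  rw [ENNReal.ofReal_mul (by positivity), ENNReal.ofReal_sum_of_nonneg fun _ _ => norm_nonneg _]
  simp only [ofReal_norm, le_refl]

theorem kk_mass (j : Fin 2) (h : E 2 → ℂ) (hh : Measurable h) (hodd : ∀ u, h (-u) = -h u) :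
    ∫⁻ z, ‖kk j h z‖ₑ ∂(sg 2) ≤ ∫⁻ z, ‖h z‖ₑ ∂(sg 2) := by
  rw [← sq_lint (fun z => ‖kk j h z‖ₑ) (kk_meas j h hh).enorm]
  refine lintegral_mono_ae ?_
  filter_upwards [sg_ae 2] with u hu
  rw [kk_sq j h hodd u hu, enorm_mul]
  calc ‖h u‖ₑ * ‖((u j : ℝ) : ℂ)‖ₑ ≤ ‖h u‖ₑ * 1 := by
        gcongr
        rw [← ofReal_norm, ENNReal.ofReal_le_one, Complex.norm_real]
        exact coord_le u hu.le j
    _ = _ := mul_one _

theorem oddLq (q τ : ℝ) (hq3 : 3 < q) (hq4 : q < 4) (hτ0 : 0 ≤ τ) (hτ : τ < q - 3) :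
    ∃ C : ℝ≥0, ∀ h : E 2 → ℂ, Measurable h → (∀ u, ‖h u‖ ≤ 1) → (∀ u, h (-u) = -h u) →
    ∫⁻ ξ : E 3, ENNReal.ofReal ((1 + ‖ξ‖) ^ τ) * ‖T (lon h) ξ‖ₑ ^ q ≤
      C * ∫⁻ z, ‖h z‖ₑ ∂(sg 2) := by
  obtain ⟨C, hC⟩ := main2 q τ hq3 hq4 hτ0 hτ
  have hq0 : 0 < q := by linarith
  set K₀ : ℝ := 2 ^ τ * 8 ^ (q / 2) with hK₀
  have hK₀0 : 0 < K₀ := by positivity
  set K : ℝ≥0∞ := ENNReal.ofReal K₀ * (4 : ℝ≥0∞) ^ q with hK
  have hK' : K ≠ ⊤ := ENNReal.mul_ne_top ENNReal.ofReal_ne_top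
    (ENNReal.rpow_ne_top_of_nonneg hq0.le (by norm_num))
  refine ⟨2 * (4 * (K.toNNReal * (4 * C))), fun h hh hb hodd => ?_⟩
  have hkm : ∀ j, Measurable (kk j h) := fun j => kk_meas j h hh
  have hkb : ∀ j z, ‖kk j h z‖ ≤ 1 := fun j z => kk_le j h hb z
  set F : E 3 → ℝ≥0∞ := fun ξ => ENNReal.ofReal ((1 + ‖ξ‖) ^ τ) * ‖T (lon h) ξ‖ₑ ^ q with hF
  have mF : Measurable F := by
    refine Measurable.mul (Measurable.ennreal_ofReal (by fun_prop)) ?_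
    exact (T_meas' _ (lon_meas h hh)).enorm.pow_const q
  set f : E 3 → ℝ≥0∞ := fun ξ => if 0 ≤ ξ 2 then F ξ else 0 with hf
  have mf : Measurable f := by
    refine Measurable.ite ?_ mF measurable_const
    exact measurableSet_le measurable_const (by fun_prop)
  -- reduction to the upper half
  have hFR : ∀ ξ, F (R3 ξ) = F ξ := by
    intro ξ
    simp only [hF]
    rw [T_lon_R3, R3.norm_map]
  have s1 : ∫⁻ ξ, F ξ ≤ 2 * ∫⁻ ξ, f ξ := by
    have e1 : ∫⁻ ξ, f (R3 ξ) = ∫⁻ ξ, f ξ := R3.measurePreserving.lintegral_comp mf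
    calc ∫⁻ ξ, F ξ ≤ ∫⁻ ξ, (f ξ + f (R3 ξ)) := by
          refine lintegral_mono fun ξ => ?_
          rcases le_total 0 (ξ 2) with h0 | h0
          · have : f ξ = F ξ := by simp only [hf]; rw [if_pos h0]
            rw [this]
            exact le_self_add
          · have : f (R3 ξ) = F ξ := by
              simp only [hf]
              rw [if_pos, hFR]
              rw [R3_apply, if_pos rfl]
              linarith
            rw [this]
            exact le_add_self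
      _ = 2 * ∫⁻ ξ, f ξ := by
          rw [lintegral_add_left mf, e1, two_mul]
  set Φ : ℝ → E 2 → ℝ≥0∞ := fun B X => K * ∑ i : Fin 2 × Fin 2,
    ww q τ B ‖X‖ * ‖Dd i.1 (kk i.2 h) B X‖ₑ ^ q with hΦ
  have mi : ∀ i : Fin 2 × Fin 2, Measurable fun p : ℝ × E 2 =>
      ww q τ p.1 ‖p.2‖ * ‖Dd i.1 (kk i.2 h) p.1 p.2‖ₑ ^ q := fun i =>
    (ww_meas q τ).mul ((Dd_meas i.1 (kk i.2 h) (hkm i.2)).enorm.pow_const q)
  have mΦ : Measurable (Function.uncurry Φ) := by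
    have : Measurable fun p : ℝ × E 2 => K * ∑ i : Fin 2 × Fin 2,
      ww q τ p.1 ‖p.2‖ * ‖Dd i.1 (kk i.2 h) p.1 p.2‖ₑ ^ q :=
      (Finset.measurable_fun_sum _ fun i _ => mi i).const_mul K
    exact this
  have s2 := par f mf Φ mΦ ?_
  · set m : ℝ≥0∞ := ∫⁻ z, ‖h z‖ₑ ∂(sg 2) with hm
    refine s1.trans ?_
    have hcast : ((2 * (4 * (K.toNNReal * (4 * C))) : ℝ≥0) : ℝ≥0∞) * m =
        2 * (4 * (K * (4 * (C * m)))) := by
      rw [ENNReal.coe_mul, ENNReal.coe_mul, ENNReal.coe_mul, ENNReal.coe_mul,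
        ENNReal.coe_toNNReal hK']
      push_cast
      ring
    rw [hcast]
    refine mul_le_mul' le_rfl (s2.trans ?_)
    have s3 : ∀ B ∈ Ioi (0 : ℝ), ∫⁻ X : E 2, ENNReal.ofReal (1 + B / ‖X‖) * Φ B X ≤
        2 * (K * ∑ i : Fin 2 × Fin 2, ∫⁻ X : E 2, ww q τ B ‖X‖ *
          ‖Dd i.1 (kk i.2 h) B X‖ₑ ^ q) := by
      intro B hB
      have hB0 : (0 : ℝ) < B := hB
      have miB : ∀ i : Fin 2 × Fin 2, Measurable fun X : E 2 =>
          ww q τ B ‖X‖ * ‖Dd i.1 (kk i.2 h) B X‖ₑ ^ q := fun i =>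
        (mi i).comp (measurable_const.prodMk measurable_id)
      calc ∫⁻ X : E 2, ENNReal.ofReal (1 + B / ‖X‖) * Φ B X
          ≤ ∫⁻ X : E 2, (2 * K) * ∑ i : Fin 2 × Fin 2,
              ww q τ B ‖X‖ * ‖Dd i.1 (kk i.2 h) B X‖ₑ ^ q := by
            refine lintegral_mono fun X => ?_
            simp only [hΦ]
            by_cases hle : B ≤ ‖X‖
            · rw [← mul_assoc]
              gcongr
              have h1 : B / ‖X‖ ≤ 1 := (div_le_one (by linarith)).2 hle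
              calc ENNReal.ofReal (1 + B / ‖X‖) ≤ ENNReal.ofReal 2 :=
                    ENNReal.ofReal_le_ofReal (by linarith)
                _ = 2 := by norm_num
            · have hz : ∑ i : Fin 2 × Fin 2, ww q τ B ‖X‖ * ‖Dd i.1 (kk i.2 h) B X‖ₑ ^ q = 0 := by
                apply Finset.sum_eq_zero
                intro i _
                unfold ww
                rw [if_neg hle, zero_mul]
              rw [hz, mul_zero, mul_zero, mul_zero]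
        _ = _ := by
            rw [lintegral_const_mul _ (Finset.measurable_fun_sum _ fun i _ => miB i),
              lintegral_finsetSum _ fun i _ => miB i, mul_assoc]
    have s4 : ∫⁻ B in Ioi (0 : ℝ), ∫⁻ X : E 2, ENNReal.ofReal (1 + B / ‖X‖) * Φ B X ≤
        2 * (K * (4 * (C * m))) := by
      calc _ ≤ ∫⁻ B in Ioi (0 : ℝ), 2 * (K * ∑ i : Fin 2 × Fin 2, ∫⁻ X : E 2, ww q τ B ‖X‖ *
          ‖Dd i.1 (kk i.2 h) B X‖ₑ ^ q) := setLIntegral_mono' measurableSet_Ioi s3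
        _ = 2 * (K * ∑ i : Fin 2 × Fin 2, ∫⁻ B in Ioi (0 : ℝ), ∫⁻ X : E 2, ww q τ B ‖X‖ *
          ‖Dd i.1 (kk i.2 h) B X‖ₑ ^ q) := by
            have mI : ∀ i : Fin 2 × Fin 2, Measurable fun B : ℝ => ∫⁻ X : E 2, ww q τ B ‖X‖ *
              ‖Dd i.1 (kk i.2 h) B X‖ₑ ^ q := fun i => (mi i).lintegral_prod_right'
            rw [lintegral_const_mul _ ((Finset.measurable_fun_sum _ fun i _ => mI i).const_mul K),
              lintegral_const_mul _ (Finset.measurable_fun_sum _ fun i _ => mI i),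
              lintegral_finsetSum _ fun i _ => mI i]
        _ ≤ 2 * (K * ∑ _i : Fin 2 × Fin 2, (C * m : ℝ≥0∞)) := by
            gcongr with i
            refine (hC i.1 (kk i.2 h) (hkm i.2) (hkb i.2)).trans ?_
            gcongr
            exact kk_mass i.2 h hh hodd
        _ = 2 * (K * (4 * (C * m))) := by
            rw [Finset.sum_const, Finset.card_univ, nsmul_eq_mul]
            norm_num
    calc 2 * ∫⁻ B in Ioi (0 : ℝ), ∫⁻ X : E 2, ENNReal.ofReal (1 + B / ‖X‖) * Φ B X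
        ≤ 2 * (2 * (K * (4 * (C * m)))) := by gcongr
      _ = 4 * (K * (4 * (C * m))) := by rw [← mul_assoc]; norm_num
  · intro x hx B hB
    have hx0 : 0 < ‖x‖ := norm_pos_iff.2 hx
    set A : ℝ := ‖x‖ ^ 2 / (4 * B) with hA
    have hA0 : 0 < A := by positivity
    have hAB : 4 * A * B = ‖x‖ ^ 2 := by rw [hA]; field_simp
    set t : ℝ := A - B with ht
    set N : ℝ := A + B with hN
    have hN0 : 0 < N := by positivity
    have hN2 : N ^ 2 = ‖x‖ ^ 2 + t ^ 2 := by rw [← hAB, hN, ht]; ring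
    have hnX : ‖(4 * B)⁻¹ • sq x‖ = A := by
      rw [norm_smul, norm_sq_eq, Real.norm_eq_abs, abs_of_pos (by positivity), hA]
      field_simp
    simp only [hf]
    rw [jj_two]
    split_ifs with h0
    · have hBA : B ≤ A := by rw [ht] at h0; linarith
      have hnj : ‖jj x t‖ = N := by
        have h1 : ‖jj x t‖ ^ 2 = N ^ 2 := by rw [jj_norm, hN2]
        exact (sq_eq_sq₀ (norm_nonneg _) hN0.le).1 h1
      have hT := T_lon_le h hh hb hodd x t B N hB hN0 hN2 (by rw [hN, ht]; ring)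
      simp only [hF, hΦ]
      rw [hnj, hnX]
      have hw : ww q τ B A = ENNReal.ofReal ((1 + A) ^ (τ - q / 2) * (1 + B) ^ (q / 2)) := by
        unfold ww
        rw [if_pos hBA]
      set SS : ℝ≥0∞ := ∑ i : Fin 2 × Fin 2, ‖Dd i.1 (kk i.2 h) B ((4 * B)⁻¹ • sq x)‖ₑ with hSS
      have hρ0 : 0 ≤ ‖x‖ / N := by positivity
      have h5 := wineq A B N (‖x‖ / N) q τ hB hBA rfl hρ0 (by rw [div_pow, hAB]) hq0 hτ0
      calc ENNReal.ofReal ((1 + N) ^ τ) * ‖T (lon h) (jj x t)‖ₑ ^ q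
          ≤ ENNReal.ofReal ((1 + N) ^ τ) * (ENNReal.ofReal (‖x‖ / N) * SS) ^ q := by
            gcongr
        _ = ENNReal.ofReal ((1 + N) ^ τ * (‖x‖ / N) ^ q) * SS ^ q := by
            rw [ENNReal.mul_rpow_of_nonneg _ _ hq0.le, ENNReal.ofReal_rpow_of_nonneg hρ0 hq0.le,
              ← mul_assoc, ← ENNReal.ofReal_mul (by positivity)]
        _ ≤ ENNReal.ofReal (K₀ * ((1 + A) ^ (τ - q / 2) * (1 + B) ^ (q / 2))) *
            ((4 : ℝ≥0∞) ^ q * ∑ i : Fin 2 × Fin 2,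
              ‖Dd i.1 (kk i.2 h) B ((4 * B)⁻¹ • sq x)‖ₑ ^ q) := by
            gcongr
            have := sum_rpow (fun i : Fin 2 × Fin 2 =>
              ‖Dd i.1 (kk i.2 h) B ((4 * B)⁻¹ • sq x)‖ₑ) q hq0
            have hc : (Fintype.card (Fin 2 × Fin 2) : ℝ≥0∞) = 4 := by norm_num
            rw [hc] at this
            exact this
        _ = _ := by
            rw [ENNReal.ofReal_mul hK₀0.le, ← hw, hK, ← Finset.mul_sum]
            ring
    · exact zero_le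

end Pool.Agent.Run7.h58.MV
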