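import Mathlib
import Pool.Agent.Run7.h58.MV.FS
import Pool.Agent.Run7.h58.MV.Odd2
set_option autoImplicit false

/-! The expansion of a density in the height. -/

namespace Pool.Agent.Run7.h58.MV

open MeasureTheory Set Complex Filter Topology
open scoped ENNReal NNReal RealInnerProductSpace ComplexConjugate
open Pool.Agent.H789R2.FR (E sg T sg_finite sg_ae sg_inv polar L2_bound)
open Pool.Agent.H438R2.PD (P1 P1_J P1_meas T_meas' T_le T_comp)

/-- point of the sphere with height `z` and longitude `u` -/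
noncomputable def Ps (z : ℝ) (u : E 2) : E 3 := jj (Real.sqrt (1 - z ^ 2) • u) z

theorem Ps_meas : Measurable fun p : ℝ × E 2 => Ps p.1 p.2 := by
  unfold Ps
  refine jj_meas.comp (Measurable.prodMk ?_ measurable_fst)
  have h1 : Measurable fun p : ℝ × E 2 => Real.sqrt (1 - p.1 ^ 2) :=
    Measurable.sqrt (by fun_prop)
  exact h1.smul measurable_snd

theorem sphere_zu (f : E 3 → ℝ≥0∞) (hf : Measurable f) :
    ∫⁻ x, f x ∂(sg 3) = ∫⁻ z in Ioo (-1 : ℝ) 1, ∫⁻ u, f (Ps z u) ∂(sg 2) := by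
  have hpi := Real.pi_pos
  have hfin := sg_finite 2
  have c0 : Measurable fun η : E 2 => η 0 := by fun_prop
  have c1 : Measurable fun η : E 2 => η 1 := by fun_prop
  have mi : Measurable fun η : E 2 => ∫⁻ u, f (jj (η 0 • u) (η 1)) ∂(sg 2) := by
    apply Measurable.lintegral_prod_right'
      (f := fun q : E 2 × E 2 => f (jj (q.1 0 • q.2) (q.1 1)))
    exact hf.comp (jj_meas.comp (((c0.comp measurable_fst).smul measurable_snd).prodMk
      (c1.comp measurable_fst)))
  rw [sphere_lint f hf, sg_two_angle (fun η : E 2 => ENNReal.ofReal (η 0) *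
    ∫⁻ u, f (jj (η 0 • u) (η 1)) ∂(sg 2)) (c0.ennreal_ofReal.mul mi)]
  set g : ℝ → ℝ≥0∞ := fun τ => ENNReal.ofReal ((cs τ) 0) *
    ∫⁻ u, f (jj ((cs τ) 0 • u) ((cs τ) 1)) ∂(sg 2) with hg
  have hs : ∫⁻ τ in Ioo (-Real.pi) Real.pi, g τ = ∫⁻ τ in Ioo (-(Real.pi / 2)) (Real.pi / 2), g τ := by
    rw [split g (-Real.pi) (-(Real.pi / 2)) Real.pi (by linarith) (by linarith),
      split g (-(Real.pi / 2)) (Real.pi / 2) Real.pi (by linarith) (by linarith)]
    have z1 : ∫⁻ τ in Ioo (-Real.pi) (-(Real.pi / 2)), g τ = 0 := by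
      rw [show (0 : ℝ≥0∞) = ∫⁻ τ in Ioo (-Real.pi) (-(Real.pi / 2)), (0 : ℝ≥0∞) by simp]
      refine setLIntegral_congr_fun measurableSet_Ioo fun τ hτ => ?_
      have hc : Real.cos τ ≤ 0 := by
        rw [← Real.cos_neg]
        exact Real.cos_nonpos_of_pi_div_two_le_of_le (by linarith [hτ.2]) (by linarith [hτ.1])
      simp only [hg]
      rw [cs_zero, ENNReal.ofReal_of_nonpos hc, zero_mul]
    have z2 : ∫⁻ τ in Ioo (Real.pi / 2) Real.pi, g τ = 0 := by
      rw [show (0 : ℝ≥0∞) = ∫⁻ τ in Ioo (Real.pi / 2) Real.pi, (0 : ℝ≥0∞) by simp]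
      refine setLIntegral_congr_fun measurableSet_Ioo fun τ hτ => ?_
      have hc : Real.cos τ ≤ 0 :=
        Real.cos_nonpos_of_pi_div_two_le_of_le (by linarith [hτ.1]) (by linarith [hτ.2])
      simp only [hg]
      rw [cs_zero, ENNReal.ofReal_of_nonpos hc, zero_mul]
    rw [z1, z2, add_zero, zero_add]
  have himg : Real.sin '' Ioo (-(Real.pi / 2)) (Real.pi / 2) = Ioo (-1 : ℝ) 1 := by
    ext y
    constructor
    · rintro ⟨τ, hτ, rfl⟩
      exact Real.mapsTo_sin_Ioo hτ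
    · intro hy
      refine ⟨Real.arcsin y, ⟨Real.neg_pi_div_two_lt_arcsin.2 hy.1,
        Real.arcsin_lt_pi_div_two.2 hy.2⟩, Real.sin_arcsin hy.1.le hy.2.le⟩
  have hsub := lintegral_image_eq_lintegral_abs_deriv_mul
    (s := Ioo (-(Real.pi / 2)) (Real.pi / 2)) (f := Real.sin) (f' := Real.cos) measurableSet_Ioo
    (fun τ _ => (Real.hasDerivAt_sin τ).hasDerivWithinAt)
    (Real.injOn_sin.mono Ioo_subset_Icc_self) (fun z => ∫⁻ u, f (Ps z u) ∂(sg 2))
  rw [himg] at hsub
  have hgoal : ∫⁻ τ in Ioo (-Real.pi) Real.pi, ENNReal.ofReal ((cs τ) 0) *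
    ∫⁻ u, f (jj ((cs τ) 0 • u) ((cs τ) 1)) ∂(sg 2) = ∫⁻ τ in Ioo (-Real.pi) Real.pi, g τ := rfl
  rw [hsub]
  refine Eq.trans ?_ (hs.trans ?_)
  · rfl
  · refine setLIntegral_congr_fun measurableSet_Ioo fun τ hτ => ?_
    have hc : 0 < Real.cos τ := Real.cos_pos_of_mem_Ioo hτ
    simp only [hg, Ps]
    rw [cs_zero, cs_one, abs_of_pos hc, ← Real.cos_sq', Real.sqrt_sq hc.le]

theorem sg_zu : sg 3 = Measure.map (fun p : ℝ × E 2 => Ps p.1 p.2)
    (((volume : Measure ℝ).restrict (Ioo (-1 : ℝ) 1)).prod (sg 2)) := by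
  have hfin := sg_finite 2
  refine Measure.ext_of_lintegral _ fun f hf => ?_
  rw [lintegral_map hf Ps_meas, lintegral_prod (fun p : ℝ × E 2 => f (Ps p.1 p.2))
    (hf.comp Ps_meas).aemeasurable, sphere_zu f hf]

theorem T_zu (g : E 3 → ℂ) (hg : Measurable g) (M : ℝ) (hM : ∀ x, ‖g x‖ ≤ M) (ξ : E 3) :
    T g ξ = ∫ u, (∫ z in Ioo (-1 : ℝ) 1, ee ⟪ξ, Ps z u⟫ * g (Ps z u)) ∂(sg 2) := by
  have hfin := sg_finite 2
  have m1 : Measurable fun w : E 3 => Complex.exp (-((⟪ξ, w⟫ : ℝ) : ℂ) * I) * g w := by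
    have : Measurable fun w : E 3 => (⟪ξ, w⟫ : ℝ) := by fun_prop
    exact (Complex.measurable_exp.comp
      ((Complex.measurable_ofReal.comp this).neg.mul_const I)).mul hg
  unfold T
  rw [sg_zu, integral_map Ps_meas.aemeasurable m1.aestronglyMeasurable, integral_prod_symm]
  · rfl
  · refine Integrable.of_bound (m1.comp Ps_meas).aestronglyMeasurable M
      (Eventually.of_forall fun p => ?_)
    rw [norm_mul]
    have := norm_ee (⟪ξ, Ps p.1 p.2⟫ : ℝ)
    unfold ee at this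
    rw [this, one_mul]
    exact hM _

/-- the density with profile `F` -/
noncomputable def den (F : ℝ → E 2 → ℂ) (x : E 3) : ℂ := F (x 2) (‖P1 2 1 x‖⁻¹ • P1 2 1 x)

theorem den_meas (F : ℝ → E 2 → ℂ) (hF : Measurable (Function.uncurry F)) :
    Measurable (den F) := by
  have h1 : Measurable fun x : E 3 => ((x 2, ‖P1 2 1 x‖⁻¹ • P1 2 1 x) : ℝ × E 2) :=
    (by fun_prop : Measurable fun x : E 3 => x 2).prodMk
      ((P1_meas 2 1).norm.inv.smul (P1_meas 2 1))
  exact hF.comp h1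

theorem den_Ps (F : ℝ → E 2 → ℂ) (z : ℝ) (hz : z ∈ Ioo (-1 : ℝ) 1) (u : E 2) (hu : ‖u‖ = 1) :
    den F (Ps z u) = F z u := by
  have hr : 0 < Real.sqrt (1 - z ^ 2) := by
    apply Real.sqrt_pos.2
    nlinarith [hz.1, hz.2]
  have e : P1 2 1 (jj (Real.sqrt (1 - z ^ 2) • u) z) = Real.sqrt (1 - z ^ 2) • u := P1_J _ _
  unfold den Ps
  rw [e, jj_two, norm_smul, hu, mul_one, Real.norm_eq_abs, abs_of_pos hr, smul_smul,
    inv_mul_cancel₀ hr.ne', one_smul]

theorem lon_Ps (h : E 2 → ℂ) (z : ℝ) (hz : z ∈ Ioo (-1 : ℝ) 1) (u : E 2) (hu : ‖u‖ = 1) :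
    lon h (Ps z u) = h u := den_Ps (fun _ => h) z hz u hu

/-- unit vector of the axis -/
noncomputable def e3 : E 3 := jj 0 1

theorem e3_inner (z : ℝ) (u : E 2) : (⟪e3, Ps z u⟫ : ℝ) = z := by
  unfold e3 Ps
  rw [jj_inner, inner_zero_left]
  ring

/-- coefficient -/
noncomputable def mb (F : ℝ → E 2 → ℂ) (b : ℤ) (u : E 2) : ℂ := cF (fun z => F z u) b

theorem mb_meas (F : ℝ → E 2 → ℂ) (hF : Measurable (Function.uncurry F)) (b : ℤ) :
    Measurable (mb F b) := by
  unfold mb cF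
  refine Measurable.const_mul ?_ _
  have m1 : Measurable fun p : E 2 × ℝ => ee (Real.pi / 2 * b * p.2) * F p.2 p.1 := by
    have m2 : Measurable fun p : E 2 × ℝ => Real.pi / 2 * b * p.2 := by fun_prop
    exact (ee_cont.measurable.comp m2).mul (hF.comp (measurable_snd.prodMk measurable_fst))
  exact (m1.stronglyMeasurable.integral_prod_right'
    (ν := (volume : Measure ℝ).restrict (Ioc (-2 : ℝ) 2))).measurable

theorem cF_le (g : ℝ → ℂ) (M : ℝ) (hM : ∀ z, ‖g z‖ ≤ M) (b : ℤ) : ‖cF g b‖ ≤ M := by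
  unfold cF
  rw [norm_mul]
  have h1 := norm_setIntegral_le_of_norm_le_const (μ := (volume : Measure ℝ))
    (s := Ioc (-2 : ℝ) 2) (f := fun z => ee (Real.pi / 2 * b * z) * g z) (C := M)
    (by rw [Real.volume_Ioc]; exact ENNReal.ofReal_lt_top)
    (fun z _ => by rw [norm_mul, norm_ee, one_mul]; exact hM z)
  have h2 : (volume : Measure ℝ).real (Ioc (-2 : ℝ) 2) = 4 := by
    rw [measureReal_def, Real.volume_Ioc]
    norm_num
  rw [h2] at h1
  have h3 : ‖(1 / 4 : ℂ)‖ = 1 / 4 := by norm_num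
  rw [h3]
  linarith

theorem expand (F : ℝ → E 2 → ℂ) (hF : Measurable (Function.uncurry F))
    (hb : ∀ z u, ‖F z u‖ ≤ 1) (G : E 3 → ℂ) (hG : Measurable G) (hGb : ∀ x, ‖G x‖ ≤ 1)
    (ξ : E 3) :
    Tendsto (fun N : ℕ => ∑ b ∈ Finset.Icc (-(N : ℤ)) N,
      T (fun x => lon (mb F b) x * G x) (ξ - (Real.pi / 2 * b) • e3)) atTop
      (𝓝 (T (fun x => den F x * G x) ξ)) := by
  have hfin := sg_finite 2
  -- the second factor
  set e : E 2 → ℝ → ℂ := fun u => (Ioo (-1 : ℝ) 1).indicator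
    (fun z => ee ⟪ξ, Ps z u⟫ * G (Ps z u)) with he
  have m0 : Measurable fun p : E 2 × ℝ => ee ⟪ξ, Ps p.2 p.1⟫ * G (Ps p.2 p.1) := by
    have m1 : Measurable fun p : E 2 × ℝ => Ps p.2 p.1 :=
      Ps_meas.comp (measurable_snd.prodMk measurable_fst)
    exact (ee_cont.measurable.comp (measurable_const.inner m1)).mul (hG.comp m1)
  have me2 : Measurable fun p : E 2 × ℝ => e p.1 p.2 := by
    have : (fun p : E 2 × ℝ => e p.1 p.2) = (univ ×ˢ Ioo (-1 : ℝ) 1 : Set (E 2 × ℝ)).indicator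
        (fun p => ee ⟪ξ, Ps p.2 p.1⟫ * G (Ps p.2 p.1)) := by
      funext p
      simp only [he]
      by_cases hp : p.2 ∈ Ioo (-1 : ℝ) 1
      · rw [indicator_of_mem hp, indicator_of_mem]
        exact ⟨mem_univ _, hp⟩
      · rw [indicator_of_notMem hp, indicator_of_notMem]
        exact fun h => hp h.2
    rw [this]
    exact m0.indicator (MeasurableSet.univ.prod measurableSet_Ioo)
  have me : ∀ u, Measurable (e u) := fun u => me2.comp (measurable_const.prodMk measurable_id)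
  have be : ∀ u z, ‖e u z‖ ≤ 1 := by
    intro u z
    simp only [he]
    by_cases hz : z ∈ Ioo (-1 : ℝ) 1
    · rw [indicator_of_mem hz, norm_mul, norm_ee, one_mul]
      exact hGb _
    · rw [indicator_of_notMem hz, norm_zero]
      exact zero_le_one
  have mFu : ∀ u, Measurable fun z => F z u := fun u =>
    hF.comp (measurable_id.prodMk measurable_const)
  -- restriction to the interval
  have hres : ∀ (k : ℝ → ℂ) (u : E 2), ∫ z in Ioc (-2 : ℝ) 2, k z * e u z =
      ∫ z in Ioo (-1 : ℝ) 1, k z * (ee ⟪ξ, Ps z u⟫ * G (Ps z u)) := by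
    intro k u
    have h1 : ∀ z, k z * e u z = (Ioo (-1 : ℝ) 1).indicator
        (fun z => k z * (ee ⟪ξ, Ps z u⟫ * G (Ps z u))) z := by
      intro z
      simp only [he]
      by_cases hz : z ∈ Ioo (-1 : ℝ) 1
      · rw [indicator_of_mem hz, indicator_of_mem hz]
      · rw [indicator_of_notMem hz, indicator_of_notMem hz, mul_zero]
    simp only [h1]
    rw [setIntegral_indicator measurableSet_Ioo]
    congr 2
    rw [inter_eq_right]
    intro z hz
    exact ⟨by linarith [hz.1], by linarith [hz.2]⟩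
  have hT : T (fun x => den F x * G x) ξ =
      ∫ u, (∫ z in Ioc (-2 : ℝ) 2, F z u * e u z) ∂(sg 2) := by
    rw [T_zu (fun x => den F x * G x) ((den_meas F hF).mul hG) 1 (fun x => ?_)]
    · refine integral_congr_ae ?_
      filter_upwards [sg_ae 2] with u hu
      rw [hres]
      refine setIntegral_congr_fun measurableSet_Ioo fun z hz => ?_
      rw [den_Ps F z hz u hu]
      ring
    · rw [norm_mul]
      exact mul_le_one₀ (hb _ _) (norm_nonneg _) (hGb _)
  have hTb : ∀ b : ℤ, T (fun x => lon (mb F b) x * G x) (ξ - (Real.pi / 2 * b) • e3) =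
      ∫ u, mb F b u * (∫ z in Ioc (-2 : ℝ) 2, ee (-(Real.pi / 2 * b * z)) * e u z) ∂(sg 2) := by
    intro b
    rw [T_zu (fun x => lon (mb F b) x * G x) ((lon_meas _ (mb_meas F hF b)).mul hG) 1
      (fun x => ?_)]
    · refine integral_congr_ae ?_
      filter_upwards [sg_ae 2] with u hu
      rw [hres, ← integral_const_mul]
      refine setIntegral_congr_fun measurableSet_Ioo fun z hz => ?_
      rw [lon_Ps _ z hz u hu, inner_sub_left, real_inner_smul_left, e3_inner, sub_eq_add_neg,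
        ee_add]
      ring
    · rw [norm_mul]
      exact mul_le_one₀ (cF_le _ 1 (fun z => hb z _) b) (norm_nonneg _) (hGb _)
  have mI : ∀ b : ℤ, Measurable fun u : E 2 =>
      ∫ z in Ioc (-2 : ℝ) 2, ee (-(Real.pi / 2 * b * z)) * e u z := by
    intro b
    have m3 : Measurable fun p : E 2 × ℝ => ee (-(Real.pi / 2 * b * p.2)) * e p.1 p.2 := by
      have m4 : Measurable fun p : E 2 × ℝ => -(Real.pi / 2 * b * p.2) := by fun_prop
      exact (ee_cont.measurable.comp m4).mul me2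
    exact (m3.stronglyMeasurable.integral_prod_right'
      (ν := (volume : Measure ℝ).restrict (Ioc (-2 : ℝ) 2))).measurable
  have bI : ∀ (b : ℤ) (u : E 2),
      ‖∫ z in Ioc (-2 : ℝ) 2, ee (-(Real.pi / 2 * b * z)) * e u z‖ ≤ 4 := by
    intro b u
    have h1 := norm_setIntegral_le_of_norm_le_const (μ := (volume : Measure ℝ))
      (s := Ioc (-2 : ℝ) 2) (f := fun z => ee (-(Real.pi / 2 * b * z)) * e u z) (C := 1)
      (by rw [Real.volume_Ioc]; exact ENNReal.ofReal_lt_top)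
      (fun z _ => by rw [norm_mul, norm_ee, one_mul]; exact be u z)
    have h2 : (volume : Measure ℝ).real (Ioc (-2 : ℝ) 2) = 4 := by
      rw [measureReal_def, Real.volume_Ioc]
      norm_num
    rw [h2] at h1
    linarith
  have hS : ∀ N : ℕ, ∑ b ∈ Finset.Icc (-(N : ℤ)) N,
      T (fun x => lon (mb F b) x * G x) (ξ - (Real.pi / 2 * b) • e3) =
      ∫ u, (∑ b ∈ Finset.Icc (-(N : ℤ)) N, mb F b u *
        ∫ z in Ioc (-2 : ℝ) 2, ee (-(Real.pi / 2 * b * z)) * e u z) ∂(sg 2) := by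
    intro N
    rw [integral_finsetSum]
    · exact Finset.sum_congr rfl fun b _ => hTb b
    · intro b _
      refine Integrable.of_bound ((mb_meas F hF b).mul (mI b)).aestronglyMeasurable (1 * 4)
        (Eventually.of_forall fun u => ?_)
      rw [norm_mul]
      exact mul_le_mul (cF_le _ 1 (fun z => hb z _) b) (bI b u) (norm_nonneg _) zero_le_one
  simp only [hS]
  rw [hT]
  refine tendsto_integral_of_dominated_convergence (fun _ => (4 : ℝ) * (1 * 1)) ?_
    (integrable_const _) ?_ ?_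
  · intro N
    exact (Finset.measurable_fun_sum _ fun b _ => (mb_meas F hF b).mul (mI b)).aestronglyMeasurable
  · intro N
    refine Eventually.of_forall fun u => ?_
    exact (fs (fun z => F z u) (e u) (mFu u) (me u) 1 1 (fun z => hb z u) (be u)).2 N
  · refine Eventually.of_forall fun u => ?_
    exact (fs (fun z => F z u) (e u) (mFu u) (me u) 1 1 (fun z => hb z u) (be u)).1

end Pool.Agent.Run7.h58.MV
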