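import Mathlib
import Pool.Agent.Run7.h58.MV.Exp
set_option autoImplicit false

/-! Decay of the coefficients, superposition of shifted functions. -/

namespace Pool.Agent.Run7.h58.MV

open MeasureTheory Set Complex Filter Topology
open scoped ENNReal NNReal RealInnerProductSpace ComplexConjugate
open Pool.Agent.H789R2.FR (E sg T sg_finite sg_ae sg_inv)

theorem cF_line (g : ℝ → ℂ) (h0 : ∀ z, z ∉ Ioo (-1 : ℝ) 1 → g z = 0) (b : ℤ) :
    cF g b = (1 / 4 : ℂ) * ∫ z : ℝ, ee (Real.pi / 2 * b * z) * g z := by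
  unfold cF
  congr 1
  apply setIntegral_eq_integral_of_forall_compl_eq_zero
  intro z hz
  rw [h0 z (fun h => hz ⟨by linarith [h.1], by linarith [h.2]⟩), mul_zero]

theorem ee_pi : ee Real.pi = -1 := by
  unfold ee
  rw [neg_mul, Complex.exp_neg, Complex.exp_pi_mul_I]
  norm_num

theorem int_of_supp (g : ℝ → ℂ) (hg : Measurable g) (hb : ∀ z, ‖g z‖ ≤ 1)
    (h0 : ∀ z, z ∉ Ioo (-1 : ℝ) 1 → g z = 0) (k : ℝ → ℂ) (hk : Measurable k)
    (hkb : ∀ z, ‖k z‖ ≤ 1) : Integrable (fun z => k z * g z) := by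
  have h1 : IntegrableOn (fun z => k z * g z) (Ioo (-1 : ℝ) 1) := by
    refine Integrable.of_bound (hk.mul hg).aestronglyMeasurable 1 (Eventually.of_forall fun z => ?_)
    rw [norm_mul]
    exact mul_le_one₀ (hkb z) (norm_nonneg _) (hb z)
  rwa [integrableOn_iff_integrable_of_support_subset] at h1
  intro z hz
  by_contra hn
  exact hz (by simp only [h0 z hn, mul_zero])

/-- decay of the coefficients from the `L^1` modulus of continuity -/
theorem cF_decay (γ : ℝ) (hγ0 : 0 < γ) (hγ1 : γ ≤ 1) (g : ℝ → ℂ) (hg : Measurable g)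
    (hb : ∀ z, ‖g z‖ ≤ 1) (h0 : ∀ z, z ∉ Ioo (-1 : ℝ) 1 → g z = 0)
    (hm : ∀ h : ℝ, ∫⁻ z, ‖g (z + h) - g z‖ₑ ≤ ENNReal.ofReal (|h| ^ γ)) (b : ℤ) :
    ‖cF g b‖ ≤ (1 + |(b : ℝ)|) ^ (-γ) := by
  rcases eq_or_ne b 0 with rfl | hb0
  · simp only [Int.cast_zero, abs_zero, add_zero, Real.one_rpow]
    exact cF_le g 1 hb 0
  have hbr : (b : ℝ) ≠ 0 := by exact_mod_cast hb0
  have hb1 : (1 : ℝ) ≤ |(b : ℝ)| := by
    have : 1 ≤ |b| := Int.one_le_abs hb0
    exact_mod_cast this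
  set h : ℝ := 2 / b with hh
  set k : ℝ → ℂ := fun z => ee (Real.pi / 2 * b * z) with hk
  have hkm : Measurable k := ee_cont.measurable.comp (by fun_prop)
  have hkb : ∀ z, ‖k z‖ ≤ 1 := fun z => (norm_ee _).le
  have hkh : ∀ z, k (z + h) = -k z := by
    intro z
    simp only [hk]
    rw [mul_add, ee_add]
    have : Real.pi / 2 * b * h = Real.pi := by rw [hh]; field_simp
    rw [this, ee_pi]
    ring
  have hi1 : Integrable (fun z => k z * g z) := int_of_supp g hg hb h0 k hkm hkb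
  have hi2 : Integrable (fun z => k (z + h) * g (z + h)) := hi1.comp_add_right h
  have e1 : ∫ z, k (z + h) * g (z + h) = ∫ z, k z * g z :=
    integral_add_right_eq_self (fun z => k z * g z) h
  have e2 : 2 * ∫ z, k z * g z = ∫ z, -(k z * (g (z + h) - g z)) := by
    rw [two_mul]
    nth_rewrite 2 [← e1]
    rw [← integral_add hi1 hi2]
    refine integral_congr_ae (Eventually.of_forall fun z => ?_)
    simp only
    rw [hkh]
    ring
  have e3 : ‖2 * ∫ z, k z * g z‖ ≤ |h| ^ γ := by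
    have h1 : ‖2 * ∫ z, k z * g z‖ₑ ≤ ENNReal.ofReal (|h| ^ γ) := by
      rw [e2]
      refine (enorm_integral_le_lintegral_enorm _).trans ?_
      refine le_trans (le_of_eq ?_) (hm h)
      refine lintegral_congr fun z => ?_
      rw [enorm_neg, enorm_mul]
      have : ‖k z‖ₑ = 1 := by
        rw [← ofReal_norm, hk]
        simp only
        rw [norm_ee, ENNReal.ofReal_one]
      rw [this, one_mul]
    rw [← ofReal_norm] at h1
    exact (ENNReal.ofReal_le_ofReal_iff (by positivity)).1 h1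
  rw [norm_mul] at e3
  have n2 : ‖(2 : ℂ)‖ = 2 := by norm_num
  rw [n2] at e3
  rw [cF_line g h0 b, norm_mul]
  have n4 : ‖(1 / 4 : ℂ)‖ = 1 / 4 := by norm_num
  rw [n4]
  have e4 : |h| ^ γ ≤ 4 * (1 + |(b : ℝ)|) ^ (-γ) := by
    have hle : |h| ≤ 4 * (1 + |(b : ℝ)|)⁻¹ := by
      rw [hh, abs_div, abs_of_pos (by norm_num : (0 : ℝ) < 2), ← div_eq_mul_inv,
        div_le_div_iff₀ (by linarith) (by linarith)]
      linarith
    calc |h| ^ γ ≤ (4 * (1 + |(b : ℝ)|)⁻¹) ^ γ := Real.rpow_le_rpow (abs_nonneg _) hle hγ0.le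
      _ = 4 ^ γ * (1 + |(b : ℝ)|) ^ (-γ) := by
          rw [Real.mul_rpow (by norm_num) (by positivity), Real.inv_rpow (by positivity),
            Real.rpow_neg (by positivity)]
      _ ≤ 4 * (1 + |(b : ℝ)|) ^ (-γ) := by
          gcongr
          calc (4 : ℝ) ^ γ ≤ 4 ^ (1 : ℝ) := Real.rpow_le_rpow_of_exponent_le (by norm_num) hγ1
            _ = 4 := Real.rpow_one 4
  have hpos : 0 < (1 + |(b : ℝ)|) ^ (-γ) := by positivity
  have e5 : ‖∫ z, k z * g z‖ ≤ 2 * (1 + |(b : ℝ)|) ^ (-γ) := by linarith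
  calc 1 / 4 * ‖∫ z : ℝ, ee (Real.pi / 2 * b * z) * g z‖ ≤
        1 / 4 * (2 * (1 + |(b : ℝ)|) ^ (-γ)) := by gcongr
    _ ≤ _ := by linarith

/-! ### Sums -/

theorem sumZ (p : ℝ) (hp : 1 < p) :
    ∑' b : ℤ, ENNReal.ofReal ((1 + |(b : ℝ)|) ^ (-p)) ≠ ⊤ := by
  have h1 := (Real.summable_one_div_int_add_rpow (1 / 2) p).2 hp
  have h2 : Summable fun b : ℤ => (1 + |(b : ℝ)|) ^ (-p) := by
    refine Summable.of_nonneg_of_le (fun b => by positivity) (fun b => ?_) h1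
    have hne : (b : ℝ) + 1 / 2 ≠ 0 := by
      intro h
      have h3 : (2 * b + 1 : ℤ) = 0 := by
        have : (2 : ℝ) * b + 1 = 0 := by linarith
        exact_mod_cast this
      omega
    have hpos : 0 < |(b : ℝ) + 1 / 2| := abs_pos.2 hne
    rw [Real.rpow_neg (by positivity), one_div]
    apply inv_anti₀ (by positivity)
    apply Real.rpow_le_rpow hpos.le _ (by linarith)
    have := abs_add_le (b : ℝ) (1 / 2)
    rw [abs_of_pos (by norm_num : (0 : ℝ) < 1 / 2)] at this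
    linarith
  exact h2.tsum_ofReal_ne_top

theorem sumb (s t : ℝ) (hs : 0 ≤ s) (ht : 0 ≤ t) (hst : 1 < s + t) : ∃ C : ℝ≥0, ∀ P : ℝ,
    ∑' b : ℤ, ENNReal.ofReal ((1 + |(b : ℝ)|) ^ (-s) * (1 + |P - Real.pi / 2 * b|) ^ (-t)) ≤ C := by
  set p : ℝ := s + t with hp
  have hp0 : 0 < p := by linarith
  set S : ℝ≥0∞ := ∑' b : ℤ, ENNReal.ofReal ((1 + |(b : ℝ)|) ^ (-p)) with hS
  have hS' : S ≠ ⊤ := sumZ p hst
  have h4 : ENNReal.ofReal (4 ^ p) * S ≠ ⊤ := ENNReal.mul_ne_top ENNReal.ofReal_ne_top hS'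
  refine ⟨(S + ENNReal.ofReal (4 ^ p) * S).toNNReal, fun P => ?_⟩
  rw [ENNReal.coe_toNNReal (ENNReal.add_ne_top.2 ⟨hS', h4⟩)]
  have hpi3 := Real.pi_gt_three
  have hpi4 := Real.pi_lt_d2
  set β : ℝ := Real.pi / 2 with hβ
  have hβ1 : 1.5 ≤ β := by rw [hβ]; linarith
  have hβ2 : β ≤ 1.6 := by rw [hβ]; linarith
  -- each term
  have t1 : ∀ b : ℤ, ENNReal.ofReal ((1 + |(b : ℝ)|) ^ (-s) * (1 + |P - β * b|) ^ (-t)) ≤
      ENNReal.ofReal ((1 + |(b : ℝ)|) ^ (-p)) + ENNReal.ofReal ((1 + |P - β * b|) ^ (-p)) := by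
    intro b
    set x : ℝ := 1 + |(b : ℝ)| with hx
    set y : ℝ := 1 + |P - β * b| with hy
    have hx0 : 0 < x := by positivity
    have hy0 : 0 < y := by positivity
    rcases le_total x y with h | h
    · refine le_trans (ENNReal.ofReal_le_ofReal ?_) le_self_add
      have h1 : y ^ (-t) ≤ x ^ (-t) := Real.rpow_le_rpow_of_nonpos hx0 h (by linarith)
      calc x ^ (-s) * y ^ (-t) ≤ x ^ (-s) * x ^ (-t) := by gcongr
        _ = x ^ (-p) := by rw [← Real.rpow_add hx0]; congr 1; rw [hp]; ring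
    · refine le_trans (ENNReal.ofReal_le_ofReal ?_) le_add_self
      have h1 : x ^ (-s) ≤ y ^ (-s) := Real.rpow_le_rpow_of_nonpos hy0 h (by linarith)
      calc x ^ (-s) * y ^ (-t) ≤ y ^ (-s) * y ^ (-t) := by gcongr
        _ = y ^ (-p) := by rw [← Real.rpow_add hy0]; congr 1; rw [hp]; ring
  set b₀ : ℤ := round (P / β) with hb₀
  have t2 : ∀ b : ℤ, ENNReal.ofReal ((1 + |P - β * b|) ^ (-p)) ≤
      ENNReal.ofReal (4 ^ p) * ENNReal.ofReal ((1 + |((b - b₀ : ℤ) : ℝ)|) ^ (-p)) := by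
    intro b
    rw [← ENNReal.ofReal_mul (by positivity)]
    apply ENNReal.ofReal_le_ofReal
    have h1 : |P / β - b₀| ≤ 1 / 2 := abs_sub_round _
    have hβ0 : 0 < β := by linarith
    have h2 : P = β * (P / β) := by field_simp
    have h3 : |P - β * b| = β * |P / β - b| := by
      conv_lhs => rw [h2]
      rw [← mul_sub, abs_mul, abs_of_pos hβ0]
    have h5 : |((b - b₀ : ℤ) : ℝ)| ≤ |P / β - b| + 1 / 2 := by
      push_cast
      have := abs_sub_le (b : ℝ) (P / β) b₀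
      rw [abs_sub_comm (b : ℝ) (P / β)] at this
      linarith
    set m : ℝ := |((b - b₀ : ℤ) : ℝ)| with hm
    have hm0 : 0 ≤ m := abs_nonneg _
    set d : ℝ := |P / β - b| with hd
    have hd0 : 0 ≤ d := abs_nonneg _
    have h6 : (1 + m) / 4 ≤ 1 + |P - β * b| := by
      rw [h3]
      nlinarith
    have h7 : (1 + |P - β * b|) ^ (-p) ≤ ((1 + m) / 4) ^ (-p) :=
      Real.rpow_le_rpow_of_nonpos (by positivity) h6 (by linarith)
    refine h7.trans (le_of_eq ?_)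
    rw [Real.div_rpow (by positivity) (by norm_num), Real.rpow_neg (by norm_num : (0 : ℝ) ≤ 4),
      div_inv_eq_mul, mul_comm]
  calc ∑' b : ℤ, ENNReal.ofReal ((1 + |(b : ℝ)|) ^ (-s) * (1 + |P - β * b|) ^ (-t))
      ≤ ∑' b : ℤ, (ENNReal.ofReal ((1 + |(b : ℝ)|) ^ (-p)) +
        ENNReal.ofReal (4 ^ p) * ENNReal.ofReal ((1 + |((b - b₀ : ℤ) : ℝ)|) ^ (-p))) :=
        ENNReal.tsum_le_tsum fun b => (t1 b).trans (add_le_add le_rfl (t2 b))
    _ = S + ENNReal.ofReal (4 ^ p) * S := by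
        rw [ENNReal.tsum_add, ENNReal.tsum_mul_left]
        congr 2
        exact (Equiv.subRight b₀).tsum_eq (fun b : ℤ => ENNReal.ofReal ((1 + |(b : ℝ)|) ^ (-p)))

/-- Hölder's inequality for superpositions of shifted functions -/
theorem superpos (q κ γ c : ℝ) (hq : 1 < q) (hκ : 0 ≤ κ) (hγ : 1 / q < γ) (hγκ : 1 < γ + κ)
    (hc : 0 ≤ c) : ∃ C : ℝ≥0, ∀ (ω : E 3 → ℝ≥0∞) (K : ℤ → E 3 → ℂ) (w : ℤ → ℂ) (e : E 3)
    (p : E 3 → ℝ) (A : ℝ≥0∞), Measurable ω → (∀ b, Measurable (K b)) → Measurable p →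
    (∀ b : ℤ, ‖w b‖ ≤ c * (1 + |(b : ℝ)|) ^ (-γ)) → (∀ (ξ : E 3) (t : ℝ), ω (ξ - t • e) = ω ξ) →
    (∀ (ξ : E 3) (t : ℝ), p (ξ - t • e) = p ξ - t) →
    (∀ b, ∫⁻ ξ, ω ξ * (ENNReal.ofReal ((1 + |p ξ|) ^ (κ * q)) * ‖K b ξ‖ₑ ^ q) ≤ A) →
    ∀ N : ℕ, ∫⁻ ξ, ω ξ * ‖∑ b ∈ Finset.Icc (-(N : ℤ)) N,
      w b * K b (ξ - (Real.pi / 2 * b) • e)‖ₑ ^ q ≤ C * A := by
  have hq0 : 0 < q := by linarith
  set δ : ℝ := min (γ + κ - 1) (γ - 1 / q) / 2 with hδ
  have hδ0 : 0 < δ := by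
    rw [hδ]
    have : 0 < min (γ + κ - 1) (γ - 1 / q) := lt_min (by linarith) (by linarith)
    linarith
  have hδ1 : δ < γ + κ - 1 := by
    have h1 : min (γ + κ - 1) (γ - 1 / q) ≤ γ + κ - 1 := min_le_left _ _
    have h2 : 2 * δ = min (γ + κ - 1) (γ - 1 / q) := by rw [hδ]; ring
    linarith
  have hδ2 : δ < γ - 1 / q := by
    have h1 : min (γ + κ - 1) (γ - 1 / q) ≤ γ - 1 / q := min_le_right _ _
    have h2 : 2 * δ = min (γ + κ - 1) (γ - 1 / q) := by rw [hδ]; ring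
    linarith
  set a : ℝ := 1 / q + δ with ha
  set s : ℝ := γ - a with hs
  have hs0 : 0 ≤ s := by rw [hs, ha]; linarith
  have haq : 1 < a * q := by
    rw [ha, add_mul, one_div_mul_cancel hq0.ne']
    have : 0 < δ * q := by positivity
    linarith
  have hpq : q.HolderConjugate (Real.conjExponent q) := Real.HolderConjugate.conjExponent hq
  set q' : ℝ := Real.conjExponent q with hq'
  have hq'0 : 0 < q' := hpq.symm.pos
  have hconj : 1 / q + 1 / q' = 1 := by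
    have := hpq.inv_add_inv_eq_one
    rwa [← one_div, ← one_div] at this
  have hsum : 1 < s * q' + κ * q' := by
    rw [← add_mul]
    have h1 : 1 - 1 / q < s + κ := by rw [hs, ha]; linarith
    have h2 : 1 / q' < s + κ := by linarith
    rwa [div_lt_iff₀ hq'0] at h2
  obtain ⟨C1, hC1⟩ := sumb (s * q') (κ * q') (by positivity) (by positivity) hsum
  set S : ℝ≥0∞ := ∑' b : ℤ, ENNReal.ofReal ((1 + |(b : ℝ)|) ^ (-(a * q))) with hS
  have hS' : S ≠ ⊤ := sumZ _ haq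
  set D : ℝ≥0∞ := ENNReal.ofReal c ^ q * ((C1 : ℝ≥0∞) ^ (1 / q' * q) * S) with hD
  have hD' : D ≠ ⊤ := by
    rw [hD]
    exact ENNReal.mul_ne_top (ENNReal.rpow_ne_top_of_nonneg hq0.le ENNReal.ofReal_ne_top)
      (ENNReal.mul_ne_top (ENNReal.rpow_ne_top_of_nonneg (by positivity) ENNReal.coe_ne_top) hS')
  refine ⟨D.toNNReal, fun ω K w e p A hω hK hp hw hωe hpe hA N => ?_⟩
  rw [ENNReal.coe_toNNReal hD']
  set β : ℝ := Real.pi / 2 with hβ
  set I : Finset ℤ := Finset.Icc (-(N : ℤ)) N with hI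
  -- the functions
  set V : ℝ → ℤ → ℝ≥0∞ := fun P b =>
    ENNReal.ofReal ((1 + |(b : ℝ)|) ^ (-s) * (1 + |P - β * b|) ^ (-κ)) with hV
  set Y : E 3 → ℤ → ℝ≥0∞ := fun ξ b =>
    ENNReal.ofReal ((1 + |(b : ℝ)|) ^ (-a) * (1 + |p ξ - β * b|) ^ κ) *
      ‖K b (ξ - (β * b) • e)‖ₑ with hY
  have key : ∀ ξ, ‖∑ b ∈ I, w b * K b (ξ - (β * b) • e)‖ₑ ^ q ≤
      ENNReal.ofReal c ^ q * ((C1 : ℝ≥0∞) ^ (1 / q' * q) * ∑ b ∈ I, Y ξ b ^ q) := by
    intro ξ
    have h1 : ‖∑ b ∈ I, w b * K b (ξ - (β * b) • e)‖ₑ ≤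
        ENNReal.ofReal c * ∑ b ∈ I, V (p ξ) b * Y ξ b := by
      refine (enorm_sum_le _ _).trans ?_
      rw [Finset.mul_sum]
      refine Finset.sum_le_sum fun b _ => ?_
      rw [enorm_mul]
      simp only [hV, hY]
      set x : ℝ := 1 + |(b : ℝ)| with hx
      set y : ℝ := 1 + |p ξ - β * b| with hy
      have hx0 : 0 < x := by positivity
      have hy0 : 0 < y := by positivity
      rw [← mul_assoc (ENNReal.ofReal (x ^ (-s) * y ^ (-κ))), ← mul_assoc,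
        ← ENNReal.ofReal_mul (by positivity), ← ENNReal.ofReal_mul hc]
      gcongr
      rw [← ofReal_norm]
      apply ENNReal.ofReal_le_ofReal
      refine (hw b).trans (le_of_eq ?_)
      have e1 : x ^ (-γ) = x ^ (-s) * x ^ (-a) := by
        rw [← Real.rpow_add hx0]; congr 1; rw [hs]; ring
      have e2 : y ^ (-κ) * y ^ κ = 1 := by
        rw [← Real.rpow_add hy0, neg_add_cancel, Real.rpow_zero]
      calc c * x ^ (-γ) = c * (x ^ (-s) * x ^ (-a)) * (y ^ (-κ) * y ^ κ) := by rw [e1, e2, mul_one]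
        _ = _ := by ring
    have h2 := ENNReal.inner_le_Lp_mul_Lq I (fun b => Y ξ b) (fun b => V (p ξ) b) hpq
    have h3 : ∑ b ∈ I, V (p ξ) b * Y ξ b ≤ (∑ b ∈ I, Y ξ b ^ q) ^ (1 / q) *
        (C1 : ℝ≥0∞) ^ (1 / q') := by
      calc ∑ b ∈ I, V (p ξ) b * Y ξ b = ∑ b ∈ I, Y ξ b * V (p ξ) b :=
            Finset.sum_congr rfl fun b _ => mul_comm _ _
        _ ≤ _ := h2
        _ ≤ _ := by
            gcongr
            refine le_trans ?_ (hC1 (p ξ))
            refine le_trans (Finset.sum_le_sum fun b _ => ?_) (ENNReal.sum_le_tsum I)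
            simp only [hV]
            rw [ENNReal.ofReal_rpow_of_nonneg (by positivity) hq'0.le,
              Real.mul_rpow (by positivity) (by positivity), ← Real.rpow_mul (by positivity),
              ← Real.rpow_mul (by positivity), neg_mul, neg_mul]
    calc ‖∑ b ∈ I, w b * K b (ξ - (β * b) • e)‖ₑ ^ q
        ≤ (ENNReal.ofReal c * ((∑ b ∈ I, Y ξ b ^ q) ^ (1 / q) * (C1 : ℝ≥0∞) ^ (1 / q'))) ^ q := by
          apply ENNReal.rpow_le_rpow _ hq0.le
          refine h1.trans ?_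
          gcongr
      _ = _ := by
          rw [ENNReal.mul_rpow_of_nonneg _ _ hq0.le, ENNReal.mul_rpow_of_nonneg _ _ hq0.le,
            ← ENNReal.rpow_mul, ← ENNReal.rpow_mul, one_div_mul_cancel hq0.ne', ENNReal.rpow_one,
            mul_comm (∑ b ∈ I, Y ξ b ^ q)]
  -- measurability
  have mY : ∀ b, Measurable fun ξ => Y ξ b := by
    intro b
    simp only [hY]
    refine Measurable.mul (Measurable.ennreal_ofReal ?_) ((hK b).comp (by fun_prop)).enorm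
    exact ((measurable_const.add (hp.sub_const _).abs).pow_const κ).const_mul _
  have mZ : ∀ b, Measurable fun ξ => ω ξ * Y ξ b ^ q := fun b => hω.mul ((mY b).pow_const q)
  have sY : ∀ b : ℤ, ∫⁻ ξ, ω ξ * Y ξ b ^ q ≤
      ENNReal.ofReal ((1 + |(b : ℝ)|) ^ (-(a * q))) * A := by
    intro b
    have e1 : ∀ ξ, ω ξ * Y ξ b ^ q = ENNReal.ofReal ((1 + |(b : ℝ)|) ^ (-(a * q))) *
        (fun ζ => ω ζ * (ENNReal.ofReal ((1 + |p ζ|) ^ (κ * q)) * ‖K b ζ‖ₑ ^ q))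
          (ξ - (β * b) • e) := by
      intro ξ
      simp only [hY]
      rw [hωe, hpe, ENNReal.mul_rpow_of_nonneg _ _ hq0.le,
        ENNReal.ofReal_rpow_of_nonneg (by positivity) hq0.le,
        Real.mul_rpow (by positivity) (by positivity), ← Real.rpow_mul (by positivity),
        ← Real.rpow_mul (by positivity), ENNReal.ofReal_mul (by positivity), neg_mul]
      ring
    simp only [e1]
    rw [lintegral_const_mul' _ _ ENNReal.ofReal_ne_top]
    gcongr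
    have e2 := lintegral_sub_right_eq_self (μ := (volume : Measure (E 3)))
      (fun ζ => ω ζ * (ENNReal.ofReal ((1 + |p ζ|) ^ (κ * q)) * ‖K b ζ‖ₑ ^ q)) ((β * b) • e)
    rw [e2]
    exact hA b
  calc ∫⁻ ξ, ω ξ * ‖∑ b ∈ I, w b * K b (ξ - (β * b) • e)‖ₑ ^ q
      ≤ ∫⁻ ξ, (ENNReal.ofReal c ^ q * (C1 : ℝ≥0∞) ^ (1 / q' * q)) *
          ∑ b ∈ I, ω ξ * Y ξ b ^ q := by
        refine lintegral_mono fun ξ => ?_
        calc _ ≤ ω ξ * (ENNReal.ofReal c ^ q * ((C1 : ℝ≥0∞) ^ (1 / q' * q) *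
              ∑ b ∈ I, Y ξ b ^ q)) := by gcongr; exact key ξ
          _ = _ := by rw [← Finset.mul_sum]; ring
    _ = (ENNReal.ofReal c ^ q * (C1 : ℝ≥0∞) ^ (1 / q' * q)) *
          ∑ b ∈ I, ∫⁻ ξ, ω ξ * Y ξ b ^ q := by
        rw [lintegral_const_mul _ (Finset.measurable_fun_sum _ fun b _ => mZ b),
          lintegral_finsetSum _ fun b _ => mZ b]
    _ ≤ (ENNReal.ofReal c ^ q * (C1 : ℝ≥0∞) ^ (1 / q' * q)) *
          ∑ b ∈ I, ENNReal.ofReal ((1 + |(b : ℝ)|) ^ (-(a * q))) * A := by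
        gcongr with b
        exact sY b
    _ ≤ (ENNReal.ofReal c ^ q * (C1 : ℝ≥0∞) ^ (1 / q' * q)) * (S * A) := by
        gcongr
        rw [← Finset.sum_mul]
        gcongr
        exact ENNReal.sum_le_tsum I
    _ = _ := by rw [hD]; ring

end Pool.Agent.Run7.h58.MV
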