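import Mathlib
import Pool.Agent.Run7.h58.MV.Coef
set_option autoImplicit false

/-! Densities with regularity along the meridians only: exponents between three and four. -/

namespace Pool.Agent.Run7.h58.MV

open MeasureTheory Set Complex Filter Topology
open scoped ENNReal NNReal RealInnerProductSpace ComplexConjugate
open Pool.Agent.H789R2.FR (E sg T sg_finite sg_ae sg_inv)
open Pool.Agent.H438R2.PD (P1 P1_J P1_meas T_meas' T_le T_comp)
open Pool.Agent.H438R2.BR (J)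
open Pool.Agent.H438R2.BR.T10 (e0)
open Pool.Agent.TH554.J1595 (pt pt_zero pt_one pt_meas sg_two_lint)

theorem fatou {α : Type*} [MeasurableSpace α] (μ : Measure α) (f : ℕ → α → ℝ≥0∞) (g : α → ℝ≥0∞)
    (hf : ∀ n, Measurable (f n)) (h : ∀ x, Tendsto (fun n => f n x) atTop (𝓝 (g x)))
    (C : ℝ≥0∞) (hC : ∀ n, ∫⁻ x, f n x ∂μ ≤ C) : ∫⁻ x, g x ∂μ ≤ C := by
  have e : ∀ x, g x = liminf (fun n => f n x) atTop := fun x => (h x).liminf_eq.symm
  simp only [e]
  refine (lintegral_liminf_le hf).trans ?_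
  refine (liminf_le_liminf (Eventually.of_forall hC)).trans ?_
  simp

theorem jj_zero (x : E 2) (t : ℝ) : jj x t 0 = x 0 := by
  unfold jj J
  have h : (Fin.append (fun i => x i) (fun i => (t • e0) i) : Fin (2 + 1) → ℝ) (Fin.castAdd 1 0) =
      x 0 := Fin.append_left _ _ _
  exact h

theorem e3_zero : e3 0 = 0 := by
  unfold e3
  rw [jj_zero]
  rfl

theorem e3_two : e3 2 = 1 := by
  unfold e3
  rw [jj_two]

theorem T_smul {n : ℕ} (c : ℂ) (g : E n → ℂ) (ξ : E n) :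
    T (fun x => c * g x) ξ = c * T g ξ := by
  unfold T
  rw [← integral_const_mul]
  refine integral_congr_ae (Eventually.of_forall fun x => ?_)
  simp only
  ring

/-- the class of profiles -/
structure Cl (γ : ℝ) (F : ℝ → E 2 → ℂ) : Prop where
  meas : Measurable (Function.uncurry F)
  le : ∀ z u, ‖F z u‖ ≤ 1
  supp : ∀ z u, z ∉ Ioo (-1 : ℝ) 1 → F z u = 0
  mod : ∀ (h : ℝ) (u : E 2), ∫⁻ z, ‖F (z + h) u - F z u‖ₑ ≤ ENNReal.ofReal (|h| ^ γ)

theorem Cl.mb_le {γ : ℝ} {F : ℝ → E 2 → ℂ} (hF : Cl γ F) (hγ0 : 0 < γ) (hγ1 : γ ≤ 1) (b : ℤ)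
    (u : E 2) : ‖mb F b u‖ ≤ (1 + |(b : ℝ)|) ^ (-γ) := by
  unfold mb
  exact cF_decay γ hγ0 hγ1 (fun z => F z u) (hF.meas.comp (measurable_id.prodMk measurable_const))
    (fun z => hF.le z u) (fun z hz => hF.supp z u hz) (fun h => hF.mod h u) b

theorem stepOdd (γ q κ₁ κ₂ : ℝ) (hγ0 : 0 < γ) (hγ1 : γ ≤ 1) (hq3 : 3 < q) (hq4 : q < 4)
    (hκ₁ : 0 ≤ κ₁) (hκ₂ : 0 ≤ κ₂) (hγq : 1 / q < γ) (h1 : 1 < γ + κ₁)
    (hτ : (κ₁ + κ₂) * q < q - 3) : ∃ C : ℝ≥0, ∀ F : ℝ → E 2 → ℂ, Cl γ F →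
    (∀ z u, F z (-u) = -F z u) → ∀ A : Set (E 2), MeasurableSet A →
    (∀ z u, u ∉ A → F z u = 0) →
    ∫⁻ ξ : E 3, ENNReal.ofReal ((1 + |ξ 0|) ^ (κ₂ * q)) * ‖T (den F) ξ‖ₑ ^ q ≤ C * sg 2 A := by
  obtain ⟨C1, hC1⟩ := oddLq q ((κ₁ + κ₂) * q) hq3 hq4 (by positivity) hτ
  obtain ⟨C2, hC2⟩ := superpos q κ₁ γ 1 (by linarith) hκ₁ hγq h1 zero_le_one
  refine ⟨C2 * C1, fun F hF hodd A hA hFA => ?_⟩
  rw [ENNReal.coe_mul, mul_assoc]
  have hq0 : 0 < q := by linarith
  set w : ℤ → ℝ := fun b => (1 + |(b : ℝ)|) ^ (-γ) with hw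
  have hw0 : ∀ b, 0 < w b := fun b => by positivity
  set k : ℤ → E 2 → ℂ := fun b u => ((w b : ℝ) : ℂ)⁻¹ * mb F b u with hk
  have hkm : ∀ b, Measurable (k b) := fun b => (mb_meas F hF.meas b).const_mul _
  have hkb : ∀ b u, ‖k b u‖ ≤ 1 := by
    intro b u
    simp only [hk]
    rw [norm_mul, norm_inv, Complex.norm_real, Real.norm_eq_abs, abs_of_pos (hw0 b),
      inv_mul_le_iff₀ (hw0 b), mul_one]
    exact hF.mb_le hγ0 hγ1 b u
  have hko : ∀ b u, k b (-u) = -k b u := by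
    intro b u
    have : mb F b (-u) = -mb F b u := by
      unfold mb cF
      rw [← mul_neg, ← integral_neg]
      congr 1
      refine integral_congr_ae (Eventually.of_forall fun z => ?_)
      simp only
      rw [hodd]
      ring
    simp only [hk]
    rw [this]
    ring
  have hkA : ∀ b, ∫⁻ u, ‖k b u‖ₑ ∂(sg 2) ≤ sg 2 A := by
    intro b
    rw [← lintegral_indicator_one hA]
    refine lintegral_mono fun u => ?_
    by_cases hu : u ∈ A
    · rw [indicator_of_mem hu, Pi.one_apply, ← ofReal_norm, ENNReal.ofReal_le_one]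
      exact hkb b u
    · have h0 : mb F b u = 0 := by
        unfold mb cF
        have : ∀ z, F z u = 0 := fun z => hFA z u hu
        simp only [this, mul_zero, integral_zero]
      simp only [hk]
      rw [h0, mul_zero, enorm_zero]
      exact zero_le
  set ω : E 3 → ℝ≥0∞ := fun ξ => ENNReal.ofReal ((1 + |ξ 0|) ^ (κ₂ * q)) with hω
  have mω : Measurable ω := Measurable.ennreal_ofReal (by fun_prop)
  have hT : ∀ (b : ℤ) (ξ : E 3), T (fun x => lon (mb F b) x * 1) ξ =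
      ((w b : ℝ) : ℂ) * T (lon (k b)) ξ := by
    intro b ξ
    rw [← T_smul]
    congr 1
    funext x
    unfold lon
    simp only [hk]
    rw [mul_one, ← mul_assoc, mul_inv_cancel₀ (by exact_mod_cast (hw0 b).ne'), one_mul]
  have hlim : ∀ ξ, Tendsto (fun N : ℕ => ∑ b ∈ Finset.Icc (-(N : ℤ)) N,
      ((w b : ℝ) : ℂ) * T (lon (k b)) (ξ - (Real.pi / 2 * b) • e3)) atTop (𝓝 (T (den F) ξ)) := by
    intro ξ
    have h2 := expand F hF.meas hF.le (fun _ => 1) measurable_const (fun _ => by simp) ξ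
    simp only [hT] at h2
    have h3 : T (fun x => den F x * 1) ξ = T (den F) ξ := by
      congr 1
      funext x
      rw [mul_one]
    rw [h3] at h2
    exact h2
  have mS : ∀ N : ℕ, Measurable fun ξ : E 3 => ∑ b ∈ Finset.Icc (-(N : ℤ)) N,
      ((w b : ℝ) : ℂ) * T (lon (k b)) (ξ - (Real.pi / 2 * b) • e3) := fun N =>
    Finset.measurable_fun_sum _ fun b _ => by
      have m1 : Measurable fun ξ : E 3 => ξ - (Real.pi / 2 * b) • e3 := by fun_prop
      exact ((T_meas' _ (lon_meas _ (hkm b))).comp m1).const_mul _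
  refine fatou volume (fun N ξ => ω ξ * ‖∑ b ∈ Finset.Icc (-(N : ℤ)) N,
      ((w b : ℝ) : ℂ) * T (lon (k b)) (ξ - (Real.pi / 2 * b) • e3)‖ₑ ^ q)
    (fun ξ => ω ξ * ‖T (den F) ξ‖ₑ ^ q) (fun N => mω.mul ((mS N).enorm.pow_const q)) ?_
    (C2 * (C1 * sg 2 A)) ?_
  · intro ξ
    refine ENNReal.Tendsto.const_mul ?_ (Or.inr ENNReal.ofReal_ne_top)
    exact ((ENNReal.continuous_rpow_const (y := q)).tendsto _).comp ((hlim ξ).enorm)
  · intro N
    refine hC2 ω (fun b => T (lon (k b))) (fun b => ((w b : ℝ) : ℂ)) e3 (fun ξ => ξ 2)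
      (C1 * sg 2 A) mω
      (fun b => T_meas' _ (lon_meas _ (hkm b))) (by fun_prop) ?_ ?_ ?_ ?_ N
    · intro b
      rw [Complex.norm_real, Real.norm_eq_abs, abs_of_pos (hw0 b), one_mul]
    · intro ξ t
      simp only [hω, PiLp.sub_apply, PiLp.smul_apply, e3_zero, smul_eq_mul, mul_zero, sub_zero]
    · intro ξ t
      simp only [PiLp.sub_apply, PiLp.smul_apply, e3_two, smul_eq_mul, mul_one]
    · intro b
      refine le_trans (lintegral_mono fun ξ => ?_) ((hC1 (k b) (hkm b) (hkb b) (hko b)).trans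
        (mul_le_mul' le_rfl (hkA b)))
      rw [← mul_assoc]
      simp only [hω]
      rw [← ENNReal.ofReal_mul (by positivity)]
      gcongr
      have n0 : |ξ 0| ≤ ‖ξ‖ := PiLp.norm_apply_le ξ 0
      have n2 : |ξ 2| ≤ ‖ξ‖ := PiLp.norm_apply_le ξ 2
      calc (1 + |ξ 0|) ^ (κ₂ * q) * (1 + |ξ 2|) ^ (κ₁ * q)
          ≤ (1 + ‖ξ‖) ^ (κ₂ * q) * (1 + ‖ξ‖) ^ (κ₁ * q) := by
            gcongr
        _ = (1 + ‖ξ‖) ^ ((κ₁ + κ₂) * q) := by
            rw [← Real.rpow_add (by positivity)]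
            congr 1
            ring

/-! ### Multiplication by the sign of a coordinate -/

/-- the sign -/
noncomputable def sn (t : ℝ) : ℝ := if 0 < t then 1 else if t < 0 then -1 else 0

theorem sn_meas : Measurable sn :=
  Measurable.ite measurableSet_Ioi measurable_const
    (Measurable.ite measurableSet_Iio measurable_const measurable_const)

theorem sn_abs (t : ℝ) : |sn t| ≤ 1 := by
  unfold sn
  split_ifs <;> simp

theorem sn_neg (t : ℝ) : sn (-t) = -sn t := by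
  unfold sn
  rcases lt_trichotomy t 0 with h | h | h
  · simp [h, not_lt.2 h.le]
  · simp [h]
  · simp [h, not_lt.2 h.le]

theorem sn_sq (t : ℝ) (ht : t ≠ 0) : sn t * sn t = 1 := by
  unfold sn
  rcases lt_or_gt_of_ne ht with h | h
  · simp [h, not_lt.2 h.le]
  · simp [h]

theorem sn_mul (r t : ℝ) (hr : 0 < r) : sn (r * t) = sn t := by
  have h1 : r * t < 0 ↔ t < 0 := by
    constructor
    · intro h
      by_contra h'
      have := mul_nonneg hr.le (not_lt.1 h')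
      linarith
    · exact fun h => mul_neg_of_pos_of_neg hr h
  unfold sn
  simp only [mul_pos_iff_of_pos_left hr, h1]

theorem ee_int (a x y : ℝ) (ha : a ≠ 0) : ‖∫ z in x..y, ee (a * z)‖ ≤ 2 / |a| := by
  have h1 : ∫ z in x..y, ee (a * z) = ∫ z in x..y, Complex.exp ((-(a : ℂ) * I) * z) := by
    refine intervalIntegral.integral_congr fun z _ => ?_
    simp only [ee]
    congr 1
    push_cast
    ring
  have hc : (-(a : ℂ) * I) ≠ 0 := by
    simp [ha]
  rw [h1, integral_exp_mul_complex hc, norm_div]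
  have h2 : ‖(-(a : ℂ) * I)‖ = |a| := by simp
  rw [h2]
  gcongr
  have n1 : ∀ t : ℝ, ‖Complex.exp (-(a : ℂ) * I * t)‖ = 1 := by
    intro t
    rw [show -(a : ℂ) * I * t = ((-(a * t) : ℝ) : ℂ) * I by push_cast; ring]
    exact Complex.norm_exp_ofReal_mul_I _
  calc _ ≤ ‖Complex.exp (-(a : ℂ) * I * y)‖ + ‖Complex.exp (-(a : ℂ) * I * x)‖ := norm_sub_le _ _
    _ = 2 := by rw [n1, n1]; norm_num

theorem sn_coef (b : ℤ) : ‖cF (fun z => ((sn z : ℝ) : ℂ)) b‖ ≤ 2 * (1 + |(b : ℝ)|) ^ (-1 : ℝ) := by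
  rcases eq_or_ne b 0 with rfl | hb0
  · simp only [Int.cast_zero, abs_zero, add_zero, Real.one_rpow]
    have := cF_le (fun z => ((sn z : ℝ) : ℂ)) 1 (fun z => by
      rw [Complex.norm_real, Real.norm_eq_abs]; exact sn_abs z) 0
    linarith
  have hbr : (b : ℝ) ≠ 0 := by exact_mod_cast hb0
  have hb1 : (1 : ℝ) ≤ |(b : ℝ)| := by
    have : 1 ≤ |b| := Int.one_le_abs hb0
    exact_mod_cast this
  set a : ℝ := Real.pi / 2 * b with ha
  have ha0 : a ≠ 0 := by
    rw [ha]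
    have := Real.pi_ne_zero
    positivity
  have habs : |(b : ℝ)| ≤ |a| := by
    rw [ha, abs_mul, abs_of_pos (by positivity : 0 < Real.pi / 2)]
    have := Real.pi_gt_three
    nlinarith
  have hi : ∀ x y : ℝ, IntervalIntegrable (fun z => ee (a * z) * ((sn z : ℝ) : ℂ)) volume x y := by
    intro x y
    have hm : Measurable fun z : ℝ => ee (a * z) * ((sn z : ℝ) : ℂ) :=
      (ee_cont.measurable.comp (by fun_prop)).mul sn_meas.complex_ofReal
    have hI : ∀ s : Set ℝ, volume s ≠ ⊤ → IntegrableOn (fun z => ee (a * z) * ((sn z : ℝ) : ℂ)) s := by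
      intro s hs
      have : IsFiniteMeasure (volume.restrict s) := ⟨by
        rw [Measure.restrict_apply MeasurableSet.univ, univ_inter]
        exact lt_top_iff_ne_top.2 hs⟩
      refine Integrable.of_bound hm.aestronglyMeasurable 1 (Eventually.of_forall fun z => ?_)
      rw [norm_mul, norm_ee, one_mul, Complex.norm_real, Real.norm_eq_abs]
      exact sn_abs z
    exact ⟨hI _ (by simp), hI _ (by simp)⟩
  have s1 : ∫ z in Ioc (-2 : ℝ) 2, ee (a * z) * ((sn z : ℝ) : ℂ) =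
      -(∫ z in (-2 : ℝ)..0, ee (a * z)) + ∫ z in (0 : ℝ)..2, ee (a * z) := by
    rw [← intervalIntegral.integral_of_le (by norm_num : (-2 : ℝ) ≤ 2),
      ← intervalIntegral.integral_add_adjacent_intervals (hi (-2) 0) (hi 0 2)]
    congr 1
    · rw [← intervalIntegral.integral_neg]
      refine intervalIntegral.integral_congr_Ioo_of_le (by norm_num) fun z hz => ?_
      have : sn z = -1 := by
        unfold sn
        rw [if_neg (not_lt.2 hz.2.le), if_pos hz.2]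
      rw [this]
      push_cast
      ring
    · refine intervalIntegral.integral_congr_Ioo_of_le (by norm_num) fun z hz => ?_
      have : sn z = 1 := by
        unfold sn
        rw [if_pos hz.1]
      rw [this]
      push_cast
      ring
  unfold cF
  rw [norm_mul]
  have h14 : ‖(1 / 4 : ℂ)‖ = 1 / 4 := by norm_num
  have s2 : ∫ z in Ioc (-2 : ℝ) 2, ee (Real.pi / 2 * b * z) * ((sn z : ℝ) : ℂ) =
      ∫ z in Ioc (-2 : ℝ) 2, ee (a * z) * ((sn z : ℝ) : ℂ) := rfl
  rw [h14, s2, s1]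
  have s3 := norm_add_le (-(∫ z in (-2 : ℝ)..0, ee (a * z))) (∫ z in (0 : ℝ)..2, ee (a * z))
  rw [norm_neg] at s3
  have s4 := ee_int a (-2) 0 ha0
  have s5 := ee_int a 0 2 ha0
  have s6 : 2 / |a| ≤ 4 * (1 + |(b : ℝ)|) ^ (-1 : ℝ) := by
    rw [Real.rpow_neg_one, ← div_eq_mul_inv, div_le_div_iff₀ (by positivity) (by positivity)]
    linarith
  linarith

/-- exchange of the first and the third coordinate -/
noncomputable def Rs : E 3 ≃ₗᵢ[ℝ] E 3 :=
  LinearIsometryEquiv.piLpCongrLeft 2 ℝ ℝ (Equiv.swap (0 : Fin 3) 2)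

theorem Rs_apply (z : E 3) (i : Fin 3) : Rs z i = z (Equiv.swap (0 : Fin 3) 2 i) := by
  unfold Rs
  rw [LinearIsometryEquiv.piLpCongrLeft_apply]
  simp [Equiv.piCongrLeft'_apply]

theorem Rs_zero (z : E 3) : Rs z 0 = z 2 := by
  rw [Rs_apply, Equiv.swap_apply_left]

theorem Rs_two (z : E 3) : Rs z 2 = z 0 := by
  rw [Rs_apply, Equiv.swap_apply_right]

theorem Rs_Rs (z : E 3) : Rs (Rs z) = z := by
  ext i
  rw [Rs_apply, Rs_apply, Equiv.swap_apply_self]

theorem stepSign (q κ : ℝ) (hq : 1 < q) (hκ : 0 < κ) : ∃ C : ℝ≥0, ∀ (G : E 3 → ℂ) (A : ℝ≥0∞),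
    Measurable G → (∀ x, ‖G x‖ ≤ 1) →
    ∫⁻ ξ : E 3, ENNReal.ofReal ((1 + |ξ 0|) ^ (κ * q)) * ‖T G ξ‖ₑ ^ q ≤ A →
    ∫⁻ ξ : E 3, ‖T (fun x => ((sn (x 0) : ℝ) : ℂ) * G x) ξ‖ₑ ^ q ≤ C * A := by
  have hq0 : 0 < q := by linarith
  obtain ⟨C, hC⟩ := superpos q κ 1 2 hq hκ.le (by rw [div_lt_one hq0]; exact hq) (by linarith)
    (by norm_num)
  refine ⟨C, fun G A hG hGb hA => ?_⟩
  set F : ℝ → E 2 → ℂ := fun z _ => ((sn z : ℝ) : ℂ) with hF
  have hFm : Measurable (Function.uncurry F) := (sn_meas.comp measurable_fst).complex_ofReal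
  have hFb : ∀ z u, ‖F z u‖ ≤ 1 := by
    intro z u
    simp only [hF]
    rw [Complex.norm_real, Real.norm_eq_abs]
    exact sn_abs z
  set c : ℤ → ℂ := fun b => cF (fun z => ((sn z : ℝ) : ℂ)) b with hc
  have hG' : Measurable fun x => G (Rs x) := hG.comp Rs.continuous.measurable
  have hlim : ∀ ξ, Tendsto (fun N : ℕ => ∑ b ∈ Finset.Icc (-(N : ℤ)) N,
      c b * T G (ξ - (Real.pi / 2 * b) • Rs e3)) atTop
      (𝓝 (T (fun x => ((sn (x 0) : ℝ) : ℂ) * G x) ξ)) := by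
    intro ξ
    have h1 := expand F hFm hFb (fun x => G (Rs x)) hG' (fun x => hGb _) (Rs ξ)
    have h2 : T (fun x => den F x * G (Rs x)) (Rs ξ) =
        T (fun x => ((sn (x 0) : ℝ) : ℂ) * G x) ξ := by
      rw [← T_comp Rs (fun x => den F x * G (Rs x)) ξ]
      congr 1
      funext x
      simp only [den, hF]
      rw [Rs_two, Rs_Rs]
    have h3 : ∀ b : ℤ, T (fun x => lon (mb F b) x * G (Rs x)) (Rs ξ - (Real.pi / 2 * b) • e3) =
        c b * T G (ξ - (Real.pi / 2 * b) • Rs e3) := by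
      intro b
      have e1 : Rs ξ - (Real.pi / 2 * b) • e3 = Rs (ξ - (Real.pi / 2 * b) • Rs e3) := by
        rw [map_sub, map_smul, Rs_Rs]
      rw [e1, ← T_comp Rs, ← T_smul]
      congr 1
      funext x
      rw [Rs_Rs]
      rfl
    simp only [h3] at h1
    rw [h2] at h1
    exact h1
  have mS : ∀ N : ℕ, Measurable fun ξ : E 3 => ∑ b ∈ Finset.Icc (-(N : ℤ)) N,
      c b * T G (ξ - (Real.pi / 2 * b) • Rs e3) := fun N =>
    Finset.measurable_fun_sum _ fun b _ => by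
      have m1 : Measurable fun ξ : E 3 => ξ - (Real.pi / 2 * b) • Rs e3 := by fun_prop
      exact ((T_meas' _ hG).comp m1).const_mul _
  refine fatou volume (fun N ξ => ‖∑ b ∈ Finset.Icc (-(N : ℤ)) N,
      c b * T G (ξ - (Real.pi / 2 * b) • Rs e3)‖ₑ ^ q)
    (fun ξ => ‖T (fun x => ((sn (x 0) : ℝ) : ℂ) * G x) ξ‖ₑ ^ q)
    (fun N => (mS N).enorm.pow_const q) ?_ (C * A) ?_
  · intro ξ
    exact ((ENNReal.continuous_rpow_const (y := q)).tendsto _).comp ((hlim ξ).enorm)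
  · intro N
    have h4 := hC (fun _ => 1) (fun _ => T G) c (Rs e3) (fun ξ => ξ 0) A measurable_const
      (fun _ => T_meas' _ hG) (by fun_prop) sn_coef (fun _ _ => rfl) ?_ ?_ N
    · simpa only [one_mul] using h4
    · intro ξ t
      simp only [PiLp.sub_apply, PiLp.smul_apply, smul_eq_mul, Rs_zero, e3_two, mul_one]
    · intro b
      simpa only [one_mul] using hA

end Pool.Agent.Run7.h58.MV
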