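import Mathlib
import Pool.Agent.Run7.h58.MV.Main1
set_option autoImplicit false

/-! Densities with regularity along the meridians only: all densities of the class. -/

namespace Pool.Agent.Run7.h58.MV

open MeasureTheory Set Complex Filter Topology
open scoped ENNReal NNReal RealInnerProductSpace ComplexConjugate
open Pool.Agent.H789R2.FR (E sg T sg_finite sg_ae sg_inv)
open Pool.Agent.H438R2.PD (P1 P1_J P1_meas T_meas' T_le T_comp)
open Pool.Agent.H438R2.BR (Q)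
open Pool.Agent.TH554.J1595 (pt pt_zero pt_one pt_meas sg_two_lint)

theorem sg_two_ne : ∀ᵐ u ∂(sg 2), u 0 ≠ 0 := by
  have c0 : Measurable fun η : E 2 => η 0 := by fun_prop
  have hms : MeasurableSet {u : E 2 | u 0 = 0} := c0 (measurableSet_singleton 0)
  rw [ae_iff]
  have e : {u : E 2 | ¬u 0 ≠ 0} = {u : E 2 | u 0 = 0} := by
    ext u; simp
  rw [e, ← lintegral_indicator_one hms, sg_two_lint _ (measurable_one.indicator hms)]
  apply Finset.sum_eq_zero
  intro i _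
  rw [show (0 : ℝ≥0∞) = ∫⁻ θ in Q, (0 : ℝ≥0∞) by simp]
  refine setLIntegral_congr_fun measurableSet_Ioo fun θ hθ => ?_
  have hc : 0 < Real.cos θ := Pool.Agent.H438R2.BR.T7.cos_pos_Q hθ
  rw [indicator_of_notMem]
  intro h
  have h1 : pt i θ 0 = 0 := h
  rw [pt_zero] at h1
  rcases i with ⟨b1, b2⟩
  cases b1
  · simp only [Pool.Agent.TH554.J1595.sgn] at h1
    linarith
  · simp only [Pool.Agent.TH554.J1595.sgn] at h1
    linarith

theorem T_add {n : ℕ} (g h : E n → ℂ) (hg : Measurable g) (hh : Measurable h) (M : ℝ)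
    (hgb : ∀ x, ‖g x‖ ≤ M) (hhb : ∀ x, ‖h x‖ ≤ M) (ξ : E n) :
    T (fun x => g x + h x) ξ = T g ξ + T h ξ := by
  have hfin := sg_finite n
  have hi : ∀ k : E n → ℂ, Measurable k → (∀ x, ‖k x‖ ≤ M) →
      Integrable (fun w => Complex.exp (-((⟪ξ, w⟫ : ℝ) : ℂ) * I) * k w) (sg n) := by
    intro k hk hkb
    refine Integrable.of_bound (C := M) ?_ (Eventually.of_forall fun w => ?_)
    · have : Measurable fun w : E n => (⟪ξ, w⟫ : ℝ) := by fun_prop
      exact ((Complex.measurable_exp.comp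
        ((Complex.measurable_ofReal.comp this).neg.mul_const I)).mul hk).aestronglyMeasurable
    · rw [norm_mul]
      have := norm_ee (⟪ξ, w⟫ : ℝ)
      unfold ee at this
      rw [this, one_mul]
      exact hkb w
  unfold T
  rw [← integral_add (hi g hg hgb) (hi h hh hhb)]
  refine integral_congr_ae (Eventually.of_forall fun w => ?_)
  simp only
  ring

/-- odd part in the longitude -/
noncomputable def Fo (F : ℝ → E 2 → ℂ) (z : ℝ) (u : E 2) : ℂ := (1 / 2 : ℂ) * (F z u - F z (-u))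

/-- even part in the longitude -/
noncomputable def Fe (F : ℝ → E 2 → ℂ) (z : ℝ) (u : E 2) : ℂ := (1 / 2 : ℂ) * (F z u + F z (-u))

/-- the even part made odd -/
noncomputable def Fs (F : ℝ → E 2 → ℂ) (z : ℝ) (u : E 2) : ℂ := ((sn (u 0) : ℝ) : ℂ) * Fe F z u

theorem meas_neg (F : ℝ → E 2 → ℂ) (hF : Measurable (Function.uncurry F)) :
    Measurable fun p : ℝ × E 2 => F p.1 (-p.2) :=
  hF.comp (measurable_fst.prodMk measurable_snd.neg)

theorem Fe_meas (F : ℝ → E 2 → ℂ) (hF : Measurable (Function.uncurry F)) :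
    Measurable (Function.uncurry (Fe F)) := by
  have h : Measurable fun p : ℝ × E 2 => (1 / 2 : ℂ) * (F p.1 p.2 + F p.1 (-p.2)) :=
    (hF.add (meas_neg F hF)).const_mul _
  exact h

theorem half_mod (γ : ℝ) (F : ℝ → E 2 → ℂ) (hF : Cl γ F) (c : ℂ) (hc : ‖c‖ ≤ 1) (s : ℂ)
    (hs : ‖s‖ = 1) (h : ℝ) (u : E 2) :
    ∫⁻ z, ‖c * ((1 / 2 : ℂ) * (F (z + h) u + s * F (z + h) (-u))) -
      c * ((1 / 2 : ℂ) * (F z u + s * F z (-u)))‖ₑ ≤ ENNReal.ofReal (|h| ^ γ) := by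
  have m1 : ∀ v : E 2, Measurable fun z : ℝ => ‖F (z + h) v - F z v‖ₑ := by
    intro v
    have a1 : Measurable fun z : ℝ => F (z + h) v :=
      hF.meas.comp ((measurable_id.add_const h).prodMk measurable_const)
    have a2 : Measurable fun z : ℝ => F z v :=
      hF.meas.comp (measurable_id.prodMk measurable_const)
    exact (a1.sub a2).enorm
  have hcE : ‖c‖ₑ ≤ 1 := by
    rw [← ofReal_norm, ENNReal.ofReal_le_one]; exact hc
  have hsE : ‖s‖ₑ = 1 := by
    rw [← ofReal_norm, hs, ENNReal.ofReal_one]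
  have h2E : ‖(1 / 2 : ℂ)‖ₑ = ENNReal.ofReal (1 / 2) := by
    rw [← ofReal_norm]
    congr 1
    norm_num
  calc ∫⁻ z, ‖c * ((1 / 2 : ℂ) * (F (z + h) u + s * F (z + h) (-u))) -
      c * ((1 / 2 : ℂ) * (F z u + s * F z (-u)))‖ₑ
      ≤ ∫⁻ z, ENNReal.ofReal (1 / 2) * (‖F (z + h) u - F z u‖ₑ +
          ‖F (z + h) (-u) - F z (-u)‖ₑ) := by
        refine lintegral_mono fun z => ?_
        have e1 : c * ((1 / 2 : ℂ) * (F (z + h) u + s * F (z + h) (-u))) -
            c * ((1 / 2 : ℂ) * (F z u + s * F z (-u))) =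
            c * ((1 / 2 : ℂ) * ((F (z + h) u - F z u) + s * (F (z + h) (-u) - F z (-u)))) := by
          ring
        rw [e1, enorm_mul, enorm_mul, h2E]
        calc ‖c‖ₑ * (ENNReal.ofReal (1 / 2) *
              ‖(F (z + h) u - F z u) + s * (F (z + h) (-u) - F z (-u))‖ₑ)
            ≤ 1 * (ENNReal.ofReal (1 / 2) * (‖F (z + h) u - F z u‖ₑ +
              ‖s * (F (z + h) (-u) - F z (-u))‖ₑ)) := by
              gcongr
              exact enorm_add_le _ _
          _ = _ := by rw [enorm_mul, hsE, one_mul, one_mul]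
    _ = ENNReal.ofReal (1 / 2) * ((∫⁻ z, ‖F (z + h) u - F z u‖ₑ) +
          ∫⁻ z, ‖F (z + h) (-u) - F z (-u)‖ₑ) := by
        rw [lintegral_const_mul' _ _ ENNReal.ofReal_ne_top, lintegral_add_left (m1 u)]
    _ ≤ ENNReal.ofReal (1 / 2) * (ENNReal.ofReal (|h| ^ γ) + ENNReal.ofReal (|h| ^ γ)) := by
        gcongr
        · exact hF.mod h u
        · exact hF.mod h (-u)
    _ = ENNReal.ofReal (|h| ^ γ) := by
        rw [← ENNReal.ofReal_add (by positivity) (by positivity),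
          ← ENNReal.ofReal_mul (by norm_num)]
        congr 1
        ring

theorem half_le (F : ℝ → E 2 → ℂ) (hF : ∀ z u, ‖F z u‖ ≤ 1) (s : ℂ) (hs : ‖s‖ = 1) (z : ℝ)
    (u : E 2) : ‖(1 / 2 : ℂ) * (F z u + s * F z (-u))‖ ≤ 1 := by
  rw [norm_mul]
  have h2 : ‖(1 / 2 : ℂ)‖ = 1 / 2 := by norm_num
  have h3 := norm_add_le (F z u) (s * F z (-u))
  rw [norm_mul, hs, one_mul] at h3
  have h4 := hF z u
  have h5 := hF z (-u)
  rw [h2]
  linarith

theorem Fo_cl (γ : ℝ) (F : ℝ → E 2 → ℂ) (hF : Cl γ F) : Cl γ (Fo F) := by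
  have e : ∀ z u, Fo F z u = (1 / 2 : ℂ) * (F z u + (-1) * F z (-u)) := by
    intro z u
    unfold Fo
    ring
  refine ⟨?_, ?_, ?_, ?_⟩
  · have h : Measurable fun p : ℝ × E 2 => (1 / 2 : ℂ) * (F p.1 p.2 - F p.1 (-p.2)) :=
      (hF.meas.sub (meas_neg F hF.meas)).const_mul _
    exact h
  · intro z u
    rw [e]
    exact half_le F hF.le (-1) (by simp) z u
  · intro z u hz
    unfold Fo
    rw [hF.supp z u hz, hF.supp z (-u) hz]
    ring
  · intro h u
    have := half_mod γ F hF 1 (by simp) (-1) (by simp) h u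
    simp only [one_mul] at this
    simp only [e]
    exact this

theorem Fs_cl (γ : ℝ) (F : ℝ → E 2 → ℂ) (hF : Cl γ F) : Cl γ (Fs F) := by
  have e : ∀ z u, Fs F z u = ((sn (u 0) : ℝ) : ℂ) * ((1 / 2 : ℂ) * (F z u + 1 * F z (-u))) := by
    intro z u
    unfold Fs Fe
    rw [one_mul]
  have hsn : ∀ u : E 2, ‖((sn (u 0) : ℝ) : ℂ)‖ ≤ 1 := by
    intro u
    rw [Complex.norm_real, Real.norm_eq_abs]
    exact sn_abs _
  refine ⟨?_, ?_, ?_, ?_⟩
  · have c0 : Measurable fun p : ℝ × E 2 => p.2 0 := by fun_prop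
    have h : Measurable fun p : ℝ × E 2 => ((sn (p.2 0) : ℝ) : ℂ) * Fe F p.1 p.2 :=
      (sn_meas.comp c0).complex_ofReal.mul (Fe_meas F hF.meas)
    exact h
  · intro z u
    rw [e, norm_mul]
    exact mul_le_one₀ (hsn u) (norm_nonneg _) (half_le F hF.le 1 (by simp) z u)
  · intro z u hz
    unfold Fs Fe
    rw [hF.supp z u hz, hF.supp z (-u) hz]
    ring
  · intro h u
    have := half_mod γ F hF ((sn (u 0) : ℝ) : ℂ) (hsn u) 1 (by simp) h u
    simp only [e]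
    exact this

theorem T_even (γ : ℝ) (F : ℝ → E 2 → ℂ) (hF : Cl γ F) (ξ : E 3) :
    T (den (Fe F)) ξ = T (fun x => ((sn (x 0) : ℝ) : ℂ) * den (Fs F) x) ξ := by
  have hb : ∀ z u, ‖Fe F z u‖ ≤ 1 := by
    intro z u
    have := half_le F hF.le 1 (by simp) z u
    rw [one_mul] at this
    exact this
  have c0 : Measurable fun x : E 3 => x 0 := by fun_prop
  rw [T_zu _ (den_meas _ (Fe_meas F hF.meas)) 1 (fun x => hb _ _),
    T_zu (fun x => ((sn (x 0) : ℝ) : ℂ) * den (Fs F) x)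
      ((sn_meas.comp c0).complex_ofReal.mul (den_meas _ (Fs_cl γ F hF).meas)) 1 (fun x => ?_)]
  · refine integral_congr_ae ?_
    filter_upwards [sg_ae 2, sg_two_ne] with u hu hu0
    refine setIntegral_congr_fun measurableSet_Ioo fun z hz => ?_
    have hr : 0 < Real.sqrt (1 - z ^ 2) := by
      apply Real.sqrt_pos.2
      nlinarith [hz.1, hz.2]
    rw [den_Ps _ z hz u hu, den_Ps _ z hz u hu]
    have e0 : (Ps z u) 0 = Real.sqrt (1 - z ^ 2) * u 0 := by
      unfold Ps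
      rw [jj_zero]
      rfl
    rw [e0, sn_mul _ _ hr]
    unfold Fs
    have e1 : ((sn (u 0) : ℝ) : ℂ) * ((sn (u 0) : ℝ) : ℂ) = 1 := by
      rw [← Complex.ofReal_mul, sn_sq _ hu0, Complex.ofReal_one]
    rw [← mul_assoc ((sn (u 0) : ℝ) : ℂ), e1, one_mul]
  · rw [norm_mul, Complex.norm_real, Real.norm_eq_abs]
    exact mul_le_one₀ (sn_abs _) (norm_nonneg _) ((Fs_cl γ F hF).le _ _)

theorem two_rpow (a b : ℝ≥0∞) (q : ℝ) (hq : 0 ≤ q) : (a + b) ^ q ≤ 2 ^ q * (a ^ q + b ^ q) := by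
  rcases le_total a b with h | h
  · calc (a + b) ^ q ≤ (2 * b) ^ q := by
          apply ENNReal.rpow_le_rpow _ hq
          rw [two_mul]
          gcongr
      _ = 2 ^ q * b ^ q := ENNReal.mul_rpow_of_nonneg _ _ hq
      _ ≤ _ := by gcongr; exact le_add_self
  · calc (a + b) ^ q ≤ (2 * a) ^ q := by
          apply ENNReal.rpow_le_rpow _ hq
          rw [two_mul]
          gcongr
      _ = 2 ^ q * a ^ q := ENNReal.mul_rpow_of_nonneg _ _ hq
      _ ≤ _ := by gcongr; exact le_self_add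

theorem thmA (γ q : ℝ) (hγ0 : 0 < γ) (hγ1 : γ ≤ 1) (hq3 : 3 < q) (hq4 : q < 4)
    (hγq : 3 < γ * q) : ∃ C : ℝ≥0, ∀ F : ℝ → E 2 → ℂ, Cl γ F → ∀ A : Set (E 2),
    MeasurableSet A → (∀ z u, u ∉ A → F z u = 0) →
    ∫⁻ ξ : E 3, ‖T (den F) ξ‖ₑ ^ q ≤ C * sg 2 A := by
  have hq0 : 0 < q := by linarith
  set d : ℝ := (γ * q - 3) / q with hd
  have hd0 : 0 < d := div_pos (by linarith) hq0
  have hdq : d * q = γ * q - 3 := div_mul_cancel₀ _ hq0.ne'
  have hγ' : 1 / q < γ := by rw [div_lt_iff₀ hq0]; linarith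
  obtain ⟨C1, hC1⟩ := stepOdd γ q (1 - γ + d / 4) (d / 4) hγ0 hγ1 hq3 hq4 (by linarith)
    (by linarith) hγ' (by linarith) (by nlinarith)
  obtain ⟨C2, hC2⟩ := stepSign q (d / 4) (by linarith) (by linarith)
  refine ⟨2 ^ q * ((C1 + C2 * C1) * 2), fun F hF A₀ hA₀ hFA₀ => ?_⟩
  set A : Set (E 2) := A₀ ∪ (fun u => -u) ⁻¹' A₀ with hA'
  have hneg : Measurable fun u : E 2 => -u := measurable_neg
  have hA : MeasurableSet A := hA₀.union (hneg hA₀)
  have hFA : ∀ z u, u ∉ A → F z u = 0 ∧ F z (-u) = 0 := by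
    intro z u hu
    exact ⟨hFA₀ z u fun h => hu (Or.inl h), hFA₀ z (-u) fun h => hu (Or.inr h)⟩
  have hmA : sg 2 A ≤ 2 * sg 2 A₀ := by
    refine (measure_union_le _ _).trans (le_of_eq ?_)
    have h1 := (sg_inv (n := 2) (LinearIsometryEquiv.neg ℝ)).measure_preimage
      hA₀.nullMeasurableSet
    have h2 : sg 2 ((fun u => -u) ⁻¹' A₀) = sg 2 A₀ := h1
    rw [h2, two_mul]
  have hFoA : ∀ z u, u ∉ A → Fo F z u = 0 := by
    intro z u hu
    unfold Fo
    rw [(hFA z u hu).1, (hFA z u hu).2]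
    ring
  have hFsA : ∀ z u, u ∉ A → Fs F z u = 0 := by
    intro z u hu
    unfold Fs Fe
    rw [(hFA z u hu).1, (hFA z u hu).2]
    ring
  have hFo := Fo_cl γ F hF
  have hFs := Fs_cl γ F hF
  have ho : ∀ z u, Fo F z (-u) = -Fo F z u := by
    intro z u
    unfold Fo
    rw [neg_neg]
    ring
  have hs : ∀ z u, Fs F z (-u) = -Fs F z u := by
    intro z u
    unfold Fs Fe
    rw [neg_neg]
    have : (-u) 0 = -(u 0) := rfl
    rw [this, sn_neg]
    push_cast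
    ring
  have b1 : ∫⁻ ξ : E 3, ‖T (den (Fo F)) ξ‖ₑ ^ q ≤ C1 * sg 2 A := by
    refine le_trans (lintegral_mono fun ξ => ?_) (hC1 (Fo F) hFo ho A hA hFoA)
    calc ‖T (den (Fo F)) ξ‖ₑ ^ q = 1 * ‖T (den (Fo F)) ξ‖ₑ ^ q := (one_mul _).symm
      _ ≤ _ := by
          gcongr
          rw [ENNReal.one_le_ofReal]
          apply Real.one_le_rpow
          · have := abs_nonneg (ξ 0)
            linarith
          · positivity
  have b2 : ∫⁻ ξ : E 3, ‖T (den (Fe F)) ξ‖ₑ ^ q ≤ C2 * (C1 * sg 2 A) := by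
    have h1 := hC2 (den (Fs F)) (C1 * sg 2 A) (den_meas _ hFs.meas) (fun x => hFs.le _ _)
      (hC1 (Fs F) hFs hs A hA hFsA)
    refine le_trans (le_of_eq ?_) h1
    refine lintegral_congr fun ξ => ?_
    rw [T_even γ F hF ξ]
  have hFe : ∀ z u, ‖Fe F z u‖ ≤ 1 := by
    intro z u
    have := half_le F hF.le 1 (by simp) z u
    rw [one_mul] at this
    exact this
  have hsum : ∀ ξ, T (den F) ξ = T (den (Fo F)) ξ + T (den (Fe F)) ξ := by
    intro ξ
    rw [← T_add _ _ (den_meas _ hFo.meas) (den_meas _ (Fe_meas F hF.meas)) 1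
      (fun x => hFo.le _ _) (fun x => hFe _ _)]
    congr 1
    funext x
    unfold den Fo Fe
    ring
  have m1 : Measurable fun ξ : E 3 => ‖T (den (Fo F)) ξ‖ₑ ^ q :=
    (T_meas' _ (den_meas _ hFo.meas)).enorm.pow_const q
  have m2 : Measurable fun ξ : E 3 => ‖T (den (Fe F)) ξ‖ₑ ^ q :=
    (T_meas' _ (den_meas _ (Fe_meas F hF.meas))).enorm.pow_const q
  calc ∫⁻ ξ : E 3, ‖T (den F) ξ‖ₑ ^ q
      ≤ ∫⁻ ξ : E 3, 2 ^ q * (‖T (den (Fo F)) ξ‖ₑ ^ q + ‖T (den (Fe F)) ξ‖ₑ ^ q) := by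
        refine lintegral_mono fun ξ => ?_
        rw [hsum]
        exact (ENNReal.rpow_le_rpow (enorm_add_le _ _) hq0.le).trans (two_rpow _ _ q hq0.le)
    _ = 2 ^ q * ((∫⁻ ξ : E 3, ‖T (den (Fo F)) ξ‖ₑ ^ q) +
          ∫⁻ ξ : E 3, ‖T (den (Fe F)) ξ‖ₑ ^ q) := by
        rw [lintegral_const_mul' _ _ (ENNReal.rpow_ne_top_of_nonneg hq0.le (by norm_num)),
          lintegral_add_left m1]
    _ ≤ 2 ^ q * (C1 * sg 2 A + C2 * (C1 * sg 2 A)) := by gcongr
    _ = 2 ^ q * ((C1 + C2 * C1) * sg 2 A) := by ring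
    _ ≤ 2 ^ q * ((C1 + C2 * C1) * (2 * sg 2 A₀)) := by gcongr
    _ = _ := by
        rw [ENNReal.coe_mul, ENNReal.coe_mul, ENNReal.coe_add, ENNReal.coe_mul,
          ENNReal.coe_rpow_of_nonneg _ hq0.le]
        push_cast
        ring

end Pool.Agent.Run7.h58.MV
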