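import Mathlib
import Pool.Agent.TH335.RF.P9
import Pool.Agent.Run7.h58.MV.Main2
set_option autoImplicit false

/-! Stein-Tomas with the mass of the density; interpolation. -/

namespace Pool.Agent.Run7.h58.MV

open MeasureTheory Set Complex Filter Topology
open scoped ENNReal NNReal RealInnerProductSpace
open Pool.Agent.H789R2.FR (E sg T sg_finite sg_ae sg_inv)
open Pool.Agent.H438R2.PD (P1 P1_J P1_meas T_meas' T_le T_comp)

/-- Stein-Tomas for densities bounded by one of mass `m` -/
theorem massST (n : ℕ) (hn : 2 ≤ n) (P : ℝ) (hP : 2 * ((n : ℝ) + 1) / ((n : ℝ) - 1) < P) :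
    ∃ C : ℝ≥0, ∀ g : E n → ℂ, Measurable g → (∀ x, ‖g x‖ ≤ 1) → ∀ m : ℝ, 0 < m →
      ∫⁻ x, ‖g x‖ₑ ∂(sg n) ≤ ENNReal.ofReal m →
      ∫⁻ z, ‖T g z‖ₑ ^ P ≤ C * ENNReal.ofReal m ^ (P - ((n : ℝ) + 1) / ((n : ℝ) - 1)) := by
  obtain ⟨C, hC, hw⟩ := Pool.Agent.H789R2.FR.weak n hn
  have hsg : IsFiniteMeasure (sg n) := sg_finite n
  have hn' : (2 : ℝ) ≤ n := by exact_mod_cast hn
  have hn1 : 0 < (n : ℝ) - 1 := by linarith
  set q : ℝ := ((n : ℝ) + 1) / ((n : ℝ) - 1) with hq
  have hq1 : 1 ≤ q := by rw [hq, le_div_iff₀ hn1]; linarith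
  have hPq : 2 * q < P := by rw [hq, ← mul_div_assoc]; exact hP
  have hP0 : 0 < P := by linarith
  have hpos : 0 < P - 2 * q - 1 + 1 := by linarith
  refine ⟨Real.toNNReal (P * (C * (2 ^ (P - 2 * q - 1 + 1) / (P - 2 * q - 1 + 1)))),
    fun g hg hb S hS0 hmass => ?_⟩
  have hTm : Measurable (T g) := T_meas' g hg
  have hgi : Integrable g (sg n) := Integrable.of_bound hg.aestronglyMeasurable 1
    (Eventually.of_forall hb)
  have hmr : ∫ w, ‖g w‖ ∂(sg n) ≤ S := by
    rw [integral_norm_eq_lintegral_enorm hg.aestronglyMeasurable]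
    exact ENNReal.toReal_le_of_le_ofReal hS0.le hmass
  have hTb : ∀ x, ‖T g x‖ ≤ S := fun x => by
    have h1 := (T_mass g x).trans hmass
    rw [← ofReal_norm] at h1
    exact (ENNReal.ofReal_le_ofReal_iff hS0.le).1 h1
  have hH : ∫ w, ‖g w‖ ^ 2 ∂(sg n) ≤ S := by
    refine le_trans ?_ hmr
    apply integral_mono_of_nonneg (Filter.Eventually.of_forall fun w => by positivity)
      hgi.norm (Filter.Eventually.of_forall fun w => ?_)
    have h1 := hb w
    have h2 := norm_nonneg (g w)
    change ‖g w‖ ^ 2 ≤ ‖g w‖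
    nlinarith
  have hH0 : 0 ≤ ∫ w, ‖g w‖ ^ 2 ∂(sg n) := integral_nonneg fun w => by positivity
  -- level sets
  have hlev : ∀ t : ℝ, 0 < t → volume {x | t < ‖T g x‖} ≤
      ENNReal.ofReal (C * S ^ q * t ^ (-(2 * q))) := by
    intro t ht
    have hms : MeasurableSet {x | t < ‖T g x‖} := measurableSet_lt measurable_const hTm.norm
    have hun : {x | t < ‖T g x‖} = ⋃ N : ℕ, {x | t < ‖T g x‖} ∩ Metric.closedBall (0 : E n) N := by
      rw [← inter_iUnion, Metric.iUnion_closedBall_nat, inter_univ]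
    rw [hun, Monotone.measure_iUnion]
    · apply iSup_le
      intro N
      have hfin : volume ({x | t < ‖T g x‖} ∩ Metric.closedBall (0 : E n) N) ≠ ⊤ :=
        ((measure_mono inter_subset_right).trans_lt measure_closedBall_lt_top).ne
      have h1 := hw g hg ⟨1, hb⟩ t ht ({x | t < ‖T g x‖} ∩ Metric.closedBall (0 : E n) N)
        (hms.inter measurableSet_closedBall)
        (Metric.isBounded_closedBall.subset inter_subset_right) (fun x hx => le_of_lt hx.1)
      rw [← ENNReal.ofReal_toReal hfin]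
      apply ENNReal.ofReal_le_ofReal
      change volume.real _ ≤ _
      refine h1.trans ?_
      have h2 : (∫ w, ‖g w‖ ^ 2 ∂(sg n)) / t ^ 2 ≤ S / t ^ 2 := by gcongr
      have h3 : ((∫ w, ‖g w‖ ^ 2 ∂(sg n)) / t ^ 2) ^ (((n : ℝ) + 1) / ((n : ℝ) - 1)) ≤
          (S / t ^ 2) ^ q := Real.rpow_le_rpow (by positivity) h2 (by linarith)
      have h4 : (S / t ^ 2) ^ q = S ^ q * t ^ (-(2 * q)) := by
        rw [Real.div_rpow hS0.le (by positivity), ← Real.rpow_natCast t 2, ← Real.rpow_mul ht.le,
          Real.rpow_neg ht.le, div_eq_mul_inv]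
        norm_num
      rw [mul_assoc, ← h4]
      gcongr
    · intro a b hab
      apply inter_subset_inter_right
      apply Metric.closedBall_subset_closedBall
      exact_mod_cast hab
  have hlayer := lintegral_rpow_eq_lintegral_meas_lt_mul (volume : Measure (E n))
    (f := fun x => ‖T g x‖) (Filter.Eventually.of_forall fun x => norm_nonneg _)
    hTm.norm.aemeasurable hP0
  have e1 : ∀ x, ‖T g x‖ₑ ^ P = ENNReal.ofReal (‖T g x‖ ^ P) := by
    intro x
    rw [← ofReal_norm, ENNReal.ofReal_rpow_of_nonneg (norm_nonneg _) hP0.le]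
  simp only [e1]
  rw [hlayer]
  have h5 : ∫⁻ t in Ioi (0 : ℝ), volume {a | t < ‖T g a‖} * ENNReal.ofReal (t ^ (P - 1)) ≤
      ∫⁻ t in Ioo (0 : ℝ) (2 * S), ENNReal.ofReal (C * S ^ q) *
        ENNReal.ofReal (t ^ (P - 2 * q - 1)) := by
    rw [← lintegral_indicator measurableSet_Ioi, ← lintegral_indicator measurableSet_Ioo]
    apply lintegral_mono
    intro t
    by_cases h0 : 0 < t
    · have m0 : t ∈ Ioi (0 : ℝ) := h0
      by_cases h1 : t < 2 * S
      · have m1 : t ∈ Ioo (0 : ℝ) (2 * S) := ⟨h0, h1⟩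
        simp only [indicator_of_mem m0, indicator_of_mem m1]
        calc volume {a | t < ‖T g a‖} * ENNReal.ofReal (t ^ (P - 1))
            ≤ ENNReal.ofReal (C * S ^ q * t ^ (-(2 * q))) * ENNReal.ofReal (t ^ (P - 1)) := by
              gcongr
              exact hlev t h0
          _ = _ := by
              rw [← ENNReal.ofReal_mul (by positivity), ← ENNReal.ofReal_mul (by positivity)]
              congr 1
              rw [mul_assoc, ← Real.rpow_add h0]
              congr 2
              ring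
      · have m1 : t ∉ Ioo (0 : ℝ) (2 * S) := fun h => h1 h.2
        simp only [indicator_of_mem m0, indicator_of_notMem m1]
        have : {a | t < ‖T g a‖} = ∅ := by
          ext a
          simp only [mem_ofPred_eq, mem_empty_iff_false, iff_false, not_lt]
          linarith [hTb a]
        rw [this, measure_empty, zero_mul]
    · have m0 : t ∉ Ioi (0 : ℝ) := h0
      simp only [indicator_of_notMem m0]
      exact zero_le
  calc ENNReal.ofReal P * ∫⁻ t in Ioi (0 : ℝ), volume {a | t < ‖T g a‖} *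
        ENNReal.ofReal (t ^ (P - 1))
      ≤ ENNReal.ofReal P * (ENNReal.ofReal (C * S ^ q) *
        ENNReal.ofReal ((2 * S) ^ (P - 2 * q - 1 + 1) / (P - 2 * q - 1 + 1))) := by
        gcongr
        refine h5.trans ?_
        rw [lintegral_const_mul' _ _ ENNReal.ofReal_ne_top,
          Pool.Agent.H438R2.BR.T7.lint_pow (2 * S) (P - 2 * q - 1) (by linarith) (by linarith)]
    _ = _ := by
        rw [← ENNReal.ofReal_mul (by positivity), ← ENNReal.ofReal_mul hP0.le,
          ENNReal.ofReal_rpow_of_pos hS0, ← ENNReal.ofReal_coe_nnreal,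
          ← ENNReal.ofReal_mul (by positivity), Real.coe_toNNReal _ (by positivity)]
        congr 1
        rw [Real.mul_rpow (by norm_num) hS0.le]
        have e2 : S ^ q * S ^ (P - 2 * q - 1 + 1) = S ^ (P - q) := by
          rw [← Real.rpow_add hS0]
          congr 1
          ring
        rw [← e2]
        ring

end Pool.Agent.Run7.h58.MV
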