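import Mathlib
import Pool.Agent.Run7.h58.MV.ST
set_option autoImplicit false

/-! Interpolation: all exponents above three, densities supported in a set of meridians. -/

namespace Pool.Agent.Run7.h58.MV

open MeasureTheory Set Complex Filter Topology
open scoped ENNReal NNReal RealInnerProductSpace
open Pool.Agent.H789R2.FR (E sg T sg_finite sg_ae sg_inv)
open Pool.Agent.H438R2.PD (P1 P1_J P1_meas T_meas' T_le T_comp)

theorem den_mass (F : ℝ → E 2 → ℂ) (hF : Measurable (Function.uncurry F))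
    (hb : ∀ z u, ‖F z u‖ ≤ 1) (A : Set (E 2)) (hA : MeasurableSet A)
    (hFA : ∀ z u, u ∉ A → F z u = 0) : ∫⁻ x, ‖den F x‖ₑ ∂(sg 3) ≤ 2 * sg 2 A := by
  rw [sphere_zu _ (den_meas F hF).enorm]
  calc ∫⁻ z in Ioo (-1 : ℝ) 1, ∫⁻ u, ‖den F (Ps z u)‖ₑ ∂(sg 2)
      ≤ ∫⁻ _z in Ioo (-1 : ℝ) 1, sg 2 A := by
        refine setLIntegral_mono' measurableSet_Ioo fun z hz => ?_
        rw [← lintegral_indicator_one hA]
        refine lintegral_mono_ae ?_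
        filter_upwards [sg_ae 2] with u hu
        rw [den_Ps F z hz u hu]
        by_cases h : u ∈ A
        · rw [indicator_of_mem h, Pi.one_apply, ← ofReal_norm, ENNReal.ofReal_le_one]
          exact hb z u
        · rw [hFA z u h, enorm_zero]
          exact zero_le
    _ = _ := by
        rw [setLIntegral_const, Real.volume_Ioo, mul_comm]
        norm_num

theorem thmB (q δ : ℝ) (hq : 3 < q) (hδ : 0 < δ) (hδ1 : δ < 1) : ∃ C : ℝ≥0, ∀ F : ℝ → E 2 → ℂ,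
    Cl 1 F → ∀ A : Set (E 2), MeasurableSet A → (∀ z u, u ∉ A → F z u = 0) →
    ∫⁻ ξ : E 3, ‖T (den F) ξ‖ₑ ^ q ≤ C * (sg 2 A) ^ (q - 2 - δ) := by
  have hfin := sg_finite 2
  set δ₁ : ℝ := min δ (q - 3) / 2 with hδ₁
  have hδ₁0 : 0 < δ₁ := by
    rw [hδ₁]
    have : 0 < min δ (q - 3) := lt_min hδ (by linarith)
    linarith
  have hδ₁a : δ₁ < δ := by
    have : min δ (q - 3) ≤ δ := min_le_left _ _
    rw [hδ₁]
    linarith
  have hδ₁b : δ₁ < q - 3 := by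
    have : min δ (q - 3) ≤ q - 3 := min_le_right _ _
    rw [hδ₁]
    linarith
  set q₁ : ℝ := 3 + δ₁ with hq₁
  set q₂ : ℝ := max q 4 + 1 with hq₂
  have hq₂a : q < q₂ := by
    have : q ≤ max q 4 := le_max_left _ _
    rw [hq₂]; linarith
  have hq₂b : 4 < q₂ := by
    have : 4 ≤ max q 4 := le_max_right _ _
    rw [hq₂]; linarith
  have h12 : 0 < q₂ - q₁ := by rw [hq₁]; linarith
  obtain ⟨C₁, hC₁⟩ := thmA 1 q₁ one_pos le_rfl (by linarith) (by linarith) (by linarith)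
  obtain ⟨C₂, hC₂⟩ := massST 3 (by norm_num) q₂ (by norm_num; linarith)
  set θ : ℝ := (q₂ - q) / (q₂ - q₁) with hθ
  set θ' : ℝ := (q - q₁) / (q₂ - q₁) with hθ'
  have hθ0 : 0 ≤ θ := div_nonneg (by linarith) h12.le
  have hθ'0 : 0 ≤ θ' := div_nonneg (by linarith) h12.le
  have hsum : θ + θ' = 1 := by
    rw [hθ, hθ', ← add_div]
    rw [show q₂ - q + (q - q₁) = q₂ - q₁ by ring]
    exact div_self h12.ne'
  have hθ1 : θ ≤ 1 := by linarith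
  have hqq : q₁ * θ + q₂ * θ' = q := by
    have e1 : θ * (q₂ - q₁) = q₂ - q := div_mul_cancel₀ _ h12.ne'
    have e2 : θ' = 1 - θ := by linarith
    rw [e2]
    linarith
  set S : ℝ≥0∞ := sg 2 univ with hS
  have hS' : S ≠ ⊤ := (measure_lt_top _ _).ne
  set D : ℝ≥0∞ := (C₁ : ℝ≥0∞) ^ θ * ((C₂ : ℝ≥0∞) * 2 ^ (q₂ - 2)) ^ θ' * S ^ (δ - θ * δ₁) with hD
  have he0 : 0 ≤ δ - θ * δ₁ := by nlinarith
  have hD' : D ≠ ⊤ := by
    rw [hD]
    refine ENNReal.mul_ne_top (ENNReal.mul_ne_top ?_ ?_) ?_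
    · exact ENNReal.rpow_ne_top_of_nonneg hθ0 ENNReal.coe_ne_top
    · exact ENNReal.rpow_ne_top_of_nonneg hθ'0 (ENNReal.mul_ne_top ENNReal.coe_ne_top
        (ENNReal.rpow_ne_top_of_nonneg (by linarith) (by norm_num)))
    · exact ENNReal.rpow_ne_top_of_nonneg he0 hS'
  refine ⟨D.toNNReal, fun F hF A hA hFA => ?_⟩
  rw [ENNReal.coe_toNNReal hD']
  set a : ℝ≥0∞ := sg 2 A with ha
  have ha' : a ≠ ⊤ := (measure_lt_top _ _).ne
  have haS : a ≤ S := measure_mono (subset_univ A)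
  have hmass := den_mass F hF.meas hF.le A hA hFA
  have hgm := den_meas F hF.meas
  have hgb : ∀ x, ‖den F x‖ ≤ 1 := fun x => hF.le _ _
  rcases eq_or_ne a 0 with h0 | h0
  · have h1 : ∀ ξ, ‖T (den F) ξ‖ₑ ^ q = 0 := by
      intro ξ
      have h2 := (T_mass (den F) ξ).trans hmass
      rw [← ha, h0, mul_zero] at h2
      rw [le_zero_iff.1 h2, ENNReal.zero_rpow_of_pos (by linarith)]
    simp only [h1, lintegral_zero]
    exact zero_le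
  -- the two bounds
  have b1 : ∫⁻ ξ : E 3, ‖T (den F) ξ‖ₑ ^ q₁ ≤ C₁ * a := hC₁ F hF A hA hFA
  have hm0 : 0 < (2 * a).toReal :=
    ENNReal.toReal_pos (mul_ne_zero (by norm_num) h0) (ENNReal.mul_ne_top (by norm_num) ha')
  have hm1 : ENNReal.ofReal (2 * a).toReal = 2 * a :=
    ENNReal.ofReal_toReal (ENNReal.mul_ne_top (by norm_num) ha')
  have b2 : ∫⁻ ξ : E 3, ‖T (den F) ξ‖ₑ ^ q₂ ≤ C₂ * (2 * a) ^ (q₂ - 2) := by
    have h1 := hC₂ (den F) hgm hgb (2 * a).toReal hm0 (by rw [hm1]; exact hmass)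
    rw [hm1] at h1
    have e : q₂ - (((3 : ℕ) : ℝ) + 1) / (((3 : ℕ) : ℝ) - 1) = q₂ - 2 := by norm_num
    rwa [e] at h1
  have hTm : Measurable (T (den F)) := T_meas' _ hgm
  calc ∫⁻ ξ : E 3, ‖T (den F) ξ‖ₑ ^ q
      = ∫⁻ ξ : E 3, (‖T (den F) ξ‖ₑ ^ q₁) ^ θ * (‖T (den F) ξ‖ₑ ^ q₂) ^ θ' := by
        refine lintegral_congr fun ξ => ?_
        rw [← ENNReal.rpow_mul, ← ENNReal.rpow_mul,
          ← ENNReal.rpow_add_of_nonneg _ _ (by positivity) (by positivity), hqq]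
    _ ≤ (∫⁻ ξ : E 3, ‖T (den F) ξ‖ₑ ^ q₁) ^ θ * (∫⁻ ξ : E 3, ‖T (den F) ξ‖ₑ ^ q₂) ^ θ' :=
        ENNReal.lintegral_mul_norm_pow_le (hTm.enorm.pow_const _).aemeasurable
          (hTm.enorm.pow_const _).aemeasurable hθ0 hθ'0 hsum
    _ ≤ (C₁ * a) ^ θ * (C₂ * (2 * a) ^ (q₂ - 2)) ^ θ' := by gcongr
    _ = ((C₁ : ℝ≥0∞) ^ θ * ((C₂ : ℝ≥0∞) * 2 ^ (q₂ - 2)) ^ θ') * (a ^ θ * a ^ ((q₂ - 2) * θ')) := by
        rw [ENNReal.mul_rpow_of_nonneg _ _ hθ0, ENNReal.mul_rpow_of_nonneg 2 a (by linarith),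
          ← mul_assoc (C₂ : ℝ≥0∞), ENNReal.mul_rpow_of_nonneg _ (a ^ (q₂ - 2)) hθ'0,
          ← ENNReal.rpow_mul a]
        ring
    _ = ((C₁ : ℝ≥0∞) ^ θ * ((C₂ : ℝ≥0∞) * 2 ^ (q₂ - 2)) ^ θ') *
          (a ^ (δ - θ * δ₁) * a ^ (q - 2 - δ)) := by
        rw [← ENNReal.rpow_add _ _ h0 ha', ← ENNReal.rpow_add _ _ h0 ha']
        congr 2
        have e2 : θ' = 1 - θ := by linarith
        have e3 : θ * (q₂ - q₁) = q₂ - q := div_mul_cancel₀ _ h12.ne'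
        rw [e2]
        rw [hq₁] at e3
        linarith
    _ ≤ ((C₁ : ℝ≥0∞) ^ θ * ((C₂ : ℝ≥0∞) * 2 ^ (q₂ - 2)) ^ θ') *
          (S ^ (δ - θ * δ₁) * a ^ (q - 2 - δ)) := by gcongr
    _ = _ := by rw [hD]; ring

end Pool.Agent.Run7.h58.MV
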