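import Mathlib
import Pool.Agent.TH335.RF.P4
import Pool.Agent.Run7.h58.MV.Full1
set_option autoImplicit false

/-! Densities whose variation along the meridians is in `L^p`. -/

namespace Pool.Agent.Run7.h58.MV

open MeasureTheory Set Complex Filter Topology
open scoped ENNReal NNReal RealInnerProductSpace
open Pool.Agent.H789R2.FR (E sg T sg_finite sg_ae sg_inv)
open Pool.Agent.H438R2.PD (P1 P1_J P1_meas T_meas' T_le T_comp)
open Pool.Agent.TH335.RF (geo mink)

/-- the longitude -/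
noncomputable def lg (x : E 3) : E 2 := ‖P1 2 1 x‖⁻¹ • P1 2 1 x

theorem lg_meas : Measurable lg := (P1_meas 2 1).norm.inv.smul (P1_meas 2 1)

theorem lg_Ps (z : ℝ) (hz : z ∈ Ioo (-1 : ℝ) 1) (u : E 2) (hu : ‖u‖ = 1) : lg (Ps z u) = u := by
  have hr : 0 < Real.sqrt (1 - z ^ 2) := by
    apply Real.sqrt_pos.2
    nlinarith [hz.1, hz.2]
  have e : P1 2 1 (jj (Real.sqrt (1 - z ^ 2) • u) z) = Real.sqrt (1 - z ^ 2) • u := P1_J _ _
  unfold lg Ps
  rw [e, norm_smul, hu, mul_one, Real.norm_eq_abs, abs_of_pos hr, smul_smul,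
    inv_mul_cancel₀ hr.ne', one_smul]

theorem null_lift (B : Set (E 2)) (hB : MeasurableSet B) (h0 : sg 2 B = 0) :
    sg 3 (lg ⁻¹' B) = 0 := by
  have hm : MeasurableSet (lg ⁻¹' B) := lg_meas hB
  rw [← lintegral_indicator_one hm, sphere_zu _ (measurable_one.indicator hm)]
  rw [show (0 : ℝ≥0∞) = ∫⁻ _z in Ioo (-1 : ℝ) 1, (0 : ℝ≥0∞) by simp]
  refine setLIntegral_congr_fun measurableSet_Ioo fun z hz => ?_
  have h1 : ∫⁻ u, (lg ⁻¹' B).indicator (1 : E 3 → ℝ≥0∞) (Ps z u) ∂(sg 2) =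
      ∫⁻ u, B.indicator (1 : E 2 → ℝ≥0∞) u ∂(sg 2) := by
    refine lintegral_congr_ae ?_
    filter_upwards [sg_ae 2] with u hu
    by_cases h : u ∈ B
    · have h' : Ps z u ∈ lg ⁻¹' B := by
        change lg (Ps z u) ∈ B
        rwa [lg_Ps z hz u hu]
      rw [indicator_of_mem h, indicator_of_mem h']
      rfl
    · have h' : Ps z u ∉ lg ⁻¹' B := by
        intro h2
        change lg (Ps z u) ∈ B at h2
        rw [lg_Ps z hz u hu] at h2
        exact h h2
      rw [indicator_of_notMem h, indicator_of_notMem h']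
  rw [h1, lintegral_indicator_one hB, h0]

/-- level sets -/
def lev (N : E 2 → ℝ≥0∞) : ℕ → Set (E 2)
  | 0 => {u | N u ≤ 1}
  | (k + 1) => {u | 2 ^ k < N u ∧ N u ≤ 2 ^ (k + 1)}

theorem lev_meas (N : E 2 → ℝ≥0∞) (hN : Measurable N) (k : ℕ) : MeasurableSet (lev N k) := by
  cases k with
  | zero => exact measurableSet_le hN measurable_const
  | succ k => exact (measurableSet_lt measurable_const hN).inter (measurableSet_le hN measurable_const)

theorem lev_le (N : E 2 → ℝ≥0∞) (k : ℕ) (u : E 2) (h : u ∈ lev N k) : N u ≤ 2 ^ k := by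
  cases k with
  | zero =>
    have h' : N u ≤ 1 := h
    simpa using h'
  | succ k => exact h.2

theorem lev_exists (N : E 2 → ℝ≥0∞) (u : E 2) (h : N u ≠ ⊤) :
    ∃ k, u ∈ lev N k ∧ ∀ j, j ≠ k → u ∉ lev N j := by
  classical
  have hex : ∃ k : ℕ, N u ≤ 2 ^ k := by
    obtain ⟨n, hn⟩ := ENNReal.exists_nat_gt h
    refine ⟨n, hn.le.trans ?_⟩
    have : (n : ℝ≥0∞) ≤ ((2 ^ n : ℕ) : ℝ≥0∞) := by exact_mod_cast n.lt_two_pow_self.le
    simpa using this
  have key : ∀ i j : ℕ, i < j → u ∈ lev N i → u ∉ lev N j := by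
    intro i j hij hi hj
    obtain ⟨m, rfl⟩ : ∃ m, j = m + 1 := ⟨j - 1, by omega⟩
    have h1 := lev_le N i u hi
    have h2 : (2 : ℝ≥0∞) ^ i ≤ 2 ^ m := pow_le_pow_right₀ (by norm_num) (by omega)
    exact absurd (h1.trans h2) (not_le.2 hj.1)
  have hk : u ∈ lev N (Nat.find hex) := by
    have h1 := Nat.find_spec hex
    rcases h0 : Nat.find hex with _ | m
    · rw [h0] at h1
      simpa [lev] using h1
    · rw [h0] at h1
      refine ⟨?_, h1⟩
      have h2 := Nat.find_min hex (m := m) (by omega)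
      exact not_le.1 h2
  refine ⟨Nat.find hex, hk, fun j hj => ?_⟩
  rcases lt_or_gt_of_ne hj with h1 | h1
  · exact fun h2 => key j _ h1 h2 hk
  · exact key _ j h1 hk

theorem lev_size (p : ℝ) (hp : 1 < p) (N : E 2 → ℝ≥0∞) (hN : Measurable N)
    (hI : ∫⁻ u, N u ^ p ∂(sg 2) ≤ 1) (k : ℕ) :
    sg 2 (lev N k) ≤ ENNReal.ofReal (((sg 2 univ).toReal + 2 ^ p) * ((2 : ℝ) ^ (-p)) ^ k) := by
  have hfin := sg_finite 2
  have hS : sg 2 univ ≠ ⊤ := (measure_lt_top _ _).ne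
  have hp0 : 0 < p := by linarith
  cases k with
  | zero =>
    rw [pow_zero, mul_one]
    calc sg 2 (lev N 0) ≤ sg 2 univ := measure_mono (subset_univ _)
      _ = ENNReal.ofReal (sg 2 univ).toReal := (ENNReal.ofReal_toReal hS).symm
      _ ≤ _ := ENNReal.ofReal_le_ofReal (by
        have : (0 : ℝ) < 2 ^ p := by positivity
        linarith)
  | succ k =>
    have h1 : (2 ^ k : ℝ≥0∞) ^ p * sg 2 (lev N (k + 1)) ≤ 1 := by
      refine le_trans ?_ hI
      rw [← setLIntegral_const]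
      refine (setLIntegral_mono (hN.pow_const p) fun u hu => ?_).trans (setLIntegral_le_lintegral _ _)
      exact ENNReal.rpow_le_rpow hu.1.le hp0.le
    have h2 : (2 ^ k : ℝ≥0∞) ^ p = ENNReal.ofReal (((2 : ℝ) ^ k) ^ p) := by
      rw [← ENNReal.ofReal_rpow_of_nonneg (by positivity) hp0.le, ENNReal.ofReal_pow (by norm_num)]
      norm_num
    have hpos : (0 : ℝ) < ((2 : ℝ) ^ k) ^ p := by positivity
    rw [h2] at h1
    have h3 : sg 2 (lev N (k + 1)) ≤ ENNReal.ofReal ((((2 : ℝ) ^ k) ^ p)⁻¹) := by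
      have h4 : sg 2 (lev N (k + 1)) = ENNReal.ofReal ((((2 : ℝ) ^ k) ^ p)⁻¹) *
          (ENNReal.ofReal (((2 : ℝ) ^ k) ^ p) * sg 2 (lev N (k + 1))) := by
        rw [← mul_assoc, ← ENNReal.ofReal_mul (by positivity), inv_mul_cancel₀ hpos.ne',
          ENNReal.ofReal_one, one_mul]
      rw [h4]
      calc _ ≤ ENNReal.ofReal ((((2 : ℝ) ^ k) ^ p)⁻¹) * 1 := by gcongr
        _ = _ := mul_one _
    refine h3.trans (ENNReal.ofReal_le_ofReal ?_)
    have e1 : (((2 : ℝ) ^ k) ^ p)⁻¹ = 2 ^ p * ((2 : ℝ) ^ (-p)) ^ (k + 1) := by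
      rw [← Real.rpow_natCast 2 k, ← Real.rpow_mul (by norm_num), ← Real.rpow_neg (by norm_num),
        ← Real.rpow_natCast (2 ^ (-p)) (k + 1), ← Real.rpow_mul (by norm_num),
        ← Real.rpow_add (by norm_num)]
      congr 1
      push_cast
      ring
    rw [e1]
    have hS0 : 0 ≤ (sg 2 univ).toReal := ENNReal.toReal_nonneg
    gcongr
    linarith

/-- the part of the profile where the size is about `2^k` -/
noncomputable def Fk (F : ℝ → E 2 → ℂ) (N : E 2 → ℝ≥0∞) (k : ℕ) (z : ℝ) (u : E 2) : ℂ :=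
  (lev N k).indicator (fun u => F z u) u

/-- its normalisation -/
noncomputable def Gk (F : ℝ → E 2 → ℂ) (N : E 2 → ℝ≥0∞) (k : ℕ) (z : ℝ) (u : E 2) : ℂ :=
  ((2 : ℂ) ^ k)⁻¹ * Fk F N k z u

theorem Fk_meas (F : ℝ → E 2 → ℂ) (hF : Measurable (Function.uncurry F)) (N : E 2 → ℝ≥0∞)
    (hN : Measurable N) (k : ℕ) : Measurable (Function.uncurry (Fk F N k)) := by
  have h1 : Function.uncurry (Fk F N k) =
      (Prod.snd ⁻¹' (lev N k)).indicator (Function.uncurry F) := by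
    funext p
    unfold Fk
    by_cases h : p.2 ∈ lev N k
    · have h' : p ∈ (Prod.snd ⁻¹' (lev N k) : Set (ℝ × E 2)) := h
      rw [indicator_of_mem h']
      change (lev N k).indicator (fun u => F p.1 u) p.2 = _
      rw [indicator_of_mem h]
      rfl
    · have h' : p ∉ (Prod.snd ⁻¹' (lev N k) : Set (ℝ × E 2)) := h
      rw [indicator_of_notMem h']
      change (lev N k).indicator (fun u => F p.1 u) p.2 = _
      rw [indicator_of_notMem h]
  rw [h1]
  exact hF.indicator (measurable_snd (lev_meas N hN k))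

theorem two_enorm (k : ℕ) : ‖(2 : ℂ) ^ k‖ₑ = 2 ^ k := by
  rw [enorm_pow, ← ofReal_norm]
  norm_num

theorem Gk_cl (F : ℝ → E 2 → ℂ) (hF : Measurable (Function.uncurry F)) (N : E 2 → ℝ≥0∞)
    (hN : Measurable N) (hb : ∀ z u, ‖F z u‖ₑ ≤ N u)
    (hs : ∀ z u, z ∉ Ioo (-1 : ℝ) 1 → F z u = 0)
    (hm : ∀ (h : ℝ) (u : E 2), ∫⁻ z, ‖F (z + h) u - F z u‖ₑ ≤ ENNReal.ofReal |h| * N u) (k : ℕ) :
    Cl 1 (Gk F N k) := by
  have h2 : ‖((2 : ℂ) ^ k)⁻¹‖ₑ = (2 ^ k)⁻¹ := by
    rw [enorm_inv (pow_ne_zero k two_ne_zero), two_enorm]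
  have h3 : ((2 : ℝ≥0∞) ^ k)⁻¹ * 2 ^ k = 1 :=
    ENNReal.inv_mul_cancel (by positivity) (ENNReal.pow_ne_top (by norm_num))
  refine ⟨?_, ?_, ?_, ?_⟩
  · exact (Fk_meas F hF N hN k).const_mul _
  · intro z u
    rw [← ENNReal.ofReal_le_one, ofReal_norm]
    unfold Gk Fk
    rw [enorm_mul, h2]
    by_cases h : u ∈ lev N k
    · rw [indicator_of_mem h, ← h3]
      gcongr
      exact (hb z u).trans (lev_le N k u h)
    · rw [indicator_of_notMem h, enorm_zero, mul_zero]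
      exact zero_le
  · intro z u hz
    unfold Gk Fk
    by_cases h : u ∈ lev N k
    · rw [indicator_of_mem h, hs z u hz, mul_zero]
    · rw [indicator_of_notMem h, mul_zero]
  · intro h u
    rw [Real.rpow_one]
    unfold Gk Fk
    by_cases hu : u ∈ lev N k
    · simp only [indicator_of_mem hu]
      calc ∫⁻ z, ‖((2 : ℂ) ^ k)⁻¹ * F (z + h) u - ((2 : ℂ) ^ k)⁻¹ * F z u‖ₑ
          = (2 ^ k)⁻¹ * ∫⁻ z, ‖F (z + h) u - F z u‖ₑ := by
            rw [← lintegral_const_mul' _ _ (ENNReal.inv_ne_top.2 (by positivity))]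
            refine lintegral_congr fun z => ?_
            rw [← mul_sub, enorm_mul, h2]
        _ ≤ (2 ^ k)⁻¹ * (ENNReal.ofReal |h| * 2 ^ k) := by
            gcongr
            exact (hm h u).trans (by gcongr; exact lev_le N k u hu)
        _ = ENNReal.ofReal |h| := by
            rw [mul_comm (ENNReal.ofReal |h|), ← mul_assoc, h3, one_mul]
    · simp only [indicator_of_notMem hu, mul_zero, sub_zero, enorm_zero, lintegral_zero]
      exact zero_le

theorem Gk_supp (F : ℝ → E 2 → ℂ) (N : E 2 → ℝ≥0∞) (k : ℕ) (z : ℝ) (u : E 2)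
    (h : u ∉ lev N k) : Gk F N k z u = 0 := by
  unfold Gk Fk
  rw [indicator_of_notMem h, mul_zero]

theorem Fk_eq (F : ℝ → E 2 → ℂ) (N : E 2 → ℝ≥0∞) (k : ℕ) (z : ℝ) (u : E 2) :
    Fk F N k z u = (2 : ℂ) ^ k * Gk F N k z u := by
  unfold Gk
  rw [← mul_assoc, mul_inv_cancel₀ (pow_ne_zero k two_ne_zero), one_mul]

theorem thmC (p q : ℝ) (hp : 1 < p) (hq : 3 < q) (hpq : 2 / q < 1 - 1 / p) :
    ∃ C : ℝ≥0, ∀ (F : ℝ → E 2 → ℂ) (N : E 2 → ℝ≥0∞), Measurable (Function.uncurry F) →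
    Measurable N → (∀ z u, ‖F z u‖ₑ ≤ N u) → (∀ z u, z ∉ Ioo (-1 : ℝ) 1 → F z u = 0) →
    (∀ (h : ℝ) (u : E 2), ∫⁻ z, ‖F (z + h) u - F z u‖ₑ ≤ ENNReal.ofReal |h| * N u) →
    ∫⁻ u, N u ^ p ∂(sg 2) ≤ 1 → (∫⁻ ξ : E 3, ‖T (den F) ξ‖ₑ ^ q) ^ (1 / q) ≤ C := by
  have hfin := sg_finite 2
  have hq0 : 0 < q := by linarith
  have hp0 : 0 < p := by linarith
  -- the loss
  have hgap : 0 < q - 2 - q / p := by
    have h1 : q * (2 / q) < q * (1 - 1 / p) := mul_lt_mul_of_pos_left hpq hq0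
    rw [mul_div_cancel₀ _ hq0.ne'] at h1
    have h2 : q * (1 - 1 / p) = q - q / p := by ring
    linarith
  set δ : ℝ := min (1 / 2) ((q - 2 - q / p) / 2) with hδ
  have hδ0 : 0 < δ := lt_min (by norm_num) (by linarith)
  have hδ1 : δ < 1 := (min_le_left _ _).trans_lt (by norm_num)
  have hδ2 : δ < q - 2 - q / p := (min_le_right _ _).trans_lt (by linarith)
  set e : ℝ := q - 2 - δ with he
  have heq : q / p < e := by rw [he]; linarith
  have he0 : 0 < e := lt_trans (div_pos hq0 hp0) heq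
  obtain ⟨CB, hCB⟩ := thmB q δ hq hδ0 hδ1
  set K : ℝ := (sg 2 univ).toReal + 2 ^ p with hK
  have hK0 : 0 < K := by
    have h1 : 0 ≤ (sg 2 univ).toReal := ENNReal.toReal_nonneg
    have h2 : (0 : ℝ) < 2 ^ p := by positivity
    rw [hK]; linarith
  set r : ℝ := (2 : ℝ) ^ (-p) with hr
  have hr0 : 0 < r := by positivity
  set ρ : ℝ := 2 * r ^ (e / q) with hρ
  have hρ0 : 0 < ρ := by positivity
  have hρ1 : ρ < 1 := by
    rw [hρ, hr, ← Real.rpow_mul (by norm_num)]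
    nth_rewrite 1 [← Real.rpow_one 2]
    rw [← Real.rpow_add (by norm_num)]
    apply Real.rpow_lt_one_of_one_lt_of_neg (by norm_num)
    have h1 : 1 / p < e / q := by
      rw [div_lt_div_iff₀ hp0 hq0]
      rw [div_lt_iff₀ hp0] at heq
      linarith
    have h2 : p * (1 / p) < p * (e / q) := mul_lt_mul_of_pos_left h1 hp0
    rw [mul_one_div_cancel hp0.ne'] at h2
    linarith
  set ρ' : ℝ := 2 * r with hρ'
  have hρ'1 : ρ' < 1 := by
    rw [hρ', hr]
    nth_rewrite 1 [← Real.rpow_one 2]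
    rw [← Real.rpow_add (by norm_num)]
    apply Real.rpow_lt_one_of_one_lt_of_neg (by norm_num)
    linarith
  have hρ'0 : 0 < ρ' := by positivity
  refine ⟨Real.toNNReal ((CB : ℝ) ^ (1 / q) * K ^ (e / q) / (1 - ρ)),
    fun F N hF hN hb hs hm hI => ?_⟩
  have hGcl := fun k => Gk_cl F hF N hN hb hs hm k
  have hGm : ∀ k, Measurable (den (Gk F N k)) := fun k => den_meas _ (hGcl k).meas
  have hFkm : ∀ k, Measurable (den (Fk F N k)) := fun k => den_meas _ (Fk_meas F hF N hN k)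
  have hdenFk : ∀ k x, den (Fk F N k) x = (2 : ℂ) ^ k * den (Gk F N k) x := fun k x => Fk_eq _ _ _ _ _
  have hTk : ∀ k ξ, T (den (Fk F N k)) ξ = (2 : ℂ) ^ k * T (den (Gk F N k)) ξ := by
    intro k ξ
    rw [← T_smul]
    congr 1
    funext x
    exact hdenFk k x
  have hsize := fun k => lev_size p hp N hN hI k
  -- almost everywhere decomposition
  have hInf : sg 2 {u | N u = ⊤} = 0 := by
    have h1 : ∀ᵐ u ∂(sg 2), N u ^ p < ⊤ :=
      ae_lt_top (hN.pow_const p) (hI.trans_lt (by norm_num)).ne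
    have h2 : ∀ᵐ u ∂(sg 2), ¬N u = ⊤ := by
      filter_upwards [h1] with u hu hu'
      rw [hu', ENNReal.top_rpow_of_pos hp0] at hu
      exact absurd hu (lt_irrefl _)
    rw [ae_iff] at h2
    simpa using h2
  have hInf3 := null_lift {u | N u = ⊤} (hN (measurableSet_singleton ⊤)) hInf
  have hdec : ∀ᵐ x ∂(sg 3), den F x = ∑' k, den (Fk F N k) x := by
    rw [ae_iff]
    refine measure_mono_null (fun x hx => ?_) hInf3
    by_contra hx'
    apply hx
    have h1 : N (lg x) ≠ ⊤ := hx'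
    obtain ⟨k, hk, hk'⟩ := lev_exists N (lg x) h1
    rw [tsum_eq_single k]
    · unfold den Fk
      change F (x 2) (lg x) = (lev N k).indicator (fun u => F (x 2) u) (lg x)
      rw [indicator_of_mem hk]
    · intro j hj
      unfold den Fk
      change (lev N j).indicator (fun u => F (x 2) u) (lg x) = 0
      rw [indicator_of_notMem (hk' j hj)]
  have hexm : ∀ ξ : E 3, Measurable fun w : E 3 => Complex.exp (-((⟪ξ, w⟫ : ℝ) : ℂ) * I) := by
    intro ξ
    have : Measurable fun w : E 3 => (⟪ξ, w⟫ : ℝ) := by fun_prop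
    exact Complex.measurable_exp.comp ((Complex.measurable_ofReal.comp this).neg.mul_const I)
  have hexn : ∀ ξ w : E 3, ‖Complex.exp (-((⟪ξ, w⟫ : ℝ) : ℂ) * I)‖ₑ = 1 := by
    intro ξ w
    have := norm_ee (⟪ξ, w⟫ : ℝ)
    unfold ee at this
    rw [← ofReal_norm, this, ENNReal.ofReal_one]
  have hTdec : ∀ ξ, T (den F) ξ = ∑' k, T (den (Fk F N k)) ξ := by
    intro ξ
    unfold T
    rw [← integral_tsum]
    · refine integral_congr_ae ?_
      filter_upwards [hdec] with x hx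
      rw [hx, ← tsum_mul_left]
    · exact fun k => ((hexm ξ).mul (hFkm k)).aestronglyMeasurable
    · have h5 : ∑' k, ∫⁻ x, ‖Complex.exp (-((⟪ξ, x⟫ : ℝ) : ℂ) * I) * den (Fk F N k) x‖ₑ ∂(sg 3) ≤
          ∑' k : ℕ, ENNReal.ofReal (2 * K * ρ' ^ k) := by
        apply ENNReal.tsum_le_tsum
        intro k
        calc ∫⁻ x, ‖Complex.exp (-((⟪ξ, x⟫ : ℝ) : ℂ) * I) * den (Fk F N k) x‖ₑ ∂(sg 3)
            = 2 ^ k * ∫⁻ x, ‖den (Gk F N k) x‖ₑ ∂(sg 3) := by
              rw [← lintegral_const_mul _ (hGm k).enorm]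
              refine lintegral_congr fun x => ?_
              rw [enorm_mul, hexn, one_mul, hdenFk, enorm_mul, two_enorm]
          _ ≤ 2 ^ k * (2 * sg 2 (lev N k)) := by
              gcongr
              exact den_mass _ (hGcl k).meas (hGcl k).le _ (lev_meas N hN k)
                fun z u hu => Gk_supp F N k z u hu
          _ ≤ 2 ^ k * (2 * ENNReal.ofReal (K * r ^ k)) := by
              gcongr
              exact hsize k
          _ = ENNReal.ofReal (2 * K * ρ' ^ k) := by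
              have e1 : (2 : ℝ≥0∞) ^ k = ENNReal.ofReal (2 ^ k) := by
                rw [ENNReal.ofReal_pow (by norm_num)]; norm_num
              have e2 : (2 : ℝ≥0∞) * ENNReal.ofReal (K * r ^ k) =
                  ENNReal.ofReal (2 * (K * r ^ k)) := by
                rw [show (2 : ℝ≥0∞) = ENNReal.ofReal 2 by norm_num,
                  ← ENNReal.ofReal_mul (by norm_num)]
              rw [e1, e2, ← ENNReal.ofReal_mul (by positivity), hρ', mul_pow]
              congr 1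
              ring
      refine (h5.trans_lt ?_).ne
      rw [geo (2 * K) ρ' (by positivity) hρ'0.le hρ'1]
      exact ENNReal.ofReal_lt_top
  -- sum of the pieces
  have hTm : ∀ k, Measurable fun ξ => ‖T (den (Fk F N k)) ξ‖ₑ := fun k => (T_meas' _ (hFkm k)).enorm
  have hpiece : ∀ k, (∫⁻ ξ : E 3, ‖T (den (Fk F N k)) ξ‖ₑ ^ q) ^ (1 / q) ≤
      ENNReal.ofReal ((CB : ℝ) ^ (1 / q) * K ^ (e / q) * ρ ^ k) := by
    intro k
    have h1 : ∫⁻ ξ : E 3, ‖T (den (Fk F N k)) ξ‖ₑ ^ q ≤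
        (2 ^ k) ^ q * (CB * (ENNReal.ofReal (K * r ^ k)) ^ e) := by
      calc ∫⁻ ξ : E 3, ‖T (den (Fk F N k)) ξ‖ₑ ^ q
          = (2 ^ k) ^ q * ∫⁻ ξ : E 3, ‖T (den (Gk F N k)) ξ‖ₑ ^ q := by
            rw [← lintegral_const_mul _ ((T_meas' _ (hGm k)).enorm.pow_const q)]
            refine lintegral_congr fun ξ => ?_
            rw [hTk, enorm_mul, two_enorm, ENNReal.mul_rpow_of_nonneg _ _ hq0.le]
        _ ≤ (2 ^ k) ^ q * (CB * (sg 2 (lev N k)) ^ e) := by
            gcongr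
            exact hCB _ (hGcl k) _ (lev_meas N hN k) fun z u hu => Gk_supp F N k z u hu
        _ ≤ _ := by
            gcongr
            exact hsize k
    refine (ENNReal.rpow_le_rpow h1 (by positivity)).trans (le_of_eq ?_)
    have e1 : ((2 : ℝ≥0∞) ^ k) = ENNReal.ofReal (2 ^ k) := by
      rw [ENNReal.ofReal_pow (by norm_num)]; norm_num
    rw [e1, ENNReal.ofReal_rpow_of_nonneg (by positivity) hq0.le,
      ENNReal.ofReal_rpow_of_nonneg (by positivity) he0.le, ← ENNReal.ofReal_coe_nnreal,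
      ← ENNReal.ofReal_mul (by positivity), ← ENNReal.ofReal_mul (by positivity),
      ENNReal.ofReal_rpow_of_nonneg (by positivity) (by positivity)]
    congr 1
    rw [Real.mul_rpow (by positivity) (by positivity), ← Real.rpow_mul (by positivity),
      mul_one_div_cancel hq0.ne', Real.rpow_one, Real.mul_rpow (by positivity) (by positivity),
      ← Real.rpow_mul (by positivity), Real.mul_rpow (by positivity) (by positivity),
      mul_one_div, hρ, mul_pow]
    have e3 : (r ^ k) ^ (e / q) = (r ^ (e / q)) ^ k := by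
      rw [← Real.rpow_natCast r k, ← Real.rpow_mul hr0.le, ← Real.rpow_natCast (r ^ (e / q)) k,
        ← Real.rpow_mul hr0.le, mul_comm]
    rw [e3]
    ring
  calc (∫⁻ ξ : E 3, ‖T (den F) ξ‖ₑ ^ q) ^ (1 / q)
      ≤ (∫⁻ ξ : E 3, (∑' k, ‖T (den (Fk F N k)) ξ‖ₑ) ^ q) ^ (1 / q) := by
        gcongr with ξ
        rw [hTdec]
        exact enorm_tsum_le_tsum_enorm
    _ ≤ ((∑' k, (∫⁻ ξ : E 3, ‖T (den (Fk F N k)) ξ‖ₑ ^ q) ^ (1 / q)) ^ q) ^ (1 / q) := by
        gcongr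
        exact mink volume q (by linarith) (fun k ξ => ‖T (den (Fk F N k)) ξ‖ₑ) hTm
    _ = ∑' k, (∫⁻ ξ : E 3, ‖T (den (Fk F N k)) ξ‖ₑ ^ q) ^ (1 / q) := by
        rw [← ENNReal.rpow_mul, mul_one_div_cancel hq0.ne', ENNReal.rpow_one]
    _ ≤ ∑' k : ℕ, ENNReal.ofReal ((CB : ℝ) ^ (1 / q) * K ^ (e / q) * ρ ^ k) :=
        ENNReal.tsum_le_tsum hpiece
    _ = _ := by
        rw [geo _ ρ (by positivity) hρ0.le hρ1]
        rfl

end Pool.Agent.Run7.h58.MV
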