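import Mathlib
import Pool.Agent.Run7.h58.MV.Full2
import Pool.Agent.Run7.h58.MV.BV
set_option autoImplicit false

/-! Functions on the sphere of bounded variation along the meridians. -/

namespace Pool.Agent.Run7.h58.MV

open MeasureTheory Set Complex Filter Topology
open scoped ENNReal NNReal RealInnerProductSpace
open Pool.Agent.H789R2.FR (E sg T sg_finite sg_ae sg_inv)
open Pool.Agent.H438R2.PD (P1 P1_J P1_meas T_meas' T_le T_comp)

/-- along every meridian the function and its variation are at most `V` -/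
def Mer (G : E 3 → ℂ) (V : E 2 → ℝ≥0∞) : Prop := ∀ u : E 2, ‖u‖ = 1 →
  (∀ z ∈ Ioo (-1 : ℝ) 1, ‖G (Ps z u)‖ₑ ≤ V u) ∧
    eVariationOn (fun z => G (Ps z u)) (Ioo (-1 : ℝ) 1) ≤ V u

/-- the profile of a function on the sphere -/
noncomputable def pf (G : E 3 → ℂ) (z : ℝ) (u : E 2) : ℂ :=
  ((Ioo (-1 : ℝ) 1) ×ˢ {v : E 2 | ‖v‖ = 1}).indicator (fun p : ℝ × E 2 => G (Ps p.1 p.2)) (z, u)

theorem pf_meas (G : E 3 → ℂ) (hG : Measurable G) : Measurable (Function.uncurry (pf G)) := by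
  have h1 : MeasurableSet ((Ioo (-1 : ℝ) 1) ×ˢ {v : E 2 | ‖v‖ = 1}) :=
    measurableSet_Ioo.prod (measurable_norm (measurableSet_singleton (1 : ℝ)))
  exact (hG.comp Ps_meas).indicator h1

theorem pf_in (G : E 3 → ℂ) (z : ℝ) (hz : z ∈ Ioo (-1 : ℝ) 1) (u : E 2) (hu : ‖u‖ = 1) :
    pf G z u = G (Ps z u) := by
  unfold pf
  exact indicator_of_mem (show (z, u) ∈ (Ioo (-1 : ℝ) 1) ×ˢ {v : E 2 | ‖v‖ = 1} from ⟨hz, hu⟩) _

theorem pf_out (G : E 3 → ℂ) (z : ℝ) (u : E 2) (h : ¬(z ∈ Ioo (-1 : ℝ) 1 ∧ ‖u‖ = 1)) :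
    pf G z u = 0 := by
  unfold pf
  exact indicator_of_notMem (fun h1 => h ⟨h1.1, h1.2⟩) _

theorem pf_ae (G : E 3 → ℂ) (hG : Measurable G) : ∀ᵐ x ∂(sg 3), den (pf G) x = G x := by
  have h1 : Measurable (den (pf G)) := den_meas _ (pf_meas G hG)
  have hms : MeasurableSet {x : E 3 | ¬den (pf G) x = G x} := by
    have : {x : E 3 | ¬den (pf G) x = G x} = {x | den (pf G) x - G x ≠ 0} := by
      ext x
      simp [sub_eq_zero]
    rw [this]
    exact (h1.sub hG) (measurableSet_singleton 0).compl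
  rw [ae_iff, ← lintegral_indicator_one hms, sphere_zu _ (measurable_one.indicator hms)]
  rw [show (0 : ℝ≥0∞) = ∫⁻ _z in Ioo (-1 : ℝ) 1, (0 : ℝ≥0∞) by simp]
  refine setLIntegral_congr_fun measurableSet_Ioo fun z hz => ?_
  have h2 : ∫⁻ u, {x : E 3 | ¬den (pf G) x = G x}.indicator (1 : E 3 → ℝ≥0∞) (Ps z u) ∂(sg 2) =
      ∫⁻ _u, (0 : ℝ≥0∞) ∂(sg 2) := by
    refine lintegral_congr_ae ?_
    filter_upwards [sg_ae 2] with u hu
    rw [indicator_of_notMem]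
    intro h
    apply h
    rw [den_Ps _ z hz u hu, pf_in G z hz u hu]
  rw [h2, lintegral_zero]

theorem T_congr (G H : E 3 → ℂ) (h : ∀ᵐ x ∂(sg 3), G x = H x) (ξ : E 3) : T G ξ = T H ξ := by
  unfold T
  refine integral_congr_ae ?_
  filter_upwards [h] with x hx
  rw [hx]

theorem thmD (p q : ℝ) (hp : 1 < p) (hq : 3 < q) (hpq : 2 / q < 1 - 1 / p) :
    ∃ C : ℝ≥0, ∀ (G : E 3 → ℂ) (V : E 2 → ℝ≥0∞), Measurable G → Measurable V → Mer G V →
    ∀ M : ℝ, 0 < M → ∫⁻ u, V u ^ p ∂(sg 2) ≤ ENNReal.ofReal (M ^ p) →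
    (∫⁻ ξ : E 3, ‖T G ξ‖ₑ ^ q) ^ (1 / q) ≤ C * ENNReal.ofReal M := by
  obtain ⟨C, hC⟩ := thmC p q hp hq hpq
  have hq0 : 0 < q := by linarith
  have hp0 : 0 < p := by linarith
  refine ⟨3 * C, fun G V hG hV hGV M hM hI => ?_⟩
  have hM3 : (0 : ℝ) < 3 * M := by positivity
  have hcn : ((3 * M : ℝ) : ℂ) ≠ 0 := by exact_mod_cast hM3.ne'
  set F : ℝ → E 2 → ℂ := fun z u => ((3 * M : ℝ) : ℂ)⁻¹ * pf G z u with hF
  set N : E 2 → ℝ≥0∞ := fun u => ENNReal.ofReal M⁻¹ * V u with hN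
  have hFm : Measurable (Function.uncurry F) := (pf_meas G hG).const_mul _
  have hNm : Measurable N := hV.const_mul _
  have hen : ‖((3 * M : ℝ) : ℂ)⁻¹‖ₑ = ENNReal.ofReal (3 * M)⁻¹ := by
    rw [← ofReal_norm, norm_inv, Complex.norm_real, Real.norm_of_nonneg hM3.le]
  have hle : ENNReal.ofReal (3 * M)⁻¹ ≤ ENNReal.ofReal M⁻¹ := by
    apply ENNReal.ofReal_le_ofReal
    apply inv_anti₀ hM
    linarith
  have h3 : ENNReal.ofReal (3 * M)⁻¹ * 3 = ENNReal.ofReal M⁻¹ := by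
    rw [show (3 : ℝ≥0∞) = ENNReal.ofReal 3 by norm_num, ← ENNReal.ofReal_mul (by positivity)]
    congr 1
    field_simp
  have hpfb : ∀ z u, ‖u‖ = 1 → ‖pf G z u‖ₑ ≤ V u := by
    intro z u hu
    by_cases hz : z ∈ Ioo (-1 : ℝ) 1
    · rw [pf_in G z hz u hu]
      exact (hGV u hu).1 z hz
    · rw [pf_out G z u (fun h => hz h.1), enorm_zero]
      exact zero_le
  have hb : ∀ z u, ‖F z u‖ₑ ≤ N u := by
    intro z u
    simp only [hF, hN]
    rw [enorm_mul, hen]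
    by_cases hu : ‖u‖ = 1
    · exact mul_le_mul' hle (hpfb z u hu)
    · rw [pf_out G z u (fun h => hu h.2), enorm_zero, mul_zero]
      exact zero_le
  have hs : ∀ z u, z ∉ Ioo (-1 : ℝ) 1 → F z u = 0 := by
    intro z u hz
    simp only [hF]
    rw [pf_out G z u (fun h => hz h.1), mul_zero]
  have hm : ∀ (h : ℝ) (u : E 2), ∫⁻ z, ‖F (z + h) u - F z u‖ₑ ≤ ENNReal.ofReal |h| * N u := by
    intro h u
    simp only [hF, hN]
    by_cases hu : ‖u‖ = 1
    · have h5 := modVar (fun z => pf G z u)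
        ((pf_meas G hG).comp (measurable_id.prodMk measurable_const)) (V u)
        (fun z hz => pf_out G z u fun h => hz h.1) (fun z => hpfb z u hu) (by
          rw [eVariationOn.eq_of_eqOn (f' := fun z => G (Ps z u))
            (fun z hz => pf_in G z hz u hu)]
          exact (hGV u hu).2) h
      calc ∫⁻ z, ‖((3 * M : ℝ) : ℂ)⁻¹ * pf G (z + h) u - ((3 * M : ℝ) : ℂ)⁻¹ * pf G z u‖ₑ
          = ENNReal.ofReal (3 * M)⁻¹ * ∫⁻ z, ‖pf G (z + h) u - pf G z u‖ₑ := by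
            rw [← lintegral_const_mul' _ _ ENNReal.ofReal_ne_top]
            refine lintegral_congr fun z => ?_
            rw [← mul_sub, enorm_mul, hen]
        _ ≤ ENNReal.ofReal (3 * M)⁻¹ * (ENNReal.ofReal |h| * (3 * V u)) := by gcongr
        _ = (ENNReal.ofReal (3 * M)⁻¹ * 3) * (ENNReal.ofReal |h| * V u) := by ring
        _ = _ := by rw [h3]; ring
    · have h6 : ∀ z, pf G z u = 0 := fun z => pf_out G z u (fun h => hu h.2)
      simp only [h6, mul_zero, sub_zero, enorm_zero, lintegral_zero]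
      exact zero_le
  have hI' : ∫⁻ u, N u ^ p ∂(sg 2) ≤ 1 := by
    simp only [hN]
    calc ∫⁻ u, (ENNReal.ofReal M⁻¹ * V u) ^ p ∂(sg 2)
        = ENNReal.ofReal ((M⁻¹) ^ p) * ∫⁻ u, V u ^ p ∂(sg 2) := by
          rw [← lintegral_const_mul' _ _ ENNReal.ofReal_ne_top]
          refine lintegral_congr fun u => ?_
          rw [ENNReal.mul_rpow_of_nonneg _ _ hp0.le, ENNReal.ofReal_rpow_of_nonneg (by positivity) hp0.le]
      _ ≤ ENNReal.ofReal ((M⁻¹) ^ p) * ENNReal.ofReal (M ^ p) := by gcongr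
      _ = 1 := by
          rw [← ENNReal.ofReal_mul (by positivity), ← Real.mul_rpow (by positivity) hM.le,
            inv_mul_cancel₀ hM.ne', Real.one_rpow, ENNReal.ofReal_one]
  have hmain := hC F N hFm hNm hb hs hm hI'
  have hT : ∀ ξ, T G ξ = ((3 * M : ℝ) : ℂ) * T (den F) ξ := by
    intro ξ
    rw [← T_smul, ← T_congr _ _ (pf_ae G hG) ξ]
    congr 1
    funext x
    unfold den
    simp only [hF]
    rw [← mul_assoc, mul_inv_cancel₀ hcn, one_mul]
  have hTm : Measurable (T (den F)) := T_meas' _ (den_meas F hFm)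
  calc (∫⁻ ξ : E 3, ‖T G ξ‖ₑ ^ q) ^ (1 / q)
      = (ENNReal.ofReal (3 * M) ^ q * ∫⁻ ξ : E 3, ‖T (den F) ξ‖ₑ ^ q) ^ (1 / q) := by
        congr 1
        rw [← lintegral_const_mul _ (hTm.enorm.pow_const q)]
        refine lintegral_congr fun ξ => ?_
        rw [hT, enorm_mul, ENNReal.mul_rpow_of_nonneg _ _ hq0.le, ← ofReal_norm ((3 * M : ℝ) : ℂ),
          Complex.norm_real, Real.norm_of_nonneg hM3.le]
    _ = ENNReal.ofReal (3 * M) * (∫⁻ ξ : E 3, ‖T (den F) ξ‖ₑ ^ q) ^ (1 / q) := by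
        rw [ENNReal.mul_rpow_of_nonneg _ _ (by positivity), ← ENNReal.rpow_mul,
          mul_one_div_cancel hq0.ne', ENNReal.rpow_one]
    _ ≤ ENNReal.ofReal (3 * M) * C := by gcongr
    _ = _ := by
        rw [ENNReal.ofReal_mul (by norm_num), ENNReal.coe_mul]
        norm_num
        ring

end Pool.Agent.Run7.h58.MV
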